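import Pool.Agent.Run7.h158.Unc

/-!
# Inverses modulo all steps of the filtration
-/

open CategoryTheory AlgebraicGeometry

namespace Run7.h158

open Pool.Agent.H914 Pool.Agent.H914.VarClass Pool.Agent.H914.VarClass.Obj Pool.Agent.W492.BB
  Pool.Agent.W550.Corr Pool.Agent.TH133 Pool.Agent.TH829.Prime Pool.Agent.TH829.Kim
  Pool.Agent.Q8.HK Pool.Agent.N174.OV Pool.Agent.Y107 Pool.Agent.N174.KN

set_option linter.unusedSectionVars false

variable {𝒱 : VarClass ℂ} {C : TheoryData.{0, 0, 0} 𝒱 ℚ} [hC : IsChowProj C]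
  {H : WeilTheoryData.{0, 0, 0} C ℂ} [hH : IsWeilProj H] {X Y Z W : 𝒱.Obj}
  {G : H.A X ≃ₐ[ℂ] H.A Y} {c : ℚ} {s : C.A (X.prod Y)} {s' : C.A (Y.prod X)}

include hC

/-- The powers of the self-correspondence `N`. -/
noncomputable def cpow (N : C.A (X.prod X)) : ℕ → C.A (X.prod X)
  | 0 => dg C X
  | k + 1 => C.comp (cpow N k) N

lemma comp_cpow (N : C.A (X.prod X)) (k : ℕ) : C.comp N (cpow N k) = cpow N (k + 1) := by
  induction k with
  | zero => rw [cpow, cpow, cpow, comp_dg, dg_comp]
  | succ k ih => rw [cpow, ← comp_assoc, ih]; rfl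

lemma cpow_comm (N : C.A (X.prod X)) (N' : C.A (Y.prod Y)) (Z : C.A (X.prod Y))
    (h : C.comp N Z = C.comp Z N') (k : ℕ) : C.comp (cpow N k) Z = C.comp Z (cpow N' k) := by
  induction k with
  | zero => rw [cpow, cpow, comp_dg, dg_comp]
  | succ k ih => rw [cpow, comp_assoc, h, ← comp_assoc, ih, comp_assoc]; rfl

/-- The inverse of `Z` modulo the `k`-th power of `N = [Δ] - Z' ∘ Z`. -/
noncomputable def inv' (Z : C.A (X.prod Y)) (Z' : C.A (Y.prod X)) (k : ℕ) : C.A (Y.prod X) :=
  ∑ j ∈ Finset.range k, C.comp Z' (cpow (dg C X - C.comp Z Z') j)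

lemma comp_inv' (Z : C.A (X.prod Y)) (Z' : C.A (Y.prod X)) (k : ℕ) :
    C.comp Z (inv' Z Z' k) = dg C X - cpow (dg C X - C.comp Z Z') k := by
  have h0 : ∀ N : C.A (X.prod X), N = dg C X - C.comp Z Z' → ∀ k,
      C.comp (C.comp Z Z') (cpow N k) = cpow N k - cpow N (k + 1) := by
    intro N hN k
    rw [← comp_cpow, show C.comp Z Z' = dg C X - N by rw [hN, sub_sub_cancel], sub_comp, dg_comp]
  induction k with
  | zero => rw [inv', Finset.range_zero, Finset.sum_empty, comp_zero, cpow, sub_self]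
  | succ k ih =>
    rw [inv'] at ih
    rw [inv', Finset.sum_range_succ, comp_add, ← comp_assoc, h0 _ rfl, ih]
    abel

lemma inv'_comp (Z : C.A (X.prod Y)) (Z' : C.A (Y.prod X)) (k : ℕ) :
    C.comp (inv' Z Z' k) Z = dg C Y - cpow (dg C Y - C.comp Z' Z) k := by
  have h1 : C.comp (dg C X - C.comp Z Z') Z = C.comp Z (dg C Y - C.comp Z' Z) := by
    rw [sub_comp, comp_sub, dg_comp, comp_dg, comp_assoc]
  have h0 : ∀ N : C.A (Y.prod Y), N = dg C Y - C.comp Z' Z → ∀ k,
      C.comp (C.comp Z' Z) (cpow N k) = cpow N k - cpow N (k + 1) := by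
    intro N hN k
    rw [← comp_cpow, show C.comp Z' Z = dg C Y - N by rw [hN, sub_sub_cancel], sub_comp, dg_comp]
  induction k with
  | zero => rw [inv', Finset.range_zero, Finset.sum_empty, zero_comp, cpow, sub_self]
  | succ k ih =>
    rw [inv'] at ih
    rw [inv', Finset.sum_range_succ, add_comp, comp_assoc, cpow_comm _ _ Z h1, ← comp_assoc,
      h0 _ rfl, ih]
    abel

include hH

lemma cpow_mem {F : Filtration C} (hF : IsCompatible H F) {N : C.A (X.prod X)}
    (hN : F.Mem X.dim 2 N) (k : ℕ) : F.Mem X.dim (2 * k) (cpow N k) := by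
  induction k with
  | zero => exact (hF.zero _ _ _).2 (dg_mem C X)
  | succ k ih => exact fil_comp hF.multiplicative ih hN rfl

omit hH in
lemma cpow_gr {N : C.A (X.prod X)} (hd : N ∈ C.gr (X.prod X) X.dim) (k : ℕ) :
    cpow N k ∈ C.gr (X.prod X) X.dim := by
  induction k with
  | zero => exact dg_mem C X
  | succ k ih => exact comp_mem_zero ih hd

/-- **The unconditional case**, with inverses modulo all steps of the filtrations. -/
theorem exists_grIso_all {n : ℕ} {V : Type} [AddCommGroup V] [Module ℂ V]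
    {R : Submodule ℚ (C.A X)} {R' : Submodule ℚ (C.A Y)} (hX : HyperKahler H n X V)
    (h : Lift H G c s s') (hR : IsFaithful C R) (hR' : IsFaithful C R') (hm : Matches H G R R') :
    ∃ (Z1 s1 : C.A (X.prod Y)) (s1' : C.A (Y.prod X)), Induces H G Z1 ∧
      C.comp s1 s1' = dg C X ∧ C.comp s1' s1 = dg C Y ∧
      ∀ k : ℕ, ∃ Z1' : C.A (Y.prod X), Induces H G.symm Z1' ∧ RestrictsTo C Z1 Z1' R R' ∧
        ∀ F : Filtration C, IsCompatible H F → IsGrIso F k Z1 s1 Z1' s1' := by
  obtain ⟨Z1, s1, Z2, s1', h1, h2, h3, h4, h5, h6⟩ := exists_grIso_restr hX h hR hR' hm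
  refine ⟨Z1, s1, s1', h1, h3, h4, fun k => ?_⟩
  set N := dg C X - C.comp Z1 Z2 with hN
  have hNd : N ∈ C.gr (X.prod X) X.dim :=
    Submodule.sub_mem _ (dg_mem C X) (comp_mem_zero h1.deg h2.deg)
  have hN0 : H.cl N = 0 := by rw [hN, map_sub, h1.comp_hom h2, sub_self]
  set E : C.A (Y.prod X) := ∑ j ∈ Finset.range k, C.comp Z2 (cpow N (j + 1)) with hE
  have hEi : inv' Z1 Z2 (k + 1) = Z2 + E := by
    rw [inv', Finset.sum_range_succ', cpow, comp_dg, add_comm]
  have hEd : E ∈ C.gr (Y.prod X) Y.dim :=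
    Submodule.sum_mem _ fun j _ => comp_mem_zero h2.deg (cpow_gr hNd _)
  have hE0 : H.cl E = 0 := by
    rw [hE, map_sum]
    refine Finset.sum_eq_zero fun j _ => ?_
    rw [cpow, cl_comp, cl_comp, hN0, comp_zero, comp_zero]
  have hNR : ∀ x ∈ R, C.act N x = 0 := fun x hx => by
    rw [hN, TheoryData.act_sub, act_dg, C.act_comp, h5.left x hx, sub_self]
  have hER : ∀ y ∈ R', C.act E y = 0 := fun y hy => by
    rw [hE, act_sum]
    refine Finset.sum_eq_zero fun j _ => ?_
    rw [← comp_cpow, C.act_comp, C.act_comp, hNR _ (h5.bwd y hy), TheoryData.act_map_zero]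
  have hact : ∀ y ∈ R', C.act (Z2 + E) y = C.act Z2 y := fun y hy => by
    rw [TheoryData.act_add, hER y hy, add_zero]
  have hI : Induces H G.symm (Z2 + E) := ⟨Submodule.add_mem _ h2.deg hEd, fun a => by
    rw [map_add, hE0, add_zero, h2.act]⟩
  refine ⟨Z2 + E, hI, ⟨h5.fwd, fun y hy => ?_, fun x hx => ?_, fun y hy => ?_, h5.mul⟩,
    fun F hF => ?_⟩
  · rw [hact y hy]
    exact h5.bwd y hy
  · rw [hact _ (h5.fwd x hx)]
    exact h5.left x hx
  · rw [hact y hy]
    exact h5.right y hy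
  · have h7 := h6 F hF
    have hNF : F.Mem X.dim 2 N := by
      have h8 := h7.left X X.dim 0 (dg C X) ((hF.zero _ _ _).2 (dg_mem C X))
      rw [dg_comp, zero_add] at h8
      have h9 := Submodule.neg_mem _ h8
      rwa [neg_sub] at h9
    have hNF' : F.Mem Y.dim 2 (dg C Y - C.comp Z2 Z1) := by
      have h8 := h7.right Y Y.dim 0 (dg C Y) ((hF.zero _ _ _).2 (dg_mem C Y))
      rw [dg_comp, zero_add] at h8
      have h9 := Submodule.neg_mem _ h8
      rwa [neg_sub] at h9
    have hEF : F.Mem Y.dim 2 E := by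
      refine Submodule.sum_mem _ fun j _ => ?_
      have h8 := fil_comp hF.multiplicative (l := Y.dim) ((hF.zero _ _ _).2 h2.deg)
        (cpow_mem hF hNF (j + 1)) rfl
      exact fil_anti (by omega) h8
    refine ⟨h7.hom, hI.inducesGrHom hF, ?_, ?_, h7.same, ?_⟩
    · intro T i l a ha
      have h8 := fil_comp hF.multiplicative (l := i) ha (cpow_mem hF hNF (k + 1)) rfl
      have h9 : C.comp (C.comp a Z1) (Z2 + E) - a = - C.comp a (cpow N (k + 1)) := by
        rw [comp_assoc, ← hEi, comp_inv', comp_sub, comp_dg]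
        abel
      rw [h9]
      exact Submodule.neg_mem _ (fil_anti (by omega) h8)
    · intro T i l a ha
      have h8 := fil_comp hF.multiplicative (l := i) ha (cpow_mem hF hNF' (k + 1)) rfl
      have h9 : C.comp (C.comp a (Z2 + E)) Z1 - a =
          - C.comp a (cpow (dg C Y - C.comp Z2 Z1) (k + 1)) := by
        rw [comp_assoc, ← hEi, inv'_comp, comp_sub, comp_dg]
        abel
      rw [h9]
      exact Submodule.neg_mem _ (fil_anti (by omega) h8)
    · refine ⟨h7.same'.map, fun T l a ha => ?_⟩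
      have h3 := h7.same'.same T l a ha
      have h4 : C.comp a E ∈ total F (l + 1) (T.prod X) := by
        refine Submodule.iSup_induction (fun i => F.F (T.prod Y) i l)
          (motive := fun a => C.comp a E ∈ total F (l + 1) (T.prod X)) ha ?_ ?_ ?_
        · intro i a ha
          have h5 : F.Mem i (l + 1) (C.comp a E) :=
            fil_anti (by omega) (fil_comp hF.multiplicative (l := i) ha hEF rfl)
          exact (le_iSup (fun i => F.F (T.prod X) i (l + 1)) i) h5
        · rw [zero_comp]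
          exact Submodule.zero_mem _
        · intro a b h5 h6
          rw [add_comp]
          exact Submodule.add_mem _ h5 h6
      have h5 := Submodule.sub_mem _ h3 h4
      rwa [sub_sub, ← comp_add] at h5

end Run7.h158
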