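import Pool.Agent.Run7.h158.Unc
import Pool.Agent.Run7.h158.St.Sub

/-!
# From the statements to the library
-/

open CategoryTheory AlgebraicGeometry

namespace Run7.h158

open Pool.Agent.H914 Pool.Agent.H914.VarClass Pool.Agent.H914.VarClass.Obj Pool.Agent.W492.BB
  Pool.Agent.W550.Corr Pool.Agent.TH133 Pool.Agent.TH829.Prime Pool.Agent.TH829.Kim
  Pool.Agent.Q8.HK Pool.Agent.N174.OV Pool.Agent.Y107 Pool.Agent.N174.KN

variable {𝒱 : VarClass ℂ} {C : TheoryData.{0, 0, 0} 𝒱 ℚ} {H : WeilTheoryData.{0, 0, 0} C ℂ}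
  {X Y Z W : 𝒱.Obj}

theorem chow_of (h : St.IsChowTheory C) : IsChowProj C where
  isTheory := h.isTheory
  mul_comm := h.mul_comm
  exists_deg_one X := by
    obtain ⟨a, ha, hd⟩ := h.point X
    refine ⟨a, ha, fun Z => ?_, fun Z => ?_⟩
    · have := (hd Z).2
      rwa [St.const, one_smul] at this
    · have := (hd Z).1
      rwa [St.const, one_smul] at this
  push_one f g h1 h2 := by
    have := h.iso f g h1 h2
    rwa [St.const, St.const, one_smul, one_smul] at this
  gr_zero X x hx := h.gr_zero X x hx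
  gr_top X i x hx hi := h.gr_top X i x hx hi
  degree X x hx := h.degree X x hx
  polarized X := h.polarized X

theorem weil_of (h : St.IsWeilTheory H) : IsWeilProj H where
  isTheory := h.isTheory
  isOriented := ⟨fun f a => h.tr_push f a, fun a ha => h.nondeg a ha⟩
  kunnethFormula := by
    intro X Y i c hc
    obtain ⟨m, l, a, b, hab, rfl⟩ := h.kunneth X Y i c hc
    refine Submodule.sum_mem _ fun j _ => Submodule.subset_span ?_
    exact ⟨l j, a j, b j, (hab j).1, (hab j).2, rfl⟩
  isClassMap := ⟨fun {X i z} hz => h.cl_mem i z hz, fun f z => h.cl_pull f z,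
    fun f z => h.cl_push f z, fun z a => h.cl_central z a⟩
  gr_zero X a ha := h.gr_zero X a ha
  one_ne_zero X := by
    have := h.one_ne_zero X
    rwa [St.const, one_smul] at this
  tr_eq_zero X i a ha hi := h.tr_eq_zero X i a ha hi

section basic

variable {F : Type} [Field F] (T : TheoryData.{0, 0, 0} 𝒱 F)

lemma st_one (X : 𝒱.Obj) : St.const T X 1 = 1 := one_smul _ _

lemma st_dgOf (D : T.A X) : St.dgOf T D = T.mulCorr D := rfl

lemma st_dg (X : 𝒱.Obj) : St.dg T X = T.graph (𝟙 X) := by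
  rw [St.dg, st_one]
  rfl

lemma st_comp (Γ : T.A (X.prod Y)) (Δ : T.A (Y.prod Z)) : St.comp T Γ Δ = T.comp Γ Δ := rfl

lemma st_tens (Γ : T.A (X.prod Y)) (Δ : T.A (Z.prod W)) : St.tens T Γ Δ = tens T Γ Δ := rfl

lemma st_tp (Γ : T.A (X.prod Y)) : St.tp T Γ = tp T Γ := rfl

end basic

lemma st_dgC (X : 𝒱.Obj) : St.dg C X = dg C X := st_dg C X

lemma st_smallDiag (X : 𝒱.Obj) : St.smallDiag C X = smallDiag C X := by
  rw [St.smallDiag, st_one]
  rfl

section generic

variable {A V : Type} [Ring A] [Algebra ℂ A] [AddCommGroup V] [Module ℂ V]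

lemma expo_eq {n : ℕ} {f : A → A} {F : Module.End ℂ A} (h : ∀ z, f z = F z) (x : A) :
    St.expo n f x = ex ℂ (2 * n + 1) F x := by
  have hf : f = F := funext h
  subst hf
  rw [St.expo, Pool.Agent.Q8.HK.ex, LinearMap.sum_apply]
  refine Finset.sum_congr rfl fun k _ => ?_
  rw [LinearMap.smul_apply, Module.End.pow_apply]

end generic

variable {n : ℕ} {V U : Type} [AddCommGroup V] [Module ℂ V] [AddCommGroup U] [Module ℂ U]

/-- The cohomology, in terms of the library. -/
noncomputable def coh_of (hH : St.IsWeilTheory H) (h : St.HyperKahler H n X V) :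
    Coh n (H.A X) V where
  m := h.coh.m
  b := h.coh.b
  d := h.coh.d
  n_pos := h.isHK.n_pos
  one_mem := (h.isHK.deg_iff 0 1).1 (hH.isTheory.isGradedRing.one_mem X)
  one_rat := by
    have h1 := h.linked.rat 1
    rw [St.cl, map_one] at h1
    exact h1
  mul_mem i j x y hx hy := by
    refine (h.isHK.deg_iff (i + j) _).1 ?_
    have h1 := hH.isTheory.isGradedRing.mul_mem ((h.isHK.deg_iff i x).2 hx)
      ((h.isHK.deg_iff j y).2 hy)
    rw [St.InDegree, Nat.cast_add]
    exact h1
  mul_rat := h.isHK.mul_rat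
  comm i j x y hx hy := h.isHK.comm i j x y ((h.isHK.deg_iff i x).2 hx)
    ((h.isHK.deg_iff j y).2 hy)
  connected x hx := hH.gr_zero X x ((h.isHK.deg_iff 0 x).2 hx)
  int := H.tr X
  int_grade k hk x hx := by
    refine hH.tr_eq_zero X k x ((h.isHK.deg_iff k x).2 hx) ?_
    rw [h.dim_eq]
    intro h1
    apply hk
    have h2 : (k : ℤ) = ((4 * n : ℕ) : ℤ) := by
      rw [h1]
      push_cast
      ring
    exact_mod_cast h2
  int_rat := h.isHK.int_rat
  duality x hx := hH.nondeg x hx
  i := h.coh.i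
  i_inj := h.isHK.i_inj
  i_range x := ((h.isHK.deg_iff 2 x).symm).trans (h.isHK.i_range x)
  q := h.coh.q
  q_symm := h.isHK.q_symm
  q_nondeg := h.isHK.q_nondeg
  q_rat := h.isHK.q_rat
  c := h.coh.c
  c_ne := h.isHK.c_ne
  fujiki := h.isHK.fujiki
  rho := h.coh.rho
  rho_lie a a' ha ha' := LinearMap.ext fun x => h.isHK.rho_lie a a' ha ha' x
  rho_E x y := h.isHK.rho_e (E h.coh.q x) x (fun _ _ _ => rfl) y
  rho_H k x hx := h.isHK.rho_h (Pool.Agent.Q8.HK.H ℂ V) (fun _ _ _ => rfl) k x
    ((h.isHK.deg_iff k x).2 hx)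
  rho_S t ht x y := h.isHK.rho_s (S t) (skew_S ht) t (fun _ _ _ => rfl) x y
  rho_rat v x hv hx := h.isHK.rho_rat (Pool.Agent.Q8.HK.F h.coh.q v) v (fun _ _ _ => rfl) hv x hx
  s := h.coh.s
  s' := h.coh.s'
  s_iso := h.isHK.s_s
  s'_iso := h.isHK.s'_s'
  s_s' := h.isHK.s_s'
  l := h.coh.l
  l_rat := h.isHK.l_rat
  l_s := h.isHK.l_s
  l_s' := h.isHK.l_s'
  l_l := h.isHK.l_l
  index := h.isHK.index

lemma coh_eta (hH : St.IsWeilTheory H) (h : St.HyperKahler H n X V) (x : H.A X) :
    (coh_of hH h).eta x = h.coh.eta x := by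
  rw [Coh.eta, LinearMap.smul_apply]
  have h1 := h.isHK.rho_eta (S ((h.coh.q h.coh.s').smulRight h.coh.s -
    (h.coh.q h.coh.s).smulRight h.coh.s')) (fun _ _ _ => rfl) x
  have h2 : (coh_of hH h).rho (S (((coh_of hH h).q (coh_of hH h).s').smulRight (coh_of hH h).s -
    ((coh_of hH h).q (coh_of hH h).s).smulRight (coh_of hH h).s')) x =
      (h.coh.q h.coh.s h.coh.s' / 2) • h.coh.eta x := h1
  rw [h2, smul_smul]
  have h3 : (coh_of hH h).tau = h.coh.q h.coh.s h.coh.s' := rfl
  have h4 := h.isHK.s_s'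
  rw [h3, div_mul_div_comm, mul_comm, div_self (mul_ne_zero h4 two_ne_zero), one_smul]

lemma coh_f (hH : St.IsWeilTheory H) (h : St.HyperKahler H n X V) (x : H.A X) :
    (coh_of hH h).fS x = h.coh.f x := by
  have h4 := h.isHK.s_s'
  refine h.isHK.rho_f (Pool.Agent.Q8.HK.F h.coh.q
    ((2 * h.coh.q h.coh.s h.coh.s')⁻¹ • h.coh.s')) (fun r v t => ?_) x
  rw [F_apply]
  refine Prod.ext ?_ (Prod.ext ?_ rfl)
  · simp only [map_smul, LinearMap.smul_apply, smul_eq_mul]
    field_simp
  · simp only [smul_smul]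
    congr 1
    field_simp

lemma coh_poly (hH : St.IsWeilTheory H) (h : St.HyperKahler H n X V) (y x : H.A X) :
    (coh_of hH h).poly y x = h.coh.poly n y x := by
  have he : ∀ z, h.coh.i h.coh.s * z = (coh_of hH h).eS z := fun z =>
    ((coh_of hH h).rho_E h.coh.s z).symm
  have hf : ∀ z, h.coh.f z = (coh_of hH h).fS z := fun z => (coh_f hH h z).symm
  have he' : ∀ z, -(h.coh.i h.coh.s * z) = (-(coh_of hH h).eS) z := fun z => by
    rw [he, LinearMap.neg_apply]
  have hf' : ∀ z, -(h.coh.f z) = (-(coh_of hH h).fS) z := fun z => by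
    rw [hf, LinearMap.neg_apply]
  rw [St.Coh.poly, expo_eq he, expo_eq hf', expo_eq he, expo_eq he', expo_eq hf, expo_eq he']
  rfl

lemma coh_mukai (hH : St.IsWeilTheory H) (h : St.HyperKahler H n X V) (x y : H.A X) :
    (coh_of hH h).mukai x y = h.coh.mukai (St.tr H) x y := by
  have h1 : (coh_of hH h).dual x = ∑ j, (h.coh.b.repr x j) • ((Complex.I ^ (h.coh.d j)) •
      h.coh.b j) := by
    have h2 := h.coh.b.constr_apply_fintype ℂ (fun j => (Complex.I ^ (h.coh.d j)) • h.coh.b j) x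
    exact h2
  rw [Coh.mukai, h1, St.Coh.mukai, Finset.sum_mul, map_sum]
  refine Finset.sum_congr rfl fun j _ => ?_
  rw [smul_mul_assoc, smul_mul_assoc, map_smul, map_smul, smul_eq_mul, smul_eq_mul, ← mul_assoc]
  rfl

/-- The hyper-Kähler variety, in terms of the library. -/
noncomputable def hk_of (hH : St.IsWeilTheory H) (h : St.HyperKahler H n X V) :
    HyperKahler H n X V where
  toCoh := coh_of hH h
  dim_eq := h.dim_eq
  grade_iff k x := (h.isHK.deg_iff k x).symm
  int_eq _ := rfl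
  cl_rat z := h.linked.rat z
  lefschetz x hx := h.linked.lefschetz x hx.1 hx.2.1 hx.2.2

variable {hX : St.HyperKahler H n X V} {hY : St.HyperKahler H n Y U}

/-- The derived equivalence, in terms of the library. -/
noncomputable def de_of (hH : St.IsWeilTheory H) (D : St.DerivedEquivalence H hX hY) :
    DerivedEquivalence (hk_of hH hX) (hk_of hH hY) where
  v := D.v
  w := D.w
  left := by rw [← st_comp, D.left, st_dgC]
  right := by rw [← st_comp, D.right, st_dgC]
  rat := D.derived.rat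
  hodge x := by
    have h1 := D.derived.hodge x
    rw [← coh_eta hH, ← coh_eta hH] at h1
    exact h1
  poly y := by
    obtain ⟨y', hy'⟩ := D.derived.poly y
    refine ⟨y', fun x => ?_⟩
    have h1 := hy' x
    rw [← coh_poly hH, ← coh_poly hH] at h1
    exact h1
  isometry x y := by
    have h1 := D.derived.isometry x y
    rw [← coh_mukai hH, ← coh_mukai hH] at h1
    exact h1

/-- The isomorphism of Hodge structures. -/
theorem hodgeIso_of (hH : St.IsWeilTheory H) {G : H.A X ≃ₐ[ℂ] H.A Y}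
    (hdeg : ∀ (k : ℕ) (a : H.A X), H.Deg k a ↔ H.Deg k (G a))
    (hrat : ∀ a, IsRat (hk_of hH hX).b a ↔ IsRat (hk_of hH hY).b (G a))
    (heta : ∀ a, G ((hk_of hH hX).eta a) = (hk_of hH hY).eta (G a)) :
    St.RespectsHodge H hX hY G where
  bijective := G.bijective
  add := map_add G
  smul c x := map_smul G c x
  one := map_one G
  mul := map_mul G
  deg := hdeg
  rat := hrat
  hodge x := by
    have h1 := heta x
    change G ((coh_of hH hX).eta x) = (coh_of hH hY).eta (G x) at h1
    rw [coh_eta, coh_eta] at h1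
    exact h1

end Run7.h158
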