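import Pool.Agent.Run7.h158.Bridge
import Pool.Agent.Run7.h158.St.Fil
import Pool.Agent.Run7.h158.St.Nil

/-!
# From the statements to the library: subspaces, filtrations, nilpotence
-/

open CategoryTheory AlgebraicGeometry

namespace Run7.h158

open Pool.Agent.H914 Pool.Agent.H914.VarClass Pool.Agent.H914.VarClass.Obj Pool.Agent.W492.BB
  Pool.Agent.W550.Corr Pool.Agent.TH133 Pool.Agent.TH829.Prime Pool.Agent.TH829.Kim
  Pool.Agent.Q8.HK Pool.Agent.N174.OV Pool.Agent.Y107 Pool.Agent.N174.KN

variable {𝒱 : VarClass ℂ} {C : TheoryData.{0, 0, 0} 𝒱 ℚ} {H : WeilTheoryData.{0, 0, 0} C ℂ}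
  {X Y Z W : 𝒱.Obj}

/-- The subspace given by a predicate. -/
def subOf {R : C.A X → Prop} (h : St.IsGradedSubspace C R) : Submodule ℚ (C.A X) where
  carrier := {x | R x}
  add_mem' := fun {a b} ha hb => h.add a b ha hb
  zero_mem' := h.zero
  smul_mem' := fun q a ha => h.smul q a ha

lemma mem_subOf {R : C.A X → Prop} (h : St.IsGradedSubspace C R) {x : C.A X} :
    x ∈ subOf h ↔ R x := Iff.rfl

lemma subOf_graded {R : C.A X → Prop} (h : St.IsGradedSubspace C R) :
    subOf h ≤ ⨆ i, subOf h ⊓ C.gr X i := by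
  intro x hx
  obtain ⟨m, e, f, hf, rfl⟩ := h.graded x hx
  refine Submodule.sum_mem _ fun j _ => ?_
  exact (le_iSup (fun i => subOf h ⊓ C.gr X i) (e j)) ⟨(hf j).2, (hf j).1⟩

lemma faithful_of {R : C.A X → Prop} (h : St.IsFaithful C R) : IsFaithful C (subOf h.graded) where
  graded := subOf_graded h.graded
  faithful x hx hn := h.faithful x hx hn

lemma matches_of {G : H.A X ≃ₐ[ℂ] H.A Y} {R : C.A X → Prop} {R' : C.A Y → Prop}
    (h : St.IsGradedSubspace C R) (h' : St.IsGradedSubspace C R') (hm : St.Matches H G R R') :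
    Matches H G (subOf h) (subOf h') where
  fwd x hx := hm.fwd x hx
  bwd y hy := hm.bwd y hy

lemma restrictsTo_st {R : C.A X → Prop} {R' : C.A Y → Prop} {h : St.IsGradedSubspace C R}
    {h' : St.IsGradedSubspace C R'} {Z : C.A (X.prod Y)} {Z' : C.A (Y.prod X)}
    (hr : RestrictsTo C Z Z' (subOf h) (subOf h')) : St.RestrictsTo C Z Z' R R' where
  fwd := hr.fwd
  bwd := hr.bwd
  left := hr.left
  right := hr.right
  mul x y hx hy hxy hxy' := hr.mul x hx y hy hxy hxy'

lemma induces_st {G : H.A X ≃ₐ[ℂ] H.A Y} {Z : C.A (X.prod Y)} (h : Induces H G Z) :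
    St.Induces H G Z := ⟨h.deg, h.act⟩

lemma inducesInverse_st {G : H.A X ≃ₐ[ℂ] H.A Y} {Z' : C.A (Y.prod X)}
    (h : Induces H G.symm Z') : St.InducesInverse H G Z' :=
  ⟨h.deg, fun a => (h.act (G a)).trans (AlgEquiv.symm_apply_apply G a)⟩

lemma compatible_of {F : Filtration C} (h : St.IsCompatible H F) : IsCompatible H F where
  zero := h.zero
  one := h.one
  multiplicative := h.multiplicative

/-- The filtration by the powers of the homologically trivial cycles is compatible. -/
theorem isCompatible_homPowers_st (hC : St.IsChowTheory C) (hH : St.IsWeilTheory H) :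
    haveI := chow_of hC
    St.IsCompatible H (homPowers H) := by
  haveI := chow_of hC
  haveI := weil_of hH
  have h := isCompatible_homPowers (H := H)
  exact ⟨h.zero, h.one, h.multiplicative⟩

lemma inducesGrHom_st {F : Filtration C} {Γ : C.A (X.prod Y)} (h : InducesGrHom F Γ) :
    St.InducesGrHom F Γ where
  map := h.map
  one T := by
    rw [st_one, st_one]
    exact h.one T
  mul := h.mul

lemma sameGr_st {F : Filtration C} {s Γ : C.A (X.prod Y)} (h : SameGr F s Γ) :
    St.SameGr F s Γ where
  map := h.map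
  same := h.same

lemma isGrIso_st {F : Filtration C} {k : ℕ} {Z s : C.A (X.prod Y)} {Z' s' : C.A (Y.prod X)}
    (h : IsGrIso F k Z s Z' s') : St.IsGrIso F k Z s Z' s' where
  hom := inducesGrHom_st h.hom
  hom' := inducesGrHom_st h.hom'
  left := h.left
  right := h.right
  same := sameGr_st h.same
  same' := sameGr_st h.same'

lemma homNil_of [IsChowProj C] (h : St.HomNil H X) : HomNil H X := by
  intro z hz
  obtain ⟨k, hk⟩ := h z hz (fun k => ((toCor z) ^ k : Cor C X)) (by rw [st_dgC]; exact pow_zero (toCor z))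
    (fun k => pow_succ' (toCor z) k)
  exact ⟨k, hk⟩

/-- Kimura-finiteness implies the nilpotence in the statement. -/
theorem homNil_st [IsChowProj C] [IsWeilProj H] (h : IsKimuraFinite C (ratFam C) X) :
    St.HomNil H X := by
  intro z hz p h0 hp
  obtain ⟨k, hk⟩ := homNil_of_kimura (H := H) h z hz
  have key : ∀ k, p k = ((toCor z) ^ k : Cor C X) := by
    intro k
    induction k with
    | zero =>
      rw [h0, st_dgC]
      exact (pow_zero (toCor z)).symm
    | succ k ih =>
      rw [hp, ih]
      exact (pow_succ' (toCor z) k).symm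
  exact ⟨k, (key k).trans hk⟩

lemma similitude_st {G : H.A X ≃ₐ[ℂ] H.A Y} {d : ℚ} {Z : C.A (X.prod Y)}
    (h : IsSimilitude H G d Z) : St.IsSimilitude H G d Z where
  induces := induces_st h.induces
  left := by
    rw [st_dgC]
    exact h.left
  right := by
    rw [st_dgC]
    exact h.right

lemma respectsCupHom_st {Z : C.A (X.prod Y)} (h : RespectsCupHom H Z) :
    St.RespectsCupHom H Z := by
  rw [RespectsCupHom, map_sub, sub_eq_zero] at h
  rw [St.RespectsCupHom, st_smallDiag, st_smallDiag]
  exact h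

end Run7.h158
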