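import Pool.Agent.Run7.h158.Hom

/-!
# Systems of good correspondences
-/

open CategoryTheory AlgebraicGeometry

namespace Run7.h158

open Pool.Agent.H914 Pool.Agent.H914.VarClass Pool.Agent.H914.VarClass.Obj Pool.Agent.W492.BB
  Pool.Agent.W550.Corr Pool.Agent.TH133 Pool.Agent.TH829.Prime Pool.Agent.TH829.Kim
  Pool.Agent.Q8.HK Pool.Agent.N174.OV Pool.Agent.Y107

set_option linter.unusedSectionVars false

variable {𝒱 : VarClass ℂ} {C : TheoryData.{0, 0, 0} 𝒱 ℚ}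

/-- A system of *good* correspondences: graded subspaces `Q P R` of the Chow groups of the products
`P × R`, closed under compositions and external products of correspondences. -/
structure GoodSystem (C : TheoryData.{0, 0, 0} 𝒱 ℚ) where
  /-- the good correspondences from `P` to `R` -/
  Q : ∀ P R : 𝒱.Obj, Submodule ℚ (C.A (P.prod R))
  graded : ∀ P R : 𝒱.Obj, Q P R ≤ ⨆ i, Q P R ⊓ C.gr (P.prod R) i
  comp : ∀ {P R S : 𝒱.Obj} (a : C.A (P.prod R)) (b : C.A (R.prod S)), a ∈ Q P R → b ∈ Q R S →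
    C.comp a b ∈ Q P S
  tens : ∀ {P R P' R' : 𝒱.Obj} (a : C.A (P.prod R)) (b : C.A (P'.prod R')), a ∈ Q P R →
    b ∈ Q P' R' → Pool.Agent.TH133.tens C a b ∈ Q (P.prod P') (R.prod R')

/-- The diagonal and the small diagonal of `X` and the self-correspondences `x ↦ D · x`, for all
divisors `D` on `X`, are good. -/
structure GoodSystem.IsGood (𝒬 : GoodSystem C) (X : 𝒱.Obj) : Prop where
  dg : dg C X ∈ 𝒬.Q X X
  small : smallDiag C X ∈ 𝒬.Q (X.prod X) X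
  div : ∀ D : C.A X, C.Deg 1 D → C.mulCorr D ∈ 𝒬.Q X X

variable [hC : IsChowProj C] {H : WeilTheoryData.{0, 0, 0} C ℂ} [hH : IsWeilProj H]
  {X Y Z W : 𝒱.Obj} {𝒬 : GoodSystem C}

include hC

lemma vr_good {a : C.A (X.prod Y)} (ha : a ∈ 𝒬.Q X Y) (r : ℤ) : vr X Y r a ∈ 𝒬.Q X Y := by
  refine Submodule.iSup_induction (fun i => 𝒬.Q X Y ⊓ C.gr (X.prod Y) i)
    (motive := fun a => vr X Y r a ∈ 𝒬.Q X Y) (𝒬.graded X Y ha) ?_ ?_ ?_
  · rintro i a ⟨h1, h2⟩
    by_cases h : i = X.dim + r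
    · subst h
      rwa [vr_of_mem h2]
    · have h3 : a ∈ C.gr (X.prod Y) ((X.dim : ℤ) + (i - X.dim)) := by
        rwa [add_sub_cancel]
      rw [vr_of_ne h3 (by omega)]
      exact Submodule.zero_mem _
  · rw [map_zero]
    exact Submodule.zero_mem _
  · intro a b h1 h2
    rw [map_add]
    exact Submodule.add_mem _ h1 h2

/-- The ring of good self-correspondences of `X`. -/
def goodCor (𝒬 : GoodSystem C) {X : 𝒱.Obj} (hX : 𝒬.IsGood X) : Subalgebra ℚ (Cor C X) where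
  carrier := {a : Cor C X | (a : C.A (X.prod X)) ∈ 𝒬.Q X X}
  mul_mem' := fun ha hb => 𝒬.comp _ _ hb ha
  add_mem' := fun ha hb => (𝒬.Q X X).add_mem ha hb
  algebraMap_mem' := fun r => (𝒬.Q X X).smul_mem r hX.dg

lemma mem_goodCor {hX : 𝒬.IsGood X} {a : Cor C X} :
    a ∈ goodCor 𝒬 hX ↔ (a : C.A (X.prod X)) ∈ 𝒬.Q X X := Iff.rfl

lemma ex_good {hX : 𝒬.IsGood X} {a : Cor C X} (ha : a ∈ goodCor 𝒬 hX) (N : ℕ) :
    ex ℚ N a ∈ goodCor 𝒬 hX := by
  rw [Pool.Agent.Q8.HK.ex]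
  exact Subalgebra.sum_mem _ fun i _ => Subalgebra.smul_mem _ (Subalgebra.pow_mem _ ha i) _

include hH

omit hC hH in
/-- The operators induced by the units of the ring of good self-correspondences. -/
def goodUnitOps (𝒬 : GoodSystem C) (H : WeilTheoryData.{0, 0, 0} C ℂ) (X : 𝒱.Obj) :
    Set (Module.End ℂ (H.A X)) :=
  {T | ∃ g ∈ 𝒬.Q X X, ∃ g' ∈ 𝒬.Q X X, C.comp g g' = dg C X ∧ C.comp g' g = dg C X ∧
    ∀ a, H.act (H.cl g) a = T a}

lemma goodUnitOps_of_cor {hX : 𝒬.IsGood X} {a b : Cor C X} (ha : a ∈ goodCor 𝒬 hX)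
    (hb : b ∈ goodCor 𝒬 hX) (h1 : a * b = 1) (h2 : b * a = 1) :
    actH C X H a ∈ goodUnitOps 𝒬 H X :=
  ⟨a, ha, b, hb, h2, h1, fun _ => rfl⟩

lemma ex_mem_goodUnitOps {hX : 𝒬.IsGood X} {N : ℕ} {a : Cor C X} (ha : a ^ N = 0)
    (hg : a ∈ goodCor 𝒬 hX) : ex ℂ N (actH C X H a) ∈ goodUnitOps 𝒬 H X := by
  have h1 : ex ℚ N a * ex ℚ N (-a) = 1 := ex_mul_neg ha
  have h2 : ex ℚ N (-a) * ex ℚ N a = 1 := ex_neg_mul ha
  rw [← actH_ex]
  exact goodUnitOps_of_cor (ex_good hg N) (ex_good (Subalgebra.neg_mem _ hg) N) h1 h2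

section HK

variable {n : ℕ} {V U : Type} [AddCommGroup V] [Module ℂ V] [AddCommGroup U] [Module ℂ U]
  (hX : HyperKahler H n X V) (hY : HyperKahler H n Y U) (gX : 𝒬.IsGood X)

/-- The ring of operators induced by good correspondences. -/
noncomputable def goodRing (H : WeilTheoryData.{0, 0, 0} C ℂ) [IsWeilProj H]
    (gX : 𝒬.IsGood X) : Subring (Module.End ℂ (H.A X)) :=
  (goodCor 𝒬 gX).toSubring.map (actH C X H)

lemma mem_goodRing {T : Module.End ℂ (H.A X)} :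
    T ∈ goodRing H gX ↔ ∃ a : Cor C X, a ∈ goodCor 𝒬 gX ∧ actH C X H a = T := Iff.rfl

lemma goodDivRing : hX.toCoh.DivRing (goodRing H gX) where
  scalar q := ⟨q • 1, Subalgebra.smul_mem _ (Subalgebra.one_mem _) _, by
    refine LinearMap.ext fun x => ?_
    rw [LinearMap.smul_apply, Module.End.one_apply, actH_apply]
    have h := actH_smul (H := H) q (dg C X) x
    rw [actH_dg] at h
    exact h⟩
  mul x hx := by
    obtain ⟨D, hD1, hD⟩ := hX.lefschetz x hx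
    refine ⟨toCor (C.mulCorr D), gX.div D hD1, ?_⟩
    refine LinearMap.ext fun a => ?_
    rw [actH_toCor, LinearMap.mulLeft_apply, ← hD]
    exact actH_mulCorr D a

lemma goodExpSet : ExpSet hX.toCoh (goodRing H gX) (goodUnitOps 𝒬 H X) where
  mul := by
    rintro f g ⟨a, ga, a', ga', h1, h2, h5⟩ ⟨b, gb, b', gb', h3, h4, h6⟩
    refine ⟨C.comp b a, 𝒬.comp _ _ gb ga, C.comp a' b', 𝒬.comp _ _ ga' gb', ?_, ?_, fun x => ?_⟩
    · rw [comp_assoc, ← comp_assoc C a, h1, dg_comp, h3]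
    · rw [comp_assoc, ← comp_assoc C b', h4, dg_comp, h2]
    · rw [actH_comp, h6, h5, Module.End.mul_apply]
  inv := by
    rintro f g ⟨a, ga, a', ga', h1, h2, h5⟩ h3 h4
    refine ⟨a', ga', a, ga, h2, h1, fun x => ?_⟩
    have h6 : x = f (g x) := by
      rw [← Module.End.mul_apply, h3, Module.End.one_apply]
    conv_lhs => rw [h6, ← h5]
    rw [← actH_comp, h1, actH_dg]
  expE x hx := by
    obtain ⟨D, hD1, hD⟩ := hX.lefschetz x hx
    have h1 : actH C X H (toCor (C.mulCorr D)) = hX.rho (E hX.q x) := by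
      refine LinearMap.ext fun a => ?_
      rw [hX.rho_E, actH_toCor, ← hD]
      exact actH_mulCorr D a
    have hm : toCor (C.mulCorr D) ∈ crg C X 1 := by
      have h := C.push_mem (Obj.lift (𝟙 X) (𝟙 X)) hD1
      have e1 : (1 : ℤ) + 1 * (((X.prod X).dim : ℤ) - (X.dim : ℤ)) = X.dim + 1 := by
        rw [dim_prod]; push_cast; ring
      rw [e1] at h
      exact h
    have hp : toCor (C.mulCorr D) ^ (2 * n + 1) = 0 := by
      have := crg_pow_zero hm (Or.inl rfl)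
      rwa [hX.dim_eq] at this
    have h2 := ex_mem_goodUnitOps (H := H) (hX := gX) hp (gX.div D hD1)
    rw [h1] at h2
    exact h2
  expF x hx hF := by
    obtain ⟨γ, gγ, hγ⟩ := hF
    have hdeg := hX.toCoh.degF x
    have h1 : ∀ a, H.act (H.cl (X := X.prod X) (vr X X (-1) γ)) a = hX.rho (F hX.q x) a := by
      intro a
      have h := act_vr (H := H) (γ := (γ : C.A (X.prod X))) (f := hX.rho (F hX.q x)) (e := -1)
        (fun a => by rw [← hγ]; rfl)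
        (fun i a ha => degOp_mem hX (e := -1) (by norm_num; exact hdeg) i ha) (-1) a
      rwa [if_pos rfl] at h
    have h1' : actH C X H (toCor (vr X X (-1) γ)) = hX.rho (F hX.q x) := LinearMap.ext h1
    have hm : toCor (vr X X (-1) γ) ∈ crg C X (-1) := vr_mem (-1) (γ : C.A (X.prod X))
    have hp : toCor (vr X X (-1) γ) ^ (2 * n + 1) = 0 := by
      have := crg_pow_zero hm (Or.inr rfl)
      rwa [hX.dim_eq] at this
    have hg : toCor (vr X X (-1) γ) ∈ goodCor 𝒬 gX :=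
      vr_good (a := (γ : C.A (X.prod X))) gγ (-1)
    have h2 := ex_mem_goodUnitOps (H := H) (hX := gX) hp hg
    rw [h1'] at h2
    exact h2

variable {hX hY}

/-- **Exact lifts in a good system.** -/
theorem goodCore (D : DerivedEquivalence hX hY) (gX : 𝒬.IsGood X) (gY : 𝒬.IsGood Y)
    (hv : D.v ∈ 𝒬.Q X Y) (hw : D.w ∈ 𝒬.Q Y X) :
    ∃ (G : H.A X ≃ₐ[ℂ] H.A Y) (c : ℚ) (s : C.A (X.prod Y)) (s' : C.A (Y.prod X)),
      Lift H G c s s' ∧ s ∈ 𝒬.Q X Y ∧ s' ∈ 𝒬.Q Y X := by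
  have hPhi : ∀ x, D.toDerEq.Φ x = H.act (H.cl D.v) x := fun x => rfl
  have hPhi' : ∀ x, D.toDerEq.Φ.symm x = H.act (H.cl D.w) x := fun x => rfl
  obtain ⟨G, c, T, T', hc, ⟨q, hq⟩, ⟨g, gg, g', gg', e1, e2, hg⟩, hT, hT', hG, hgr, hrat, hH,
      hm⟩ :=
    freeS D.toDerEq (goodDivRing hX gX) (goodExpSet hX gX) (fun y hy => by
      obtain ⟨D', hD1, hD'⟩ := hY.lefschetz y hy
      refine ⟨toCor (C.comp (C.comp D.v (C.mulCorr D')) D.w),
        𝒬.comp _ _ (𝒬.comp _ _ hv (gY.div D' hD1)) hw, ?_⟩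
      refine LinearMap.ext fun a => ?_
      rw [actH_toCor, actH_comp, actH_comp, actH_mulCorr, hD', cj_apply, ← hPhi']
      rfl)
  have hq0 : q ≠ 0 := by
    rintro rfl
    apply hc
    rw [hq]
    simp
  have hqc : (q : ℂ) ≠ 0 := by exact_mod_cast hq0
  have hs1 : ∀ (a : ℚ) (Γ : C.A (X.prod Y)) (Δ : C.A (Y.prod X)), C.comp (a • Γ) Δ =
      a • C.comp Γ Δ := fun a Γ Δ => LinearMap.map_smul₂ (compL C) a Γ Δ
  have hs2 : ∀ (a : ℚ) (Γ : C.A (X.prod Y)) (Δ : C.A (Y.prod X)), C.comp Γ (a • Δ) =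
      a • C.comp Γ Δ := fun a Γ Δ => map_smul (compL C Γ) a Δ
  have hs3 : ∀ (a : ℚ) (Γ : C.A (Y.prod X)) (Δ : C.A (X.prod Y)), C.comp (a • Γ) Δ =
      a • C.comp Γ Δ := fun a Γ Δ => LinearMap.map_smul₂ (compL C) a Γ Δ
  have hs4 : ∀ (a : ℚ) (Γ : C.A (Y.prod X)) (Δ : C.A (X.prod Y)), C.comp Γ (a • Δ) =
      a • C.comp Γ Δ := fun a Γ Δ => map_smul (compL C Γ) a Δ
  refine ⟨G, q⁻¹, q⁻¹ • C.comp g D.v, q • C.comp D.w g', ⟨inv_ne_zero hq0, ?_, ?_, ?_, ?_, ?_⟩,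
    Submodule.smul_mem _ _ (𝒬.comp _ _ gg hv), Submodule.smul_mem _ _ (𝒬.comp _ _ hw gg')⟩
  · rw [hs1, hs2, smul_smul, inv_mul_cancel₀ hq0, one_smul, comp_assoc C g, ← comp_assoc C D.v,
      D.left, dg_comp, e1]
  · rw [hs3, hs4, smul_smul, mul_inv_cancel₀ hq0, one_smul, comp_assoc C D.w, ← comp_assoc C g',
      e2, dg_comp, D.right]
  · intro x
    rw [actH_smul, actH_comp, ← hPhi, hg]
    have h3 := hG x
    rw [hq] at h3
    rw [← h3, smul_smul]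
    push_cast
    rw [inv_mul_cancel₀ hqc, one_smul]
  · intro k x
    have h3 := hgr k x
    rw [hX.grade_iff, hY.grade_iff] at h3
    exact h3
  · intro x
    rw [← hX.int_eq, ← hY.int_eq, hm D.isometry, hq]
    push_cast
    rw [inv_pow]

/-- **Good systems with an injectivity property.** -/
theorem good_multiplicativeIso (D : DerivedEquivalence hX hY) (gX : 𝒬.IsGood X)
    (gY : 𝒬.IsGood Y) (hv : D.v ∈ 𝒬.Q X Y) (hw : D.w ∈ 𝒬.Q Y X)
    (iX : ∀ z ∈ 𝒬.Q X X, H.cl z = 0 → z = 0)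
    (iXX : ∀ z ∈ 𝒬.Q (X.prod X) X, C.Deg (2 * X.dim) z → H.cl z = 0 → z = 0) :
    ∃ Z ∈ 𝒬.Q X Y, ∃ Z' ∈ 𝒬.Q Y X, IsChowInverse C Z Z' ∧ RespectsCup C Z := by
  obtain ⟨G, c, s, s', h, gs, gs'⟩ := goodCore D gX gY hv hw
  have gZ : vr X Y 0 s ∈ 𝒬.Q X Y := vr_good gs 0
  have gZ' : vr Y X 0 s' ∈ 𝒬.Q Y X := vr_good gs' 0
  have hI := h.induces
  have hI' := h.symm.induces
  have hm : ∀ {P R S : 𝒱.Obj} {a : C.A (P.prod R)} {b : C.A (R.prod S)},
      a ∈ C.gr (P.prod R) P.dim → b ∈ C.gr (R.prod S) R.dim →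
      C.comp a b ∈ C.gr (P.prod S) P.dim := by
    intro P R S a b ha hb
    have := comp_mem C (e := 0) (e' := 0) (by rwa [add_zero]) (by rwa [add_zero]) (Γ := a)
      (Δ := b)
    rwa [add_zero, add_zero] at this
  -- injectivity on `Y × Y`, by transport
  have iY : ∀ z ∈ 𝒬.Q Y Y, H.cl z = 0 → z = 0 := by
    intro z hz hz0
    have h1 : C.comp (C.comp s z) s' = 0 := by
      refine iX _ (𝒬.comp _ _ (𝒬.comp _ _ gs hz) gs') ?_
      rw [cl_comp, cl_comp, hz0, comp_zero, zero_comp]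
    have h2 : z = C.comp (C.comp s' (C.comp (C.comp s z) s')) s := by
      rw [comp_assoc C s z, ← comp_assoc C s' s, h.right, dg_comp, comp_assoc C z, h.right,
        comp_dg]
    rw [h2, h1, comp_zero, zero_comp]
  have hl : C.comp (vr X Y 0 s) (vr Y X 0 s') = dg C X := by
    rw [← sub_eq_zero]
    refine iX _ (Submodule.sub_mem _ (𝒬.comp _ _ gZ gZ') gX.dg) ?_
    rw [map_sub, hI.comp_hom hI', sub_self]
  have hr : C.comp (vr Y X 0 s') (vr X Y 0 s) = dg C Y := by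
    rw [← sub_eq_zero]
    refine iY _ (Submodule.sub_mem _ (𝒬.comp _ _ gZ' gZ) gY.dg) ?_
    rw [map_sub, hI'.comp_hom (G := G.symm) hI, sub_self]
  refine ⟨_, gZ, _, gZ', ⟨hI.deg, hI'.deg, hl, hr⟩, ?_⟩
  have e1 : smallDiag C X ∈ C.gr ((X.prod X).prod X) (X.prod X).dim := by
    have := smallDiag_mem (C := C) X
    rwa [show (2 * (X.dim : ℤ)) = ((X.prod X).dim : ℤ) by rw [dim_prod]; push_cast; ring] at this
  have e2 : smallDiag C Y ∈ C.gr ((Y.prod Y).prod Y) (Y.prod Y).dim := by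
    have := smallDiag_mem (C := C) Y
    rwa [show (2 * (Y.dim : ℤ)) = ((Y.prod Y).dim : ℤ) by rw [dim_prod]; push_cast; ring] at this
  have e3 : Pool.Agent.TH133.tens C (vr X Y 0 s) (vr X Y 0 s) ∈
      C.gr ((X.prod X).prod (Y.prod Y)) (X.prod X).dim := by
    have := tens_mem C hI.deg hI.deg
    rwa [show (X.dim : ℤ) + X.dim = ((X.prod X).dim : ℤ) by rw [dim_prod]; push_cast; ring]
      at this
  have e4 : ((X.prod X).dim : ℤ) = 2 * X.dim := by rw [dim_prod]; push_cast; ring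
  -- the defect of multiplicativity
  set η : C.A ((X.prod X).prod Y) := C.comp (smallDiag C X) (vr X Y 0 s) -
    C.comp (Pool.Agent.TH133.tens C (vr X Y 0 s) (vr X Y 0 s)) (smallDiag C Y) with hη
  have hη1 : η ∈ 𝒬.Q (X.prod X) Y := Submodule.sub_mem _ (𝒬.comp _ _ gX.small gZ)
    (𝒬.comp _ _ (𝒬.tens _ _ gZ gZ) gY.small)
  have hη2 : η ∈ C.gr ((X.prod X).prod Y) (X.prod X).dim :=
    Submodule.sub_mem _ (hm e1 hI.deg) (hm e3 e2)
  have hη3 : C.comp η (vr Y X 0 s') = 0 := by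
    refine iXX _ (𝒬.comp _ _ hη1 gZ') ?_ ?_
    · have h1 := hm hη2 hI'.deg
      rwa [e4] at h1
    · have h1 : H.cl η = 0 := hI.respectsCupHom
      rw [cl_comp, h1, zero_comp]
  have hη4 : η = 0 := by
    rw [← comp_dg C η, ← hr, ← comp_assoc, hη3, zero_comp]
  rw [RespectsCup, ← sub_eq_zero]
  exact hη4

end HK

end Run7.h158
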