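import Pool.Agent.Run7.h158.Hom

/-!
# Multiplicative distinguished markings
-/

open CategoryTheory AlgebraicGeometry

namespace Run7.h158

open Pool.Agent.H914 Pool.Agent.H914.VarClass Pool.Agent.H914.VarClass.Obj Pool.Agent.W492.BB
  Pool.Agent.W550.Corr Pool.Agent.TH133 Pool.Agent.TH829.Prime Pool.Agent.TH829.Kim
  Pool.Agent.Q8.HK Pool.Agent.N174.OV Pool.Agent.Y107 Pool.Agent.N174.KN

set_option linter.unusedSectionVars false

variable {𝒱 : VarClass ℂ} {C : TheoryData.{0, 0, 0} 𝒱 ℚ}

/-- A system of distinguished cycles. For some varieties `P` there are structures `p : S P` (for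
example, of an abelian variety with origin), with products, and for every such structure there is a
subspace `D p` of the Chow group of `P`, of the *distinguished* cycles, such that

* the distinguished cycles on the products `P × Q` are closed under composition and external
  products of correspondences,
* every cycle is homologically equivalent to one and only one distinguished cycle, which is
  homogeneous of codimension `i` if the cycle is.

The symmetrically distinguished cycles on abelian varieties (O'Sullivan) are such a system. -/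
structure DistinguishedSystem (H : WeilTheoryData.{0, 0, 0} C ℂ) where
  /-- the structures on the variety `P` -/
  S : 𝒱.Obj → Type
  /-- the product of structures -/
  prod : ∀ {P Q : 𝒱.Obj}, S P → S Q → S (P.prod Q)
  /-- the distinguished cycles -/
  D : ∀ {P : 𝒱.Obj}, S P → Submodule ℚ (C.A P)
  comp : ∀ {P Q R : 𝒱.Obj} (p : S P) (q : S Q) (r : S R) (a : C.A (P.prod Q))
    (b : C.A (Q.prod R)), a ∈ D (prod p q) → b ∈ D (prod q r) → C.comp a b ∈ D (prod p r)
  tens : ∀ {P Q P' Q' : 𝒱.Obj} (p : S P) (q : S Q) (p' : S P') (q' : S Q') (a : C.A (P.prod Q))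
    (b : C.A (P'.prod Q')), a ∈ D (prod p q) → b ∈ D (prod p' q') →
      Pool.Agent.TH133.tens C a b ∈ D (prod (prod p p') (prod q q'))
  unique : ∀ {P : 𝒱.Obj} (p : S P) (z : C.A P), z ∈ D p → H.cl z = 0 → z = 0
  exist : ∀ {P : 𝒱.Obj} (p : S P) (i : ℤ) (z : C.A P), C.Deg i z →
    ∃ z' ∈ D p, C.Deg i z' ∧ H.cl z' = H.cl z

/-- The variety `X` has a multiplicative marking: its Chow motive is presented as a direct factor of
a sum of Tate twists of motives of varieties `P_1, …, P_m` with structures, by correspondences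
`a_i` from `X` to `P_i` and `b_i` from `P_i` to `X` with `∑ b_i ∘ a_i = [Δ_X]`, such that

* the correspondences `a_j ∘ b_i` from `P_i` to `P_j` are distinguished: the direct factor is defined
  by a distinguished projector (this is the condition (⋆) of Fu and Vial),
* the small diagonal of `X` is distinguished with respect to the marking: the correspondences
  `a_k ∘ [δ_X] ∘ (b_i ⊗ b_j)` from `P_i × P_j` to `P_k` are distinguished (the condition
  (⋆_Mult)). -/
def HasMultiplicativeMarking {H : WeilTheoryData.{0, 0, 0} C ℂ} (𝒟 : DistinguishedSystem H)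
    (X : 𝒱.Obj) : Prop :=
  ∃ (m : ℕ) (P : Fin m → 𝒱.Obj) (p : ∀ i, 𝒟.S (P i)) (t : Fin m → ℤ)
    (a : ∀ i, C.A (X.prod (P i))) (b : ∀ i, C.A ((P i).prod X)),
    (∀ i, C.Deg ((X.dim : ℤ) + t i) (a i)) ∧ (∀ i, C.Deg (((P i).dim : ℤ) - t i) (b i)) ∧
    ∑ i, C.comp (a i) (b i) = dg C X ∧
    (∀ i j, C.comp (b i) (a j) ∈ 𝒟.D (𝒟.prod (p i) (p j))) ∧
    ∀ i j k, C.comp (C.comp (Pool.Agent.TH133.tens C (b i) (b j)) (smallDiag C X)) (a k) ∈
      𝒟.D (𝒟.prod (𝒟.prod (p i) (p j)) (p k))

variable [hC : IsChowProj C] {H : WeilTheoryData.{0, 0, 0} C ℂ} [hH : IsWeilProj H]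
  {X Y Z W : 𝒱.Obj} {𝒟 : DistinguishedSystem H}

include hC

theorem tens_sum_sum {P Q P' Q' : 𝒱.Obj} {ι κ : Type} (s : Finset ι) (t : Finset κ)
    (f : ι → C.A (P.prod Q)) (g : κ → C.A (P'.prod Q')) :
    Pool.Agent.TH133.tens C (∑ i ∈ s, f i) (∑ j ∈ t, g j) =
      ∑ i ∈ s, ∑ j ∈ t, Pool.Agent.TH133.tens C (f i) (g j) := by
  have h1 : ∀ (x : C.A (P.prod Q)) (y : C.A (P'.prod Q')), Pool.Agent.TH133.tens C x y =
      tensL x y := fun x y => (tensL_apply x y).symm
  simp only [h1]
  rw [map_sum tensL, LinearMap.sum_apply]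
  refine Finset.sum_congr rfl fun i _ => ?_
  rw [map_sum]

/-- Transport of markings along isomorphisms respecting the cup-product. -/
theorem HasMultiplicativeMarking.transport (h : HasMultiplicativeMarking 𝒟 X)
    (hi : MultiplicativeIso C X Y) : HasMultiplicativeMarking 𝒟 Y := by
  obtain ⟨m, P, p, t, a, b, ha, hb, hab, hba, hm⟩ := h
  obtain ⟨Z, Z', hZ, hcup⟩ := hi
  have e0 : ∀ {P Q : 𝒱.Obj} (b : C.A (P.prod X)) (a : C.A (X.prod Q)),
      C.comp (C.comp b Z) (C.comp Z' a) = C.comp b a := by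
    intro P Q b a
    rw [comp_assoc, ← comp_assoc C Z Z' a, hZ.left, dg_comp]
  refine ⟨m, P, p, t, fun i => C.comp Z' (a i), fun i => C.comp (b i) Z, fun i => ?_, fun i => ?_,
    ?_, fun i j => ?_, fun i j k => ?_⟩
  · have h1 : Z' ∈ C.gr (Y.prod X) ((Y.dim : ℤ) + 0) := by
      rw [add_zero]
      exact hZ.deg'
    have := comp_mem C h1 (ha i)
    rwa [zero_add] at this
  · have h1 : Z ∈ C.gr (X.prod Y) ((X.dim : ℤ) + 0) := by
      rw [add_zero]
      exact hZ.deg
    have h2 : b i ∈ C.gr ((P i).prod X) (((P i).dim : ℤ) + -t i) := hb i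
    have := comp_mem C h2 h1
    rwa [add_zero] at this
  · have e1 : ∀ i, C.comp (C.comp Z' (a i)) (C.comp (b i) Z) =
        C.comp Z' (C.comp (C.comp (a i) (b i)) Z) := fun i => by
      simp only [comp_assoc]
    simp only [e1]
    rw [← comp_sum, ← sum_comp, hab, dg_comp, hZ.right]
  · rw [e0]
    exact hba i j
  · have e1 : Pool.Agent.TH133.tens C (C.comp (b i) Z) (C.comp (b j) Z) =
        C.comp (Pool.Agent.TH133.tens C (b i) (b j)) (Pool.Agent.TH133.tens C Z Z) :=
      (tens_comp_tens _ _ _ _).symm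
    have e2 : C.comp (C.comp (Pool.Agent.TH133.tens C (C.comp (b i) Z) (C.comp (b j) Z))
        (smallDiag C Y)) (C.comp Z' (a k)) =
        C.comp (C.comp (Pool.Agent.TH133.tens C (b i) (b j)) (smallDiag C X)) (a k) := by
      rw [e1, comp_assoc C (Pool.Agent.TH133.tens C (b i) (b j)), ← hcup,
        ← comp_assoc C (Pool.Agent.TH133.tens C (b i) (b j)) (smallDiag C X) Z, e0]
    rw [e2]
    exact hm i j k

include hH

/-- Distinguished lifts of isomorphisms of cohomology algebras. -/
theorem exists_multiplicative_lift (hX : HasMultiplicativeMarking 𝒟 X)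
    (hY : HasMultiplicativeMarking 𝒟 Y) {G : H.A X ≃ₐ[ℂ] H.A Y} {Z0 : C.A (X.prod Y)}
    {Z0' : C.A (Y.prod X)} (hZ : Induces H G Z0) (hZ' : Induces H G.symm Z0') :
    ∃ (Z : C.A (X.prod Y)) (Z' : C.A (Y.prod X)), IsChowInverse C Z Z' ∧ RespectsCup C Z ∧
      Induces H G Z ∧ Induces H G.symm Z' := by
  obtain ⟨m, P, p, t, a, b, ha, hb, hab, hba, hm⟩ := hX
  obtain ⟨m', P', p', t', a', b', ha', hb', hab', hba', hm'⟩ := hY
  have hZ0 : Z0 ∈ C.gr (X.prod Y) ((X.dim : ℤ) + 0) := by
    rw [add_zero]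
    exact hZ.deg
  have hZ0' : Z0' ∈ C.gr (Y.prod X) ((Y.dim : ℤ) + 0) := by
    rw [add_zero]
    exact hZ'.deg
  have hbm : ∀ i, b i ∈ C.gr ((P i).prod X) (((P i).dim : ℤ) + -t i) := hb
  have hbm' : ∀ i, b' i ∈ C.gr ((P' i).prod Y) (((P' i).dim : ℤ) + -t' i) := hb'
  -- distinguished representatives
  have hz : ∀ i j, ∃ z ∈ 𝒟.D (𝒟.prod (p i) (p' j)),
      C.Deg (((P i).dim : ℤ) + (-t i + 0 + t' j)) z ∧
      H.cl z = H.cl (C.comp (C.comp (b i) Z0) (a' j)) := fun i j =>
    𝒟.exist _ _ _ (comp_mem C (comp_mem C (hbm i) hZ0) (ha' j))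
  have hz' : ∀ j i, ∃ z ∈ 𝒟.D (𝒟.prod (p' j) (p i)),
      C.Deg (((P' j).dim : ℤ) + (-t' j + 0 + t i)) z ∧
      H.cl z = H.cl (C.comp (C.comp (b' j) Z0') (a i)) := fun j i =>
    𝒟.exist _ _ _ (comp_mem C (comp_mem C (hbm' j) hZ0') (ha i))
  choose z hzD hzm hzcl using hz
  choose z' hzD' hzm' hzcl' using hz'
  set Z : C.A (X.prod Y) := ∑ i, ∑ j, C.comp (C.comp (a i) (z i j)) (b' j) with hZdef
  set Z' : C.A (Y.prod X) := ∑ j, ∑ i, C.comp (C.comp (a' j) (z' j i)) (b i) with hZdef'
  have hZm : C.Deg X.dim Z := Submodule.sum_mem _ fun i _ => Submodule.sum_mem _ fun j _ => by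
    have := comp_mem C (comp_mem C (ha i) (hzm i j)) (hbm' j)
    rwa [show (X.dim : ℤ) + (t i + (-t i + 0 + t' j) + -t' j) = X.dim by ring] at this
  have hZm' : C.Deg Y.dim Z' := Submodule.sum_mem _ fun j _ => Submodule.sum_mem _ fun i _ => by
    have := comp_mem C (comp_mem C (ha' j) (hzm' j i)) (hbm i)
    rwa [show (Y.dim : ℤ) + (t' j + (-t' j + 0 + t i) + -t i) = Y.dim by ring] at this
  -- the classes
  have hZcl : H.cl Z = H.cl Z0 := by
    have e1 : Z0 = ∑ i, ∑ j, C.comp (C.comp (a i) (C.comp (C.comp (b i) Z0) (a' j))) (b' j) := by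
      have e2 : ∀ i j, C.comp (C.comp (a i) (C.comp (C.comp (b i) Z0) (a' j))) (b' j) =
          C.comp (C.comp (C.comp (a i) (b i)) Z0) (C.comp (a' j) (b' j)) := by
        intro i j
        simp only [comp_assoc]
      simp only [e2]
      simp only [← comp_sum, ← sum_comp]
      rw [hab, hab', dg_comp, comp_dg]
    rw [e1, hZdef]
    simp only [map_sum, cl_comp, hzcl]
  have hZcl' : H.cl Z' = H.cl Z0' := by
    have e1 : Z0' = ∑ j, ∑ i, C.comp (C.comp (a' j) (C.comp (C.comp (b' j) Z0') (a i))) (b i) := by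
      have e2 : ∀ j i, C.comp (C.comp (a' j) (C.comp (C.comp (b' j) Z0') (a i))) (b i) =
          C.comp (C.comp (C.comp (a' j) (b' j)) Z0') (C.comp (a i) (b i)) := by
        intro j i
        simp only [comp_assoc]
      simp only [e2]
      simp only [← comp_sum, ← sum_comp]
      rw [hab, hab', dg_comp, comp_dg]
    rw [e1, hZdef']
    simp only [map_sum, cl_comp, hzcl']
  have hI : Induces H G Z := ⟨hZm, fun x => by rw [hZcl, hZ.act]⟩
  have hI' : Induces H G.symm Z' := ⟨hZm', fun x => by rw [hZcl', hZ'.act]⟩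
  -- distinguished cycles with the same class are equal
  have huniq : ∀ {P : 𝒱.Obj} (p : 𝒟.S P) (u v : C.A P), u ∈ 𝒟.D p → v ∈ 𝒟.D p →
      H.cl u = H.cl v → u = v := by
    intro P p u v hu hv huv
    rw [← sub_eq_zero]
    exact 𝒟.unique p _ (Submodule.sub_mem _ hu hv) (by rw [map_sub, huv, sub_self])
  -- `a_j ∘ b_i`-coordinates of `Z`
  have hco : ∀ i j, C.comp (C.comp (b i) Z) (a' j) ∈ 𝒟.D (𝒟.prod (p i) (p' j)) := by
    intro i j
    rw [hZdef]
    simp only [comp_sum, sum_comp]
    refine Submodule.sum_mem _ fun k _ => Submodule.sum_mem _ fun l _ => ?_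
    have e1 : C.comp (C.comp (b i) (C.comp (C.comp (a k) (z k l)) (b' l))) (a' j) =
        C.comp (C.comp (C.comp (b i) (a k)) (z k l)) (C.comp (b' l) (a' j)) := by
      simp only [comp_assoc]
    rw [e1]
    exact 𝒟.comp _ _ _ _ _ (𝒟.comp _ _ _ _ _ (hba i k) (hzD k l)) (hba' l j)
  have hco' : ∀ j i, C.comp (C.comp (b' j) Z') (a i) ∈ 𝒟.D (𝒟.prod (p' j) (p i)) := by
    intro j i
    rw [hZdef']
    simp only [comp_sum, sum_comp]
    refine Submodule.sum_mem _ fun k _ => Submodule.sum_mem _ fun l _ => ?_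
    have e1 : C.comp (C.comp (b' j) (C.comp (C.comp (a' k) (z' k l)) (b l))) (a i) =
        C.comp (C.comp (C.comp (b' j) (a' k)) (z' k l)) (C.comp (b l) (a i)) := by
      simp only [comp_assoc]
    rw [e1]
    exact 𝒟.comp _ _ _ _ _ (𝒟.comp _ _ _ _ _ (hba' j k) (hzD' k l)) (hba l i)
  -- resolution of the identity
  have hres : ∀ {V W : 𝒱.Obj} (u : C.A (V.prod X)) (v : C.A (X.prod W)), C.comp u v =
      ∑ k, C.comp (C.comp u (a k)) (C.comp (b k) v) := by
    intro V W u v
    have e2 : ∀ k, C.comp (C.comp u (a k)) (C.comp (b k) v) =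
        C.comp (C.comp u (C.comp (a k) (b k))) v := fun k => by simp only [comp_assoc]
    simp only [e2]
    simp only [← comp_sum, ← sum_comp]
    rw [hab, comp_dg]
  have hres' : ∀ {V W : 𝒱.Obj} (u : C.A (V.prod Y)) (v : C.A (Y.prod W)), C.comp u v =
      ∑ k, C.comp (C.comp u (a' k)) (C.comp (b' k) v) := by
    intro V W u v
    have e2 : ∀ k, C.comp (C.comp u (a' k)) (C.comp (b' k) v) =
        C.comp (C.comp u (C.comp (a' k) (b' k))) v := fun k => by simp only [comp_assoc]
    simp only [e2]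
    simp only [← comp_sum, ← sum_comp]
    rw [hab', comp_dg]
  -- two correspondences with the same coordinates are equal
  have hextX : ∀ {V : 𝒱.Obj} (u v : C.A (X.prod V)), (∀ i, C.comp (b i) u = C.comp (b i) v) →
      u = v := by
    intro V u v huv
    rw [← dg_comp C u, ← dg_comp C v, hres (dg C X) u, hres (dg C X) v]
    exact Finset.sum_congr rfl fun k _ => by rw [huv]
  have hextY : ∀ {V : 𝒱.Obj} (u v : C.A (Y.prod V)), (∀ i, C.comp (b' i) u = C.comp (b' i) v) →
      u = v := by
    intro V u v huv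
    rw [← dg_comp C u, ← dg_comp C v, hres' (dg C Y) u, hres' (dg C Y) v]
    exact Finset.sum_congr rfl fun k _ => by rw [huv]
  have hextX' : ∀ {V : 𝒱.Obj} (u v : C.A (V.prod X)), (∀ i, C.comp u (a i) = C.comp v (a i)) →
      u = v := by
    intro V u v huv
    rw [← comp_dg C u, ← comp_dg C v, hres u (dg C X), hres v (dg C X)]
    exact Finset.sum_congr rfl fun k _ => by rw [huv]
  have hextY' : ∀ {V : 𝒱.Obj} (u v : C.A (V.prod Y)), (∀ i, C.comp u (a' i) = C.comp v (a' i)) →
      u = v := by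
    intro V u v huv
    rw [← comp_dg C u, ← comp_dg C v, hres' u (dg C Y), hres' v (dg C Y)]
    exact Finset.sum_congr rfl fun k _ => by rw [huv]
  refine ⟨Z, Z', ⟨hZm, hZm', ?_, ?_⟩, ?_, hI, hI'⟩
  · apply hextX
    intro i
    apply hextX'
    intro j
    apply huniq (𝒟.prod (p i) (p j))
    · have e1 : C.comp (C.comp (b i) (C.comp Z Z')) (a j) =
          C.comp (C.comp (b i) Z) (C.comp Z' (a j)) := by simp only [comp_assoc]
      rw [e1, hres' (C.comp (b i) Z)]
      refine Submodule.sum_mem _ fun k _ => ?_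
      rw [← comp_assoc C (b' k) Z']
      exact 𝒟.comp _ _ _ _ _ (hco i k) (hco' k j)
    · rw [comp_dg]
      exact hba i j
    · simp only [cl_comp]
      rw [← cl_comp (H := H) Z Z', hI.comp_hom hI']
  · apply hextY
    intro i
    apply hextY'
    intro j
    apply huniq (𝒟.prod (p' i) (p' j))
    · have e1 : C.comp (C.comp (b' i) (C.comp Z' Z)) (a' j) =
          C.comp (C.comp (b' i) Z') (C.comp Z (a' j)) := by simp only [comp_assoc]
      rw [e1, hres (C.comp (b' i) Z')]
      refine Submodule.sum_mem _ fun k _ => ?_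
      rw [← comp_assoc C (b k) Z]
      exact 𝒟.comp _ _ _ _ _ (hco' i k) (hco k j)
    · rw [comp_dg]
      exact hba' i j
    · simp only [cl_comp]
      rw [← cl_comp (H := H) Z' Z, hI'.comp_hom (G := G.symm) hI]
  · -- the cup-product
    have hextXX : ∀ {V : 𝒱.Obj} (u v : C.A ((X.prod X).prod V)),
        (∀ i j, C.comp (Pool.Agent.TH133.tens C (b i) (b j)) u =
          C.comp (Pool.Agent.TH133.tens C (b i) (b j)) v) → u = v := by
      intro V u v huv
      have e1 : dg C (X.prod X) = ∑ i, ∑ j, C.comp (Pool.Agent.TH133.tens C (a i) (a j))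
          (Pool.Agent.TH133.tens C (b i) (b j)) := by
        rw [← tens_dg C, ← hab, tens_sum_sum]
        refine Finset.sum_congr rfl fun i _ => Finset.sum_congr rfl fun j _ => ?_
        rw [tens_comp_tens]
      rw [← dg_comp C u, ← dg_comp C v, e1]
      simp only [sum_comp]
      refine Finset.sum_congr rfl fun i _ => Finset.sum_congr rfl fun j _ => ?_
      rw [comp_assoc, comp_assoc, huv]
    rw [RespectsCup]
    apply hextXX
    intro i j
    apply hextY'
    intro k
    apply huniq (𝒟.prod (𝒟.prod (p i) (p j)) (p' k))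
    · have e1 : C.comp (C.comp (Pool.Agent.TH133.tens C (b i) (b j)) (C.comp (smallDiag C X) Z))
          (a' k) = C.comp (C.comp (Pool.Agent.TH133.tens C (b i) (b j)) (smallDiag C X))
            (C.comp Z (a' k)) := by simp only [comp_assoc]
      rw [e1, hres (C.comp (Pool.Agent.TH133.tens C (b i) (b j)) (smallDiag C X))]
      refine Submodule.sum_mem _ fun l _ => ?_
      rw [← comp_assoc C (b l) Z]
      exact 𝒟.comp _ _ _ _ _ (hm i j l) (hco l k)
    · have e1 : C.comp (Pool.Agent.TH133.tens C (b i) (b j)) (C.comp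
          (Pool.Agent.TH133.tens C Z Z) (smallDiag C Y)) =
          C.comp (Pool.Agent.TH133.tens C (C.comp (b i) Z) (C.comp (b j) Z)) (smallDiag C Y) := by
        rw [← comp_assoc, tens_comp_tens]
      have e2 : Pool.Agent.TH133.tens C (C.comp (b i) Z) (C.comp (b j) Z) =
          ∑ l, ∑ r, C.comp (Pool.Agent.TH133.tens C (C.comp (C.comp (b i) Z) (a' l))
            (C.comp (C.comp (b j) Z) (a' r))) (Pool.Agent.TH133.tens C (b' l) (b' r)) := by
        have e3 : C.comp (b i) Z = ∑ l, C.comp (C.comp (C.comp (b i) Z) (a' l)) (b' l) := by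
          have := hres' (C.comp (b i) Z) (dg C Y)
          simp only [comp_dg] at this
          exact this
        have e4 : C.comp (b j) Z = ∑ r, C.comp (C.comp (C.comp (b j) Z) (a' r)) (b' r) := by
          have := hres' (C.comp (b j) Z) (dg C Y)
          simp only [comp_dg] at this
          exact this
        conv_lhs => rw [e3, e4, tens_sum_sum]
        refine Finset.sum_congr rfl fun l _ => Finset.sum_congr rfl fun r _ => ?_
        rw [tens_comp_tens]
      rw [e1, e2]
      simp only [sum_comp]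
      refine Submodule.sum_mem _ fun l _ => Submodule.sum_mem _ fun r _ => ?_
      rw [comp_assoc, comp_assoc, ← comp_assoc C (Pool.Agent.TH133.tens C (b' l) (b' r))]
      exact 𝒟.comp _ _ _ _ _ (𝒟.tens _ _ _ _ _ _ (hco i l) (hco j r)) (hm' l r k)
    · have h1 : H.cl (C.comp (smallDiag C X) Z) =
          H.cl (C.comp (Pool.Agent.TH133.tens C Z Z) (smallDiag C Y)) := by
        have := hI.respectsCupHom
        rw [RespectsCupHom, map_sub, sub_eq_zero] at this
        exact this
      rw [cl_comp, cl_comp, h1, ← cl_comp, ← cl_comp]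

end Run7.h158
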