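import Pool.Agent.Run7.h158.Bridge
import Pool.Agent.Run7.h158.Mark
import Pool.Agent.Run7.h158.Good
import Pool.Agent.Run7.h158.St.Mark
import Pool.Agent.Run7.h158.St.Good

/-!
# From the statements to the library: markings and good systems
-/

open CategoryTheory AlgebraicGeometry

namespace Run7.h158

open Pool.Agent.H914 Pool.Agent.H914.VarClass Pool.Agent.H914.VarClass.Obj Pool.Agent.W492.BB
  Pool.Agent.W550.Corr Pool.Agent.TH133 Pool.Agent.TH829.Prime Pool.Agent.TH829.Kim
  Pool.Agent.Q8.HK Pool.Agent.N174.OV Pool.Agent.Y107 Pool.Agent.N174.KN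

variable {𝒱 : VarClass ℂ} {C : TheoryData.{0, 0, 0} 𝒱 ℚ} {H : WeilTheoryData.{0, 0, 0} C ℂ}
  {X Y Z W : 𝒱.Obj}

lemma respectsCup_iff {Z : C.A (X.prod Y)} : St.RespectsCup C Z ↔ RespectsCup C Z := by
  rw [St.RespectsCup, RespectsCup, st_smallDiag, st_smallDiag]
  rfl

lemma chowInverse_iff {Z : C.A (X.prod Y)} {Z' : C.A (Y.prod X)} :
    St.IsChowInverse C Z Z' ↔ IsChowInverse C Z Z' := by
  constructor
  · rintro ⟨h1, h2, h3, h4⟩
    rw [st_dgC] at h3 h4
    exact ⟨h1, h2, h3, h4⟩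
  · rintro ⟨h1, h2, h3, h4⟩
    refine ⟨h1, h2, ?_, ?_⟩
    · rw [st_dgC]
      exact h3
    · rw [st_dgC]
      exact h4

lemma multiplicativeIso_iff : St.MultiplicativeIso C X Y ↔ MultiplicativeIso C X Y := by
  constructor
  · rintro ⟨Z, Z', h1, h2⟩
    exact ⟨Z, Z', chowInverse_iff.1 h1, respectsCup_iff.1 h2⟩
  · rintro ⟨Z, Z', h1, h2⟩
    exact ⟨Z, Z', chowInverse_iff.2 h1, respectsCup_iff.2 h2⟩

/-- The system of distinguished cycles, in terms of subspaces. -/
def distOf (𝒟 : St.DistinguishedSystem H) : DistinguishedSystem H where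
  S := 𝒟.S
  prod := 𝒟.prod
  D := fun {P} p =>
    { carrier := {z | 𝒟.D p z}
      add_mem' := fun {a b} ha hb => 𝒟.add p a b ha hb
      zero_mem' := 𝒟.zero p
      smul_mem' := fun q a ha => 𝒟.smul p q a ha }
  comp p q r a b ha hb := 𝒟.comp p q r a b ha hb
  tens p q p' q' a b ha hb := 𝒟.tens p q p' q' a b ha hb
  unique p z hz h := 𝒟.unique p z hz h
  exist p i z hz := 𝒟.exist p i z hz

lemma marking_iff (𝒟 : St.DistinguishedSystem H) :
    St.HasMultiplicativeMarking 𝒟 X ↔ HasMultiplicativeMarking (distOf 𝒟) X := by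
  rw [St.HasMultiplicativeMarking, HasMultiplicativeMarking, st_dgC, st_smallDiag]
  rfl

/-- The system of good correspondences, in terms of subspaces. -/
def goodOf (𝒬 : St.GoodSystem C) : GoodSystem C where
  Q P R :=
    { carrier := {z | 𝒬.Q P R z}
      add_mem' := fun {a b} ha hb => (𝒬.graded P R).add a b ha hb
      zero_mem' := (𝒬.graded P R).zero
      smul_mem' := fun q a ha => (𝒬.graded P R).smul q a ha }
  graded P R := by
    intro x hx
    obtain ⟨m, e, f, hf, rfl⟩ := (𝒬.graded P R).graded x hx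
    refine Submodule.sum_mem _ fun j _ => ?_
    exact (le_iSup (fun i => (_ ⊓ C.gr (P.prod R) i : Submodule ℚ (C.A (P.prod R)))) (e j))
      ⟨(hf j).2, (hf j).1⟩
  comp a b ha hb := 𝒬.comp a b ha hb
  tens a b ha hb := 𝒬.tens a b ha hb

lemma isGood_of {𝒬 : St.GoodSystem C} (h : St.IsGood 𝒬 X) : (goodOf 𝒬).IsGood X where
  dg := by
    have := h.dg
    rw [st_dgC] at this
    exact this
  small := by
    have := h.small
    rw [st_smallDiag] at this
    exact this
  div D hD := h.div D hD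

/-- Good correspondences which are homologically equivalent to the Mukai vectors behave like the
Mukai vectors of a derived equivalence. -/
theorem goodDerived [IsChowProj C] [IsWeilProj H] {n : ℕ} {V U : Type}
    [AddCommGroup V] [Module ℂ V]
    [AddCommGroup U] [Module ℂ U] {hX : St.HyperKahler H n X V} {hY : St.HyperKahler H n Y U}
    (D : St.DerivedEquivalence H hX hY) (𝒬 : St.GoodSystem C) (gX : St.IsGood 𝒬 X)
    (gY : St.IsGood 𝒬 Y) {v : C.A (X.prod Y)} (hv : 𝒬.Q X Y v) (cv : St.cl H v = St.cl H D.v)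
    {w : C.A (Y.prod X)} (hw : 𝒬.Q Y X w) (cw : St.cl H w = St.cl H D.w)
    (iX : ∀ z, 𝒬.Q X X z → St.cl H z = St.zero H.toTheoryData (X.prod X) →
      z = St.zero C (X.prod X))
    (iY : ∀ z, 𝒬.Q Y Y z → St.cl H z = St.zero H.toTheoryData (Y.prod Y) →
      z = St.zero C (Y.prod Y)) :
    ∃ D' : St.DerivedEquivalence H hX hY, D'.v = v ∧ D'.w = w := by
  have hv' : v ∈ (goodOf 𝒬).Q X Y := hv
  have hw' : w ∈ (goodOf 𝒬).Q Y X := hw
  have cv' : H.cl v = H.cl D.v := cv
  have cw' : H.cl w = H.cl D.w := cw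
  have e1 : C.comp v w = dg C X := by
    rw [← sub_eq_zero]
    refine iX _ ?_ ?_
    · exact Submodule.sub_mem ((goodOf 𝒬).Q X X) ((goodOf 𝒬).comp v w hv' hw')
        (isGood_of gX).dg
    · change H.cl (C.comp v w - dg C X) = 0
      have h1 := D.left
      rw [st_comp, st_dgC] at h1
      rw [map_sub, sub_eq_zero, ← h1, cl_comp, cl_comp, cv', cw']
  have e2 : C.comp w v = dg C Y := by
    rw [← sub_eq_zero]
    refine iY _ ?_ ?_
    · exact Submodule.sub_mem ((goodOf 𝒬).Q Y Y) ((goodOf 𝒬).comp w v hw' hv')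
        (isGood_of gY).dg
    · change H.cl (C.comp w v - dg C Y) = 0
      have h1 := D.right
      rw [st_comp, st_dgC] at h1
      rw [map_sub, sub_eq_zero, ← h1, cl_comp, cl_comp, cv', cw']
  have hact : St.act H v = St.act H D.v := by
    funext a
    rw [St.act, St.act, cv]
  refine ⟨⟨v, w, ?_, ?_, ?_⟩, rfl, rfl⟩
  · rw [st_dgC]
    exact e1
  · rw [st_dgC]
    exact e2
  · rw [hact]
    exact D.derived

end Run7.h158
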