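import Pool.Agent.Run7.h158.Bridge2
import Pool.Agent.Run7.h158.Lef.Match
import Pool.Agent.Run7.h158.St.Lef

/-!
# From the statements to the library: products of divisors
-/

open CategoryTheory AlgebraicGeometry

namespace Run7.h158

open Pool.Agent.H914 Pool.Agent.H914.VarClass Pool.Agent.H914.VarClass.Obj Pool.Agent.W492.BB
  Pool.Agent.W550.Corr Pool.Agent.TH133 Pool.Agent.TH829.Prime Pool.Agent.TH829.Kim
  Pool.Agent.Q8.HK Pool.Agent.N174.OV Pool.Agent.Y107 Pool.Agent.N174.KN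

variable {𝒱 : VarClass ℂ} {C : TheoryData.{0, 0, 0} 𝒱 ℚ} {H : WeilTheoryData.{0, 0, 0} C ℂ}
  {X Y : 𝒱.Obj} {n : ℕ}

lemma mem_lefSub_iff {h x : C.A X} : x ∈ lefSub C n h ↔ St.LefDiv C n h x := by
  constructor
  · intro hx
    obtain ⟨N, q, g, rfl⟩ := (Submodule.mem_span_set' (R := ℚ)).1 hx
    choose D e m hD hem hg using fun j => (g j).2
    refine ⟨N, q, D, e, m, fun j => ⟨hD j, hem j⟩, ?_⟩
    rw [St.sum]
    exact Finset.sum_congr rfl fun j _ => by rw [hg]; rfl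
  · rintro ⟨N, q, D, e, m, hD, rfl⟩
    exact Submodule.sum_mem _ fun j _ => Submodule.smul_mem _ _
      (Submodule.subset_span ⟨D j, e j, m j, (hD j).1, (hD j).2, rfl⟩)

lemma graded_st {R : Submodule ℚ (C.A X)} (hR : R ≤ ⨆ i, R ⊓ C.gr X i) {P : C.A X → Prop}
    (hP : ∀ x, x ∈ R ↔ P x) : St.IsGradedSubspace C P where
  zero := (hP _).1 (Submodule.zero_mem _)
  add x y hx hy := (hP _).1 (Submodule.add_mem _ ((hP _).2 hx) ((hP _).2 hy))
  smul q x hx := (hP _).1 (Submodule.smul_mem _ _ ((hP _).2 hx))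
  graded x hx := by
    have h1 := hR ((hP x).2 hx)
    refine Submodule.iSup_induction (fun i => R ⊓ C.gr X i)
      (motive := fun x => ∃ (m : ℕ) (e : Fin m → ℤ) (f : Fin m → C.A X),
        (∀ j, C.Deg (e j) (f j) ∧ P (f j)) ∧ x = St.sum C f) h1 ?_ ?_ ?_
    · rintro i a ⟨h2, h3⟩
      refine ⟨1, fun _ => i, fun _ => a, fun _ => ⟨h3, (hP a).1 h2⟩, ?_⟩
      rw [St.sum, Fin.sum_univ_one]
    · refine ⟨0, Fin.elim0, Fin.elim0, fun j => j.elim0, ?_⟩
      rw [St.sum, Fin.sum_univ_zero]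
    · rintro a b ⟨m, e, f, h2, rfl⟩ ⟨m', e', f', h2', rfl⟩
      refine ⟨m + m', Fin.append e e', Fin.append f f', fun j => ?_, ?_⟩
      · refine Fin.addCases (fun j => ?_) (fun j => ?_) j
        · rw [Fin.append_left, Fin.append_left]
          exact h2 j
        · rw [Fin.append_right, Fin.append_right]
          exact h2' j
      · rw [St.sum, St.sum, St.sum, Fin.sum_univ_add]
        congr 1
        · exact Finset.sum_congr rfl fun j _ => by rw [Fin.append_left]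
        · exact Finset.sum_congr rfl fun j _ => by rw [Fin.append_right]

lemma faithful_st {R : Submodule ℚ (C.A X)} (hR : IsFaithful C R) {P : C.A X → Prop}
    (hP : ∀ x, x ∈ R ↔ P x) : St.IsFaithful C P where
  graded := graded_st hR.graded hP
  faithful x hx hn := hR.faithful x ((hP x).2 hx) hn

lemma matches_st {G : H.A X ≃ₐ[ℂ] H.A Y} {R : Submodule ℚ (C.A X)} {R' : Submodule ℚ (C.A Y)}
    (hm : Matches H G R R') {P : C.A X → Prop} {P' : C.A Y → Prop} (hP : ∀ x, x ∈ R ↔ P x)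
    (hP' : ∀ x, x ∈ R' ↔ P' x) : St.Matches H G P P' where
  fwd x hx := by
    obtain ⟨y, hy, h1⟩ := hm.fwd x ((hP x).2 hx)
    exact ⟨y, (hP' y).1 hy, h1⟩
  bwd y hy := by
    obtain ⟨x, hx, h1⟩ := hm.bwd y ((hP' y).2 hy)
    exact ⟨x, (hP x).1 hx, h1⟩

variable {V U : Type} [AddCommGroup V] [Module ℂ V] [AddCommGroup U] [Module ℂ U]

lemma divHyp_of [IsChowProj C] [IsWeilProj H] (hH : St.IsWeilTheory H)
    (h : St.HyperKahler H n X V) : DivHyp (hk_of hH h) where
  hodge D _ := by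
    change (coh_of hH h).eta (H.cl D) = 0
    rw [coh_eta]
    exact h.linked.hodge D
  pic D hD hcl := h.linked.pic D hD hcl

variable {hX : St.HyperKahler H n X V} {hY : St.HyperKahler H n Y U}

/-- The products of divisors are examples of faithful subspaces. -/
theorem lefDiv_st (hC : St.IsChowTheory C) (hH : St.IsWeilTheory H) {G : H.A X ≃ₐ[ℂ] H.A Y}
    {c : ℚ} (hc : c ≠ 0) (htr : ∀ x, H.tr Y (G x) = ((c ^ 2 : ℚ) : ℂ) * H.tr X x)
    (hdeg : ∀ (k : ℕ) (a : H.A X), H.Deg k a ↔ H.Deg k (G a))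
    (hrat : ∀ a, IsRat (hk_of hH hX).b a ↔ IsRat (hk_of hH hY).b (G a))
    (heta : ∀ a, G ((hk_of hH hX).eta a) = (hk_of hH hY).eta (G a)) {h : C.A X}
    (hh : C.Deg 1 h) (hne : ¬ St.HasDeg C (St.pow C h (2 * n)) 0) :
    ∃ h' : C.A Y, C.Deg 1 h' ∧ St.cl H h' = G (St.cl H h) ∧ St.IsFaithful C (St.LefDiv C n h) ∧
      St.IsFaithful C (St.LefDiv C n h') ∧
      St.Matches H G (St.LefDiv C n h) (St.LefDiv C n h') := by
  have := chow_of hC
  have := weil_of hH
  have hdX := divHyp_of hH hX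
  have hdY := divHyp_of hH hY
  have hne' : degL H X (h ^ (2 * n)) ≠ 0 := by
    intro h0
    apply hne
    have h1 := degL_spec (H := H) (h ^ (2 * n))
    rw [h0] at h1
    exact h1
  obtain ⟨h', hh', hcl⟩ := exists_div (hk_of hH hX) (hk_of hH hY) hdX hdeg hrat heta hh
  have hne'' := degL_transfer (hk_of hH hX) (hk_of hH hY) hc htr hcl hne'
  exact ⟨h', hh', hcl, faithful_st (lefSub_isFaithful hdX hh hne') fun _ => mem_lefSub_iff,
    faithful_st (lefSub_isFaithful hdY hh' hne'') fun _ => mem_lefSub_iff,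
    matches_st (lefSub_matches (hk_of hH hX) (hk_of hH hY) hdX hdY hdeg hrat heta hcl)
      (fun _ => mem_lefSub_iff) fun _ => mem_lefSub_iff⟩

end Run7.h158
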