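import Pool.Agent.Run7.h158.Defs

/-!
# Calculus of correspondences: graphs, products and the small diagonal
-/

open CategoryTheory AlgebraicGeometry

universe u v w

namespace Run7.h158

open Pool.Agent.H914 Pool.Agent.H914.VarClass Pool.Agent.H914.VarClass.Obj Pool.Agent.W492.BB
  Pool.Agent.W550.Corr Pool.Agent.TH133

set_option linter.unusedSectionVars false

section theory

variable {k : Type u} [Field k] {𝒱 : VarClass k} {F : Type w} [Field F] {δ : ℤ}
  (T : TheoryData.{u, v, w} 𝒱 F) [hT : IsTheory T δ] {X Y Z W B : 𝒱.Obj}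

include hT

lemma cograph_comp (f : X ⟶ B) (Γ : T.A (X.prod Y)) :
    T.comp (T.cograph f) Γ = T.push (prodMap f (𝟙 Y)) Γ := by
  rw [TheoryData.comp, TheoryData.cograph, T.base_fst, ← T.proj_left, ← T.push_comp,
    map_one, mul_one, ← T.pull_comp]
  have e1 : prodMap (Obj.lift f (𝟙 X)) (𝟙 Y) ≫ t13 B X Y = prodMap f (𝟙 Y) := by
    apply prod_ext <;> simp [t13]
  have e2 : prodMap (Obj.lift f (𝟙 X)) (𝟙 Y) ≫ t23 B X Y = 𝟙 _ := by
    apply prod_ext <;> simp [t23]
  rw [e1, e2, T.pull_id]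

lemma graph_comp (f : X ⟶ B) (Γ : T.A (B.prod Y)) :
    T.comp (T.graph f) Γ = T.pull (prodMap f (𝟙 Y)) Γ := by
  rw [TheoryData.comp, TheoryData.graph, T.base_fst, ← T.proj_left, ← T.push_comp,
    map_one, mul_one, ← T.pull_comp]
  have e1 : prodMap (Obj.lift (𝟙 X) f) (𝟙 Y) ≫ t13 X B Y = 𝟙 _ := by
    apply prod_ext <;> simp [t13]
  have e2 : prodMap (Obj.lift (𝟙 X) f) (𝟙 Y) ≫ t23 X B Y = prodMap f (𝟙 Y) := by
    apply prod_ext <;> simp [t23]
  rw [e1, e2, T.push_id]

variable [hI : HasIso T]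

include hI

lemma comp_graph (Γ : T.A (X.prod Y)) (f : Y ⟶ B) :
    T.comp Γ (T.graph f) = T.push (prodMap (𝟙 X) f) Γ := by
  rw [comp_eq_extR, extR_graph]

lemma comp_cograph (Γ : T.A (X.prod B)) (f : Y ⟶ B) :
    T.comp Γ (T.cograph f) = T.pull (prodMap (𝟙 X) f) Γ := by
  rw [comp_eq_extR, TheoryData.extR, TheoryData.cograph, T.base_snd, ← T.proj_right,
    ← T.push_comp, map_one, one_mul, ← T.pull_comp]
  have e1 : prodMap (𝟙 X) (Obj.lift f (𝟙 Y)) ≫ u12 X B Y = prodMap (𝟙 X) f := by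
    apply prod_ext <;> simp [u12]
  have e2 : prodMap (𝟙 X) (Obj.lift f (𝟙 Y)) ≫ u13 X B Y = 𝟙 _ := by
    apply prod_ext <;> simp [u13]
  rw [e1, e2, T.push_id]

/-- The product of two correspondences in terms of the small diagonals. -/
lemma mul_eq_comp (x y : T.A (X.prod Y)) :
    x * y = T.comp (T.graph (diag X)) (T.comp (tens T x y) (T.cograph (diag Y))) := by
  rw [comp_cograph, graph_comp, ← T.pull_comp, tens, map_mul, ← T.pull_comp, ← T.pull_comp]
  have e1 : (prodMap (diag X) (𝟙 Y) ≫ prodMap (𝟙 (X.prod X)) (diag Y)) ≫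
      prodMap (fst X X) (fst Y Y) = 𝟙 _ := by
    apply prod_ext <;> simp [diag]
  have e2 : (prodMap (diag X) (𝟙 Y) ≫ prodMap (𝟙 (X.prod X)) (diag Y)) ≫
      prodMap (snd X X) (snd Y Y) = 𝟙 _ := by
    apply prod_ext <;> simp [diag]
  rw [e1, e2, T.pull_id, T.pull_id]

end theory

section chow

variable {𝒱 : VarClass ℂ} {C : TheoryData.{0, 0, 0} 𝒱 ℚ} {X Y Z W T B : 𝒱.Obj}

lemma smallDiag_eq (X : 𝒱.Obj) : smallDiag C X = C.cograph (diag X) := rfl

variable [hC : IsChowProj C]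

include hC

lemma tens_comp_tens (Γ : C.A (X.prod Y)) (Δ : C.A (Z.prod W)) (Γ' : C.A (Y.prod T))
    (Δ' : C.A (W.prod B)) :
    C.comp (tens C Γ Δ) (tens C Γ' Δ') = tens C (C.comp Γ Γ') (C.comp Δ Δ') :=
  tens_comp C (ch_comm C) _ _ _ _

/-- The cup-product of correspondences with values in `X`. -/
lemma mul_eq_smallDiag (x y : C.A (T.prod X)) :
    x * y = C.comp (C.graph (diag T)) (C.comp (tens C x y) (smallDiag C X)) := mul_eq_comp C x y

/-- The defect of multiplicativity of a correspondence. -/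
lemma mul_defect (Γ : C.A (X.prod Y)) (x y : C.A (T.prod X)) :
    C.comp (x * y) Γ - C.comp x Γ * C.comp y Γ =
      C.comp (C.graph (diag T)) (C.comp (tens C x y)
        (C.comp (smallDiag C X) Γ - C.comp (tens C Γ Γ) (smallDiag C Y))) := by
  rw [mul_eq_smallDiag x y, mul_eq_smallDiag (C.comp x Γ), ← tens_comp_tens, comp_sub, comp_sub,
    comp_assoc, comp_assoc, comp_assoc]

/-- A correspondence respecting the cup-product is multiplicative. -/
lemma RespectsCup.mul {Γ : C.A (X.prod Y)} (h : RespectsCup C Γ) (x y : C.A (T.prod X)) :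
    C.comp (x * y) Γ = C.comp x Γ * C.comp y Γ := by
  rw [← sub_eq_zero, mul_defect, h, sub_self, comp_zero, comp_zero]

/-- The codimensions of the small diagonal. -/
lemma smallDiag_mem (X : 𝒱.Obj) : smallDiag C X ∈ C.gr ((X.prod X).prod X) (2 * X.dim) := by
  have h := C.push_mem (Obj.lift (diag X) (𝟙 X)) (C.one_mem X)
  have e1 : (0 : ℤ) + 1 * ((((X.prod X).prod X).dim : ℤ) - (X.dim : ℤ)) = 2 * X.dim := by
    rw [dim_prod, dim_prod]; push_cast; ring
  rwa [e1] at h

end chow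

end Run7.h158
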