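import Mathlib
import Pool.Agent.Q8.HK.Free

/-!
# Moving the lines of the extended Mukai space by products of exponentials

A refinement of the main theorem of `Q8/HK/Free`: the operator `T` there is a product of
exponentials, so it lies in every set `S` of operators which is closed under products and inverses
and contains the exponentials of the cup products with rational `(1,1)`-classes and of the
corresponding lowering operators which are in the ring `R`.
-/

set_option autoImplicit false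
set_option linter.unusedSimpArgs false
set_option linter.style.haveILetI false

open Module

namespace Run7.h158

open Pool.Agent.Q8.HK Pool.Agent.Q8.HK.Coh

variable {n : ℕ} {A V : Type} [Ring A] [Algebra ℂ A] [AddCommGroup V] [Module ℂ V]
variable {B U : Type} [Ring B] [Algebra ℂ B] [AddCommGroup U] [Module ℂ U]

variable (X : Coh n A V)

/-- The set `S` of operators is closed under products and inverses and contains the exponentials
of the cup products with rational `(1,1)`-classes and of the lowering operators in `R`. -/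
structure ExpSet (R : Subring (Module.End ℂ A)) (S : Set (Module.End ℂ A)) : Prop where
  mul : ∀ f g, f ∈ S → g ∈ S → f * g ∈ S
  inv : ∀ f g, f ∈ S → f * g = 1 → g * f = 1 → g ∈ S
  expE : ∀ x, X.NS x → (X.expE x).u.toLinearMap ∈ S
  expF : ∀ x, X.NS x → X.rho (F X.q x) ∈ R → (X.expF x).u.toLinearMap ∈ S

/-- Good intertwiners in `S`. -/
structure GoodS (R : Subring (Module.End ℂ A)) (S : Set (Module.End ℂ A)) (P : Intw X X) :
    Prop where
  good : X.Good R P
  mem : P.u.toLinearMap ∈ S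

variable {X}
variable {R : Subring (Module.End ℂ A)} {S : Set (Module.End ℂ A)}

theorem GoodS.trans (hS : ExpSet X R S) {P Q : Intw X X} (hP : GoodS X R S P)
    (hQ : GoodS X R S Q) : GoodS X R S (P.trans Q) where
  good := hP.good.trans hQ.good
  mem := hS.mul _ _ hQ.mem hP.mem

theorem GoodS.symm (hS : ExpSet X R S) {P : Intw X X} (hP : GoodS X R S P) :
    GoodS X R S P.symm where
  good := hP.good.symm
  mem := hS.inv _ _ hP.mem (LinearMap.ext fun x => P.u.apply_symm_apply x)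
    (LinearMap.ext fun x => P.u.symm_apply_apply x)

variable (X)

theorem goodS_E (hR : X.DivRing R) (hS : ExpSet X R S) {x : V} (hx : X.NS x) :
    GoodS X R S (X.expE x) where
  good := X.good_E' hR hx
  mem := hS.expE x hx

theorem goodS_F (hR : X.DivRing R) (hS : ExpSet X R S) {x : V} (hx : X.NS x)
    (hF : X.rho (F X.q x) ∈ R) : GoodS X R S (X.expF x) where
  good := X.good_F' hR hx hF
  mem := hS.expF x hx hF

/-- moving `β` to a rational isotropic vector of `NS`-type with nonzero first coordinate -/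
theorem move_oneS (hR : X.DivRing R) (hS : ExpSet X R S) (hl : X.rho (F X.q X.l) ∈ R)
    {z : ℂ × V × ℂ} (hz : X.NSE z) (h0 : bil X.q z z = 0) (h1 : z.1 ≠ 0) :
    ∃ P : Intw X X, GoodS X R S P ∧ ∃ d : ℂ, d ≠ 0 ∧ P.g (be ℂ V) = d • z := by
  have hll := X.l_l
  have hql : Rt (X.q X.l X.l) := X.q_rat _ _ X.l_rat X.l_rat
  have hns : X.NS (z.1⁻¹ • z.2.1) := NS.smul X hz.1.1.inv (NSE.ns X hz)
  have hns2 : X.NS (-(X.q X.l X.l)⁻¹ • X.l) := NS.smul X hql.inv.neg X.ns_l
  have hns3 : X.NS ((1 : ℂ) • X.l) := NS.smul X Rt.one X.ns_l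
  have hl' : X.rho (F X.q ((1 : ℂ) • X.l)) ∈ R := by rwa [one_smul]
  refine ⟨((X.expF ((1 : ℂ) • X.l)).trans (X.expE (-(X.q X.l X.l)⁻¹ • X.l))).trans
    (X.expE (z.1⁻¹ • z.2.1)), ((goodS_F X hR hS hns3 hl').trans hS
      (goodS_E X hR hS hns2)).trans hS (goodS_E X hR hS hns), 2 * X.q X.l X.l * z.1⁻¹,
    mul_ne_zero (mul_ne_zero two_ne_zero hll) (inv_ne_zero h1), ?_⟩
  have e1 : (X.expE (-(X.q X.l X.l)⁻¹ • X.l)).g ((X.expF ((1 : ℂ) • X.l)).g (be ℂ V)) =
      (2 * X.q X.l X.l) • al ℂ V := by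
    rw [one_smul, expF_g, expE_g]
    simp only [be, al, map_zero, mul_zero, zero_add, mul_one, one_mul]
    refine Prod.ext ?_ (Prod.ext ?_ ?_)
    · simp
    · simp only [Prod.smul_snd, Prod.smul_fst, smul_zero, smul_smul]
      have : 2 * X.q X.l X.l * -(X.q X.l X.l)⁻¹ = (-2 : ℂ) := by field_simp
      rw [this]
      module
    · simp only [map_smul, LinearMap.smul_apply, smul_eq_mul, Prod.smul_snd, mul_zero]
      field_simp
      ring
  show (X.expE (z.1⁻¹ • z.2.1)).g ((X.expE (-(X.q X.l X.l)⁻¹ • X.l)).g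
    ((X.expF ((1 : ℂ) • X.l)).g (be ℂ V))) = _
  rw [e1, map_smul, X.iso_eq h0 h1, smul_smul]

/-- moving `β` to a nonzero rational isotropic vector of `NS`-type -/
theorem move_twoS (hR : X.DivRing R) (hS : ExpSet X R S) (hl : X.rho (F X.q X.l) ∈ R)
    {z : ℂ × V × ℂ} (hz : X.NSE z) (h0 : bil X.q z z = 0) (hne : z ≠ 0) :
    ∃ P : Intw X X, GoodS X R S P ∧ ∃ d : ℂ, d ≠ 0 ∧ P.g (be ℂ V) = d • z := by
  by_cases h1 : z.1 = 0
  · have hzv := NSE.ns X hz
    obtain ⟨t, ht, hne1⟩ : ∃ t : ℂ, Rt t ∧ ((X.expF (t • X.l)).g z).1 ≠ 0 := by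
      by_contra hcon
      push Not at hcon
      have e1 := hcon 1 Rt.one
      have e2 := hcon (-1) Rt.one.neg
      rw [expF_g] at e1 e2
      simp only [h1, map_smul, LinearMap.smul_apply, smul_eq_mul, zero_add, one_smul] at e1 e2
      have hb : z.2.2 * X.q X.l X.l = 0 := by linear_combination (e1 + e2) / 4
      have hb0 := (mul_eq_zero.1 hb).resolve_right X.l_l
      have hlv : X.q X.l z.2.1 = 0 := by
        rw [hb0] at e1
        linear_combination e1 / 2
      have hvv : X.q z.2.1 z.2.1 = 0 := by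
        rw [bil_apply, h1, hb0] at h0
        linear_combination h0
      have hv0 := X.index _ hzv.1 hzv.2.1 hzv.2.2 hlv hvv
      apply hne
      exact Prod.ext h1 (Prod.ext hv0 hb0)
    have hlt : X.rho (F X.q (t • X.l)) ∈ R := by
      rw [X.F_smul, map_smul]
      exact hR.smul ht hl
    have hG := goodS_F X hR hS (NS.smul X ht X.ns_l) hlt
    set Q := X.expF (t • X.l) with hQ
    have hz' : X.NSE (Q.g z) := by
      refine ⟨hG.good.ratg z hz.1, ?_, ?_⟩
      · rw [← hG.good.s, Q.sim, hz.2.1, mul_zero]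
      · rw [← hG.good.s', Q.sim, hz.2.2, mul_zero]
    obtain ⟨P, hP, d, hd, hPd⟩ := move_oneS X hR hS hl hz' (by rw [Q.sim, h0, mul_zero]) hne1
    refine ⟨P.trans Q.symm, hP.trans hS (hG.symm hS), d, hd, ?_⟩
    show Q.g.symm (P.g (be ℂ V)) = _
    rw [hPd, map_smul, LinearEquiv.symm_apply_apply]
  · exact move_oneS X hR hS hl hz h0 h1

/-- moving `β` to a rational isotropic vector whose unipotent radical lies in `R` -/
theorem move_betaS (hR : X.DivRing R) (hS : ExpSet X R S) {zb : ℂ × V × ℂ}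
    (hb : X.NSE zb) (hb0 : bil X.q zb zb = 0) (hne : zb ≠ 0)
    (hK : ∀ z, X.NSE z → bil X.q zb z = 0 → X.rho (W X.q zb z) ∈ R) :
    ∃ P : Intw X X, GoodS X R S P ∧ ∃ d : ℂ, d ≠ 0 ∧ P.g (be ℂ V) = d • zb := by
  have hnsb := NSE.ns X hb
  by_cases h1 : zb.1 = 0
  · by_cases h2 : zb.2.1 = 0
    · -- `zb` is a multiple of `β`
      have h0 : X.NS 0 := by
        refine ⟨?_, ?_, ?_⟩
        · rw [map_zero]; exact IsRat.zero
        · rw [map_zero, LinearMap.zero_apply]
        · rw [map_zero, LinearMap.zero_apply]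
      have h3 : zb.2.2 ≠ 0 := by
        intro h3
        exact hne (Prod.ext h1 (Prod.ext h2 h3))
      refine ⟨X.expE 0, goodS_E X hR hS h0, zb.2.2⁻¹, inv_ne_zero h3, ?_⟩
      rw [X.expE_be]
      refine Prod.ext ?_ (Prod.ext ?_ ?_)
      · simp [be, h1]
      · simp [be, h2]
      · simp [be, h3]
    · -- `zb = v + b β` with `v` isotropic
      set v := zb.2.1 with hv
      have hvv : X.q v v = 0 := by
        rw [bil_apply, h1] at hb0
        linear_combination hb0
      have hlv : X.q X.l v ≠ 0 := by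
        intro h3
        exact h2 (X.index v hnsb.1 hnsb.2.1 hnsb.2.2 h3 hvv)
      have hlvr : Rt (X.q X.l v) := X.q_rat _ _ X.l_rat hnsb.1
      set x := (X.q X.l v)⁻¹ • X.l with hx
      have hxns : X.NS x := NS.smul X hlvr.inv X.ns_l
      have hxv : X.q x v = 1 := by
        rw [hx, map_smul, LinearMap.smul_apply, smul_eq_mul, inv_mul_cancel₀ hlv]
      have hbr : Rt zb.2.2 := hb.1.2.2
      have hns1 : X.NS (zb.2.2 • x) := NS.smul X hbr hxns
      have hG1 := goodS_E X hR hS hns1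
      have e1 : (X.expE (zb.2.2 • x)).g (vv ℂ v) = zb := by
        rw [expE_g]
        refine Prod.ext ?_ (Prod.ext ?_ ?_)
        · simp [vv, h1]
        · simp [vv, hv]
        · simp [vv, hxv]
      -- the lowering operator of `v` lies in `R`
      have hα : X.NSE (al ℂ V) := by
        refine ⟨⟨Rt.one, ?_, Rt.zero⟩, ?_, ?_⟩
        · show IsRat X.b (X.i 0)
          rw [map_zero]; exact IsRat.zero
        · simp [bil_apply, al, vv]
        · simp [bil_apply, al, vv]
      have hz : X.NSE ((X.expE (zb.2.2 • x)).g (al ℂ V)) := by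
        refine ⟨hG1.good.ratg _ hα.1, ?_, ?_⟩
        · rw [← hG1.good.s, Intw.sim, hα.2.1, mul_zero]
        · rw [← hG1.good.s', Intw.sim, hα.2.2, mul_zero]
      have hz0 : bil X.q zb ((X.expE (zb.2.2 • x)).g (al ℂ V)) = 0 := by
        have h5 : bil X.q ((X.expE (zb.2.2 • x)).g (vv ℂ v))
            ((X.expE (zb.2.2 • x)).g (al ℂ V)) = 0 := by
          rw [Intw.sim]
          simp [bil_apply, al, vv]
        rw [e1] at h5
        exact h5
      have hW := hK _ hz hz0
      have hW2 : X.rho (W X.q ((X.expE (zb.2.2 • x)).g (vv ℂ v))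
          ((X.expE (zb.2.2 • x)).g (al ℂ V))) ∈ R := by
        rw [e1]
        exact hW
      have hW' : X.rho (W X.q (vv ℂ v) (al ℂ V)) ∈ R := hG1.good.conj_mem X hW2
      have hF : ∀ c : ℂ, Rt c → X.rho (F X.q (c • v)) ∈ R := by
        intro c hc
        rw [X.F_smul, ← W_F X.q, W_swap, smul_neg, map_smul, map_neg, map_smul]
        exact hR.smul hc (R.neg_mem (hR.smul Rt.two hW'))
      have hns2 : X.NS ((2 : ℂ)⁻¹ • v) := NS.smul X Rt.two.inv hnsb
      have hns3 : X.NS (-(1 : ℂ) • x) := NS.smul X Rt.one.neg hxns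
      refine ⟨((X.expF ((2 : ℂ)⁻¹ • v)).trans (X.expE (-(1 : ℂ) • x))).trans
        (X.expE (zb.2.2 • x)), ((goodS_F X hR hS hns2 (hF _ Rt.two.inv)).trans hS
        (goodS_E X hR hS hns3)).trans hS hG1, 1, one_ne_zero, ?_⟩
      show (X.expE (zb.2.2 • x)).g ((X.expE (-(1 : ℂ) • x)).g
        ((X.expF ((2 : ℂ)⁻¹ • v)).g (be ℂ V))) = _
      have e2 : (X.expE (-(1 : ℂ) • x)).g ((X.expF ((2 : ℂ)⁻¹ • v)).g (be ℂ V)) =
          vv ℂ v := by
        rw [expF_g, expE_g]
        refine Prod.ext ?_ (Prod.ext ?_ ?_)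
        · simp [be, vv, hvv]
        · simp [be, vv, hvv]
        · simp [be, vv, hvv, hxv]
      rw [e2, e1, one_smul]
  · -- `zb` has a nonzero first coordinate: the ring contains all lowering operators
    have hns1 : X.NS (zb.1⁻¹ • zb.2.1) := NS.smul X hb.1.1.inv hnsb
    have hG1 := X.good_E' hR hns1
    have e1 : (X.expE (zb.1⁻¹ • zb.2.1)).g (al ℂ V) = zb.1⁻¹ • zb := X.iso_eq hb0 h1
    have hl : X.rho (F X.q X.l) ∈ R := by
      have hv : X.NSE (vv ℂ X.l) := by
        refine ⟨⟨Rt.zero, X.l_rat, Rt.zero⟩, ?_, ?_⟩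
        · simp [bil_apply, vv, X.l_s]
        · simp [bil_apply, vv, X.l_s']
      have hz : X.NSE ((X.expE (zb.1⁻¹ • zb.2.1)).g (vv ℂ X.l)) := by
        refine ⟨hG1.ratg _ hv.1, ?_, ?_⟩
        · rw [← hG1.s, Intw.sim, hv.2.1, mul_zero]
        · rw [← hG1.s', Intw.sim, hv.2.2, mul_zero]
      have e1' : zb = zb.1 • (X.expE (zb.1⁻¹ • zb.2.1)).g (al ℂ V) := by
        rw [e1, smul_smul, mul_inv_cancel₀ h1, one_smul]
      have hz0 : bil X.q zb ((X.expE (zb.1⁻¹ • zb.2.1)).g (vv ℂ X.l)) = 0 := by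
        have h5 : bil X.q ((X.expE (zb.1⁻¹ • zb.2.1)).g (al ℂ V))
            ((X.expE (zb.1⁻¹ • zb.2.1)).g (vv ℂ X.l)) = 0 := by
          rw [Intw.sim]
          simp [bil_apply, al, vv]
        rw [e1, map_smul, LinearMap.smul_apply, smul_eq_mul] at h5
        exact (mul_eq_zero.1 h5).resolve_left (inv_ne_zero h1)
      have hW := hK _ hz hz0
      have hW2 : X.rho (W X.q ((X.expE (zb.1⁻¹ • zb.2.1)).g (al ℂ V))
          ((X.expE (zb.1⁻¹ • zb.2.1)).g (vv ℂ X.l))) ∈ R := by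
        conv =>
          arg 2
          rw [e1]
        rw [W_smul_left, map_smul]
        exact hR.smul hb.1.1.inv hW
      have hW' : X.rho (W X.q (al ℂ V) (vv ℂ X.l)) ∈ R := hG1.conj_mem X hW2
      rw [← W_F X.q, map_smul]
      exact hR.smul Rt.two hW'
    exact move_twoS X hR hS hl hb hb0 hne

/-- moving the pair of lines of `α`, `β` -/
theorem moveS (hR : X.DivRing R) (hS : ExpSet X R S) {za zb : ℂ × V × ℂ}
    (ha : X.NSE za) (hb : X.NSE zb) (ha0 : bil X.q za za = 0) (hb0 : bil X.q zb zb = 0)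
    (hab : bil X.q za zb ≠ 0)
    (hK : ∀ z, X.NSE z → bil X.q zb z = 0 → X.rho (W X.q zb z) ∈ R) :
    ∃ P : Intw X X, GoodS X R S P ∧ (∃ c : ℂ, c ≠ 0 ∧ P.g (al ℂ V) = c • za) ∧
      ∃ d : ℂ, d ≠ 0 ∧ P.g (be ℂ V) = d • zb := by
  have hne : zb ≠ 0 := by
    rintro rfl
    rw [map_zero] at hab
    exact hab rfl
  obtain ⟨P, hP, d, hd, hPd⟩ := move_betaS X hR hS hb hb0 hne hK
  set z := P.g.symm za with hz
  have hPz : P.g z = za := P.g.apply_symm_apply za
  have h1 : z.1 ≠ 0 := by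
    intro h1
    have h2 := P.sim z (be ℂ V)
    rw [hPz, hPd, map_smul, smul_eq_mul, bil_apply X.q z, h1] at h2
    simp only [be, map_zero] at h2
    have h3 : d * bil X.q za zb = 0 := by linear_combination h2
    exact mul_ne_zero hd hab h3
  have hzN : X.NSE z := by
    refine ⟨hP.good.ratg' _ ha.1, ?_, ?_⟩
    · have h2 := P.sim z (vv ℂ X.s)
      rw [hPz, hP.good.s, ha.2.1, hP.good.lam, one_mul] at h2
      exact h2.symm
    · have h2 := P.sim z (vv ℂ X.s')
      rw [hPz, hP.good.s', ha.2.2, hP.good.lam, one_mul] at h2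
      exact h2.symm
  have hz0 : bil X.q z z = 0 := by
    have h2 := P.sim z z
    rw [hPz, ha0, hP.good.lam, one_mul] at h2
    exact h2.symm
  have hns : X.NS (z.1⁻¹ • z.2.1) := NS.smul X hzN.1.1.inv (NSE.ns X hzN)
  refine ⟨(X.expE (z.1⁻¹ • z.2.1)).trans P, (goodS_E X hR hS hns).trans hS hP,
    ⟨z.1⁻¹, inv_ne_zero h1, ?_⟩, d, hd, ?_⟩
  · show P.g ((X.expE (z.1⁻¹ • z.2.1)).g (al ℂ V)) = _
    rw [X.iso_eq hz0 h1, map_smul, hPz]
  · show P.g ((X.expE (z.1⁻¹ • z.2.1)).g (be ℂ V)) = _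
    rw [X.expE_be, hPd]

variable {X} {Y : Coh n B U}

/-- **The refined main theorem.** As `DerEq.free`, with `T` in the given set `S`. -/
theorem freeS (D : DerEq X Y) (hR : X.DivRing R) (hS : ExpSet X R S)
    (hR' : ∀ y, Y.NS y → cj D.Φ.symm (LinearMap.mulLeft ℂ (Y.i y)) ∈ R) :
    ∃ (G : A ≃ₐ[ℂ] B) (c : ℂ) (T T' : Module.End ℂ A), c ≠ 0 ∧ Rt c ∧ T ∈ S ∧
      T * T' = 1 ∧ T' * T = 1 ∧ (∀ x, c • G x = D.Φ (T x)) ∧
      (∀ k x, x ∈ grade X.b X.d k ↔ G x ∈ grade Y.b Y.d k) ∧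
      (∀ x, IsRat X.b x ↔ IsRat Y.b (G x)) ∧ (∀ x, G (X.eta x) = Y.eta (G x)) ∧
      ((∀ x y, Y.mukai (D.Φ x) (D.Φ y) = X.mukai x y) →
        ∀ x, Y.int (G x) = (c ^ 2)⁻¹ * X.int x) := by
  obtain ⟨P, hP, hs, t, hs'⟩ := D.intw
  have hPe : P.u = D.Φ := LinearEquiv.ext hP
  have hPr : ∀ x, IsRat X.b x ↔ IsRat Y.b (P.u x) := by
    intro x
    rw [hP]
    exact D.rat x
  obtain ⟨za, zb, hza, hzb, ⟨ca, hca, hga⟩, ⟨cb, hcb, hgb⟩⟩ := P.lines hPr hs hs'
  have baa : bil X.q za za = 0 := by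
    have h := P.sim za za
    rw [hga, map_smul, map_smul, LinearMap.smul_apply] at h
    have h' : bil Y.q (al ℂ U) (al ℂ U) = 0 := by simp [bil_apply, al]
    rw [h', smul_zero, smul_zero] at h
    exact (mul_eq_zero.1 h.symm).resolve_left P.lam_ne
  have bbb : bil X.q zb zb = 0 := by
    have h := P.sim zb zb
    rw [hgb, map_smul, map_smul, LinearMap.smul_apply] at h
    have h' : bil Y.q (be ℂ U) (be ℂ U) = 0 := by simp [bil_apply, be]
    rw [h', smul_zero, smul_zero] at h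
    exact (mul_eq_zero.1 h.symm).resolve_left P.lam_ne
  have bab : bil X.q za zb ≠ 0 := by
    intro h0
    have h := P.sim za zb
    rw [hga, hgb, map_smul, map_smul, LinearMap.smul_apply, h0, mul_zero] at h
    have h' : bil Y.q (al ℂ U) (be ℂ U) = -1 := by simp [bil_apply, al, be]
    rw [h', smul_eq_mul, smul_eq_mul] at h
    have h2 : ca * cb = 0 := by linear_combination -h
    exact mul_ne_zero hca hcb h2
  rw [← hPe] at hR'
  obtain ⟨Q, hQ, ⟨c1, hc1, hQa⟩, ⟨c2, hc2, hQb⟩⟩ := moveS X hR hS hza hzb baa bbb bab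
    (fun z hz h0 => P.radical hPr hs hs' hzb hgb hR' z hz h0 hcb)
  set M := Q.trans P with hM
  have hMu : ∀ x, M.u x = D.Φ (Q.u x) := fun x => hP _
  have hMa : M.g (al ℂ V) = (c1 * ca) • al ℂ U := by
    show P.g (Q.g (al ℂ V)) = _
    rw [hQa, map_smul, hga, smul_smul]
  have hMb : M.g (be ℂ V) = (c2 * cb) • be ℂ U := by
    show P.g (Q.g (be ℂ V)) = _
    rw [hQb, map_smul, hgb, smul_smul]
  obtain ⟨hH, hL⟩ := M.ring hMa hMb
  obtain ⟨c, hc, G, hG⟩ := ring_of M.u hH hL
  have hQr : ∀ x, IsRat X.b x ↔ IsRat X.b (Q.u x) := by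
    intro x
    refine ⟨hQ.good.rat x, fun h => ?_⟩
    have := hQ.good.rat' _ h
    rwa [LinearEquiv.symm_apply_apply] at this
  have hMr : ∀ x, IsRat X.b x ↔ IsRat Y.b (M.u x) := by
    intro x
    rw [hMu, ← D.rat, ← hQr]
  have hcr : Rt c := by
    have h := (hMr 1).1 X.one_rat
    rw [hG, map_one] at h
    exact Y.rt_of_one h
  have hGH : ∀ x, G (X.rho (H ℂ V) x) = Y.rho (H ℂ U) (G x) := by
    intro x
    have h := hH x
    rw [hG, hG, map_smul] at h
    exact smul_right_injective _ hc h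
  refine ⟨G, c, Q.u.toLinearMap, Q.u.symm.toLinearMap, hc, hcr, hQ.mem, ?_, ?_, ?_,
    ?_, ?_, ?_, ?_⟩
  · exact LinearMap.ext fun x => Q.u.apply_symm_apply x
  · exact LinearMap.ext fun x => Q.u.symm_apply_apply x
  · intro x
    rw [← hG, hMu]
    rfl
  · exact fun k x => grade_iff X Y G.toLinearEquiv hGH k x
  · intro x
    rw [hMr, hG]
    refine ⟨fun h => ?_, fun h => IsRat.smul hcr h⟩
    have h2 := IsRat.smul hcr.inv h
    rwa [smul_smul, inv_mul_cancel₀ hc, one_smul] at h2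
  · intro x
    have h1 : Q.u (X.eta x) = X.eta (Q.u x) := by
      have h2 := Q.eqv (vv ℂ X.s) (vv ℂ X.s')
      rw [hQ.good.s, hQ.good.s', hQ.good.lam, inv_one, one_smul] at h2
      have h3 := LinearMap.congr_fun h2 (Q.u x)
      rw [cj_apply, LinearEquiv.symm_apply_apply] at h3
      rw [X.eta_eq, LinearMap.smul_apply, LinearMap.smul_apply, map_smul, h3]
    have h4 : M.u (X.eta x) = Y.eta (M.u x) := by
      rw [hMu, hMu, h1, D.hodge]
    rw [hG, hG, map_smul] at h4
    exact smul_right_injective _ hc h4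
  · intro hmuk x
    have h1 : ∀ x y, Y.muk (M.u x) (M.u y) = X.muk x y := by
      intro x y
      rw [hMu, hMu, Y.muk_apply, hmuk, ← X.muk_apply, hQ.good.muk]
    have h2 := h1 1 x
    rw [hG, hG, map_one, map_smul, map_smul, LinearMap.smul_apply, Y.muk_eq, X.muk_eq,
      Y.dual_one, X.dual_one, one_mul, one_mul, smul_eq_mul, smul_eq_mul] at h2
    rw [← h2]
    field_simp

end Run7.h158
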