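import Pool.Agent.Run7.h158.Defs
import Pool.Agent.Run7.h158.Move
import Pool.Agent.N174.OV.Main

/-!
# Exact lifts of the cohomological isomorphism
-/

open CategoryTheory AlgebraicGeometry

namespace Run7.h158

open Pool.Agent.H914 Pool.Agent.H914.VarClass Pool.Agent.H914.VarClass.Obj Pool.Agent.W492.BB
  Pool.Agent.W550.Corr Pool.Agent.TH133 Pool.Agent.TH829.Prime Pool.Agent.TH829.Kim
  Pool.Agent.Q8.HK Pool.Agent.N174.OV Pool.Agent.Y107

set_option linter.unusedSectionVars false

variable {𝒱 : VarClass ℂ} {C : TheoryData.{0, 0, 0} 𝒱 ℚ} [hC : IsChowProj C]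
  {H : WeilTheoryData.{0, 0, 0} C ℂ} [hH : IsWeilProj H] {X Y Z W : 𝒱.Obj}

include hC hH

/-! ### Linear algebra -/

lemma cl_smul (q : ℚ) (z : C.A X) : H.cl (q • z) = (q : ℂ) • H.cl z := by
  have h := map_ratCast_smul (H.cl (X := X)).toAddMonoidHom ℚ ℂ q z
  simpa using h

lemma actH_smul (q : ℚ) (Γ : C.A (X.prod Y)) (a : H.A X) :
    H.act (H.cl (q • Γ)) a = (q : ℂ) • H.act (H.cl Γ) a := by
  rw [cl_smul]
  exact LinearMap.map_smul₂ (actB H.toTheoryData) _ _ _

lemma actH_mulCorr (D : C.A X) (a : H.A X) : H.act (H.cl (C.mulCorr D)) a = H.cl D * a := by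
  have : H.cl (C.mulCorr D) = H.mulCorr (H.cl D) := by
    rw [TheoryData.mulCorr, TheoryData.mulCorr, H.cl_push]
  rw [this, H.act_mulCorr]

/-- Correspondences inducing the same operator are homologically equivalent. -/
lemma cl_eq_of_act {Γ Δ : C.A (X.prod Y)} (h : ∀ a : H.A X, H.act (H.cl Γ) a = H.act (H.cl Δ) a) :
    H.cl Γ = H.cl Δ := by
  rw [← sub_eq_zero, ← map_sub]
  apply hom_zero_of_act H
  intro a
  rw [map_sub, TheoryData.act_sub, h a, sub_self]

/-- Linear maps agreeing on external products agree. -/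
lemma ext_of_ext {M : Type*} [AddCommGroup M] [Module ℂ M] (f g : H.A (X.prod Y) →ₗ[ℂ] M)
    (h : ∀ (a : H.A X) (b : H.A Y), f (H.ext a b) = g (H.ext a b)) : f = g := by
  apply ext_gr H
  intro i c hc
  have h1 := H.kunneth X Y i hc
  clear hc
  induction h1 using Submodule.span_induction with
  | mem x hx =>
    obtain ⟨l, a, b, -, -, rfl⟩ := hx
    exact h a b
  | zero => rw [map_zero, map_zero]
  | add x y _ _ hx hy => rw [map_add, map_add, hx, hy]
  | smul r x _ hx => rw [map_smul, map_smul, hx]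

/-- A homogeneous operator which is induced by a correspondence of mixed degrees is induced by the
component of the corresponding degree, and the other components are homologically trivial. -/
lemma act_vr {γ : C.A (X.prod Y)} {f : H.A X →ₗ[ℂ] H.A Y} {e : ℤ}
    (hγ : ∀ a, H.act (H.cl γ) a = f a) (hf : ∀ i, ∀ a ∈ H.gr X i, f a ∈ H.gr Y (i + 2 * e)) (r : ℤ)
    (a : H.A X) : H.act (H.cl (vr X Y r γ)) a = if r = e then f a else 0 := by
  obtain ⟨T, hT⟩ := exists_sum_vr γ
  have hT1 := hT (insert r T) (Finset.subset_insert _ _)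
  have key : H.actL (X := X) (Y := Y) (H.cl (vr X Y r γ)) = if r = e then f else 0 := by
    apply ext_gr H
    intro i x hx
    have h1 : f x = ∑ s ∈ insert r T, H.actL (X := X) (Y := Y) (H.cl (vr X Y s γ)) x := by
      rw [← hγ, act_sum_vr hT1]
    have h2 := congrArg (cpK (H.isInternal Y) (i + 2 * r)) h1
    rw [map_sum, Finset.sum_eq_single_of_mem r (Finset.mem_insert_self _ _)] at h2
    · have h3 : cpK (H.isInternal Y) (i + 2 * r)
          (H.actL (X := X) (Y := Y) (H.cl (vr X Y r γ)) x) =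
          H.actL (X := X) (Y := Y) (H.cl (vr X Y r γ)) x :=
        cpK_of_mem _ (actH_mem H (vr_mem r γ) hx)
      rw [h3] at h2
      rw [← h2]
      by_cases hr : r = e
      · subst hr
        rw [if_pos rfl]
        exact cpK_of_mem _ (hf i x hx)
      · rw [if_neg hr, LinearMap.zero_apply]
        exact cpK_of_ne _ (hf i x hx) (by omega)
    · intro s _ hs
      exact cpK_of_ne _ (actH_mem H (vr_mem s γ) hx) (by omega)
  have h1 := LinearMap.congr_fun key a
  rw [TheoryData.actL_apply] at h1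
  rw [h1]
  split_ifs <;> rfl

/-! ### Exponentials of correspondences -/

omit hC hH in
/-- A class on `X × X` as an element of the ring of self-correspondences. -/
def toCor (Γ : C.A (X.prod X)) : Cor C X := Γ

lemma actH_toCor (Γ : C.A (X.prod X)) (a : H.A X) :
    actH C X H (toCor Γ) a = H.act (H.cl Γ) a := rfl

lemma actH_ex (N : ℕ) (a : Cor C X) : actH C X H (ex ℚ N a) = ex ℂ N (actH C X H a) := by
  rw [Pool.Agent.Q8.HK.ex, Pool.Agent.Q8.HK.ex, map_sum]
  refine Finset.sum_congr rfl fun i _ => ?_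
  have h2 : ∀ (q : ℚ) (b : Cor C X), actH C X H (q • b) = (q : ℂ) • actH C X H b := by
    intro q b
    refine LinearMap.ext fun x => ?_
    rw [LinearMap.smul_apply, actH_apply, actH_apply]
    exact actH_smul q (b : C.A (X.prod X)) x
  rw [h2, map_pow]
  congr 1
  push_cast
  rfl

omit hC hH in
/-- The operators induced by the units of the ring of self-correspondences (of all degrees). -/
def unitOps (H : WeilTheoryData.{0, 0, 0} C ℂ) (X : 𝒱.Obj) : Set (Module.End ℂ (H.A X)) :=
  {T | ∃ g g' : C.A (X.prod X), C.comp g g' = dg C X ∧ C.comp g' g = dg C X ∧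
    ∀ a, H.act (H.cl g) a = T a}

lemma unitOps_of_cor {a b : Cor C X} (h1 : a * b = 1) (h2 : b * a = 1) :
    actH C X H a ∈ unitOps H X :=
  ⟨a, b, h2, h1, fun _ => rfl⟩

lemma ex_mem_unitOps {N : ℕ} {a : Cor C X} (ha : a ^ N = 0) :
    ex ℂ N (actH C X H a) ∈ unitOps H X := by
  have h1 : ex ℚ N a * ex ℚ N (-a) = 1 := ex_mul_neg ha
  have h2 : ex ℚ N (-a) * ex ℚ N a = 1 := ex_neg_mul ha
  rw [← actH_ex]
  exact unitOps_of_cor h1 h2

section HK

variable {n : ℕ} {V U : Type} [AddCommGroup V] [Module ℂ V] [AddCommGroup U] [Module ℂ U]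
  (hX : HyperKahler H n X V) (hY : HyperKahler H n Y U)

/-- The operators induced by correspondences form a ring as in the main theorem. -/
lemma divRing : hX.toCoh.DivRing (actH C X H).range where
  scalar q := ⟨q • 1, by
    refine LinearMap.ext fun x => ?_
    rw [LinearMap.smul_apply, Module.End.one_apply, actH_apply]
    have h := actH_smul (H := H) q (dg C X) x
    rw [actH_dg] at h
    exact h⟩
  mul x hx := by
    obtain ⟨D, -, hD⟩ := hX.lefschetz x hx
    refine ⟨toCor (C.mulCorr D), ?_⟩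
    refine LinearMap.ext fun a => ?_
    rw [actH_toCor, LinearMap.mulLeft_apply, ← hD]
    exact actH_mulCorr D a

/-- Homogeneous classes in terms of `grade`. -/
lemma degOp_mem {e : ℤ} {f : Module.End ℂ (H.A X)} (hf : hX.toCoh.DegOp (2 * e) f) (i : ℤ)
    {a : H.A X} (ha : a ∈ H.gr X i) : f a ∈ H.gr X (i + 2 * e) := by
  by_cases ha0 : a = 0
  · subst ha0
    rw [map_zero]
    exact Submodule.zero_mem _
  obtain ⟨k, rfl⟩ := Int.eq_ofNat_of_zero_le (nonneg_of_mem H ha ha0)
  have hk : a ∈ grade hX.b hX.d k := (hX.grade_iff k a).2 ha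
  have key : ∀ j, ((hX.d j : ℤ) ≠ k + 2 * e) → hX.b.repr (f a) j = 0 := by
    intro j hj
    rw [hX.toCoh.expand]
    refine Finset.sum_eq_zero fun l _ => ?_
    by_cases h1 : hX.d l = k
    · rw [hf j l (by rw [h1]; exact hj), mul_zero]
    · rw [hk l h1, zero_mul]
  by_cases hneg : (k : ℤ) + 2 * e < 0
  · have h2 : f a = 0 := by
      rw [← hX.b.repr.map_eq_zero_iff]
      refine Finsupp.ext fun j => ?_
      rw [Finsupp.zero_apply]
      exact key j (by omega)
    rw [h2]
    exact Submodule.zero_mem _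
  · obtain ⟨m, hm⟩ := Int.eq_ofNat_of_zero_le (not_lt.1 hneg)
    change f a ∈ H.gr X ((k : ℤ) + 2 * e)
    rw [hm]
    refine (hX.grade_iff m _).1 fun j hj => key j ?_
    rw [hm]
    exact_mod_cast hj

omit hH in
lemma crg_pow_zero {a : Cor C X} {e : ℤ} (ha : a ∈ crg C X e) (he : e = 1 ∨ e = -1) :
    a ^ (X.dim + 1) = 0 := by
  have h := crg_pow ha (X.dim + 1)
  rcases he with rfl | rfl
  · exact crg_top h (by push_cast; omega)
  · exact crg_bot h (by push_cast; omega)

lemma expSet : ExpSet hX.toCoh (actH C X H).range (unitOps H X) where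
  mul := by
    rintro f g ⟨a, a', h1, h2, h5⟩ ⟨b, b', h3, h4, h6⟩
    refine ⟨C.comp b a, C.comp a' b', ?_, ?_, fun x => ?_⟩
    · rw [comp_assoc, ← comp_assoc C a, h1, dg_comp, h3]
    · rw [comp_assoc, ← comp_assoc C b', h4, dg_comp, h2]
    · rw [actH_comp, h6, h5, Module.End.mul_apply]
  inv := by
    rintro f g ⟨a, a', h1, h2, h5⟩ h3 h4
    refine ⟨a', a, h2, h1, fun x => ?_⟩
    have h6 : x = f (g x) := by
      rw [← Module.End.mul_apply, h3, Module.End.one_apply]
    conv_lhs => rw [h6, ← h5]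
    rw [← actH_comp, h1, actH_dg]
  expE x hx := by
    obtain ⟨D, hD1, hD⟩ := hX.lefschetz x hx
    have h1 : actH C X H (toCor (C.mulCorr D)) = hX.rho (E hX.q x) := by
      refine LinearMap.ext fun a => ?_
      rw [hX.rho_E, actH_toCor, ← hD]
      exact actH_mulCorr D a
    have hm : toCor (C.mulCorr D) ∈ crg C X 1 := by
      have h := C.push_mem (Obj.lift (𝟙 X) (𝟙 X)) hD1
      have e1 : (1 : ℤ) + 1 * (((X.prod X).dim : ℤ) - (X.dim : ℤ)) = X.dim + 1 := by
        rw [dim_prod]; push_cast; ring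
      rw [e1] at h
      exact h
    have hp : toCor (C.mulCorr D) ^ (2 * n + 1) = 0 := by
      have := crg_pow_zero hm (Or.inl rfl)
      rwa [hX.dim_eq] at this
    have h2 := ex_mem_unitOps (H := H) hp
    rw [h1] at h2
    exact h2
  expF x hx hF := by
    obtain ⟨γ, hγ⟩ := hF
    have hdeg := hX.toCoh.degF x
    have h1 : ∀ a, H.act (H.cl (X := X.prod X) (vr X X (-1) γ)) a = hX.rho (F hX.q x) a := by
      intro a
      have h := act_vr (H := H) (γ := (γ : C.A (X.prod X))) (f := hX.rho (F hX.q x)) (e := -1)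
        (fun a => by rw [← hγ]; rfl)
        (fun i a ha => degOp_mem hX (e := -1) (by norm_num; exact hdeg) i ha) (-1) a
      rwa [if_pos rfl] at h
    have h1' : actH C X H (toCor (vr X X (-1) γ)) = hX.rho (F hX.q x) := LinearMap.ext h1
    have hm : toCor (vr X X (-1) γ) ∈ crg C X (-1) := vr_mem (-1) (γ : C.A (X.prod X))
    have hp : toCor (vr X X (-1) γ) ^ (2 * n + 1) = 0 := by
      have := crg_pow_zero hm (Or.inr rfl)
      rwa [hX.dim_eq] at this
    have h2 := ex_mem_unitOps (H := H) hp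
    rw [h1'] at h2
    exact h2

variable {hX hY}

/-- The isomorphism of the cohomology as a derived equivalence in the sense of `DerEq`. -/
noncomputable def DerivedEquivalence.toDerEq (D : DerivedEquivalence hX hY) :
    DerEq hX.toCoh hY.toCoh where
  Φ := LinearEquiv.ofLinearMap (H.actL (H.cl D.v)) (H.actL (H.cl D.w))
    (LinearMap.ext fun y => by
      rw [LinearMap.comp_apply, TheoryData.actL_apply, TheoryData.actL_apply, ← actH_comp, D.right,
        actH_dg, LinearMap.id_apply])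
    (LinearMap.ext fun y => by
      rw [LinearMap.comp_apply, TheoryData.actL_apply, TheoryData.actL_apply, ← actH_comp, D.left,
        actH_dg, LinearMap.id_apply])
  rat := D.rat
  hodge := D.hodge
  poly := D.poly

/-- **Exact lifts.** For derived equivalent hyper-Kähler varieties there are an isomorphism `G` of
graded rings from `H^*(X)` to `H^*(Y)`, which is rational and respects the Hodge structures and,
up to a rational square, the integrals, and classes `s` and `s'` of mixed degrees, which are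
inverse to each other in the Chow groups and such that `s` induces `G`. -/
theorem core (D : DerivedEquivalence hX hY) :
    ∃ (G : H.A X ≃ₐ[ℂ] H.A Y) (c : ℚ) (s : C.A (X.prod Y)) (s' : C.A (Y.prod X)), c ≠ 0 ∧
      C.comp s s' = dg C X ∧ C.comp s' s = dg C Y ∧ (∀ x, H.act (H.cl s) x = G x) ∧
      (∀ (k : ℕ) (x : H.A X), H.Deg k x ↔ H.Deg k (G x)) ∧
      (∀ x, IsRat hX.b x ↔ IsRat hY.b (G x)) ∧ (∀ x, G (hX.eta x) = hY.eta (G x)) ∧
      ∀ x, H.tr Y (G x) = ((c ^ 2 : ℚ) : ℂ) * H.tr X x := by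
  have hPhi : ∀ x, D.toDerEq.Φ x = H.act (H.cl D.v) x := fun x => rfl
  have hPhi' : ∀ x, D.toDerEq.Φ.symm x = H.act (H.cl D.w) x := fun x => rfl
  obtain ⟨G, c, T, T', hc, ⟨q, hq⟩, ⟨g, g', e1, e2, hg⟩, hT, hT', hG, hgr, hrat, hH, hm⟩ :=
    freeS D.toDerEq (divRing hX) (expSet hX) (fun y hy => by
      obtain ⟨D', -, hD'⟩ := hY.lefschetz y hy
      refine ⟨toCor (C.comp (C.comp D.v (C.mulCorr D')) D.w), ?_⟩
      refine LinearMap.ext fun a => ?_
      rw [actH_toCor, actH_comp, actH_comp, actH_mulCorr, hD', cj_apply, ← hPhi']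
      rfl)
  have hq0 : q ≠ 0 := by
    rintro rfl
    apply hc
    rw [hq]
    simp
  have hqc : (q : ℂ) ≠ 0 := by exact_mod_cast hq0
  have hs1 : ∀ (a : ℚ) (Γ : C.A (X.prod Y)) (Δ : C.A (Y.prod X)), C.comp (a • Γ) Δ =
      a • C.comp Γ Δ := fun a Γ Δ => LinearMap.map_smul₂ (compL C) a Γ Δ
  have hs2 : ∀ (a : ℚ) (Γ : C.A (X.prod Y)) (Δ : C.A (Y.prod X)), C.comp Γ (a • Δ) =
      a • C.comp Γ Δ := fun a Γ Δ => map_smul (compL C Γ) a Δ
  have hs3 : ∀ (a : ℚ) (Γ : C.A (Y.prod X)) (Δ : C.A (X.prod Y)), C.comp (a • Γ) Δ =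
      a • C.comp Γ Δ := fun a Γ Δ => LinearMap.map_smul₂ (compL C) a Γ Δ
  have hs4 : ∀ (a : ℚ) (Γ : C.A (Y.prod X)) (Δ : C.A (X.prod Y)), C.comp Γ (a • Δ) =
      a • C.comp Γ Δ := fun a Γ Δ => map_smul (compL C Γ) a Δ
  refine ⟨G, q⁻¹, q⁻¹ • C.comp g D.v, q • C.comp D.w g', inv_ne_zero hq0, ?_, ?_, ?_, ?_, hrat,
    hH, ?_⟩
  · rw [hs1, hs2, smul_smul, inv_mul_cancel₀ hq0, one_smul, comp_assoc C g, ← comp_assoc C D.v,
      D.left, dg_comp, e1]
  · rw [hs3, hs4, smul_smul, mul_inv_cancel₀ hq0, one_smul, comp_assoc C D.w, ← comp_assoc C g',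
      e2, dg_comp, D.right]
  · intro x
    rw [actH_smul, actH_comp, ← hPhi, hg]
    have h3 := hG x
    rw [hq] at h3
    rw [← h3, smul_smul]
    push_cast
    rw [inv_mul_cancel₀ hqc, one_smul]
  · intro k x
    have h3 := hgr k x
    rw [hX.grade_iff, hY.grade_iff] at h3
    exact h3
  · intro x
    rw [← hX.int_eq, ← hY.int_eq, hm D.isometry, hq]
    push_cast
    rw [inv_pow]

end HK

end Run7.h158
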