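import Pool.Agent.TH829.Kim.Defs
import Pool.Agent.TH133.Ext
import Pool.Agent.Q8.HK.Stm
import Pool.Agent.Q8.HK.Unip

/-!
# Derived equivalent hyper-Kähler varieties and their Chow groups: definitions
-/

open CategoryTheory AlgebraicGeometry

namespace Run7.h158

open Pool.Agent.H914 Pool.Agent.H914.VarClass Pool.Agent.H914.VarClass.Obj Pool.Agent.W492.BB
  Pool.Agent.W550.Corr Pool.Agent.TH133 Pool.Agent.TH829.Prime Pool.Agent.TH829.Kim
  Pool.Agent.Q8.HK

variable {𝒱 : VarClass ℂ} {C : TheoryData.{0, 0, 0} 𝒱 ℚ}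

/-- The class of the small diagonal `{(x, x, x)}` of `X × X × X`, as a correspondence from `X × X`
to `X`. -/
noncomputable def smallDiag (C : TheoryData.{0, 0, 0} 𝒱 ℚ) (X : 𝒱.Obj) :
    C.A ((X.prod X).prod X) :=
  C.push (Obj.lift (diag X) (𝟙 X)) 1

/-- The correspondence `Z` from `X` to `Y` respects the cup-product:
`[Z] ∘ [δ_X] = [δ_Y] ∘ ([Z] ⊗ [Z])` in the Chow group of `(X × X) × Y`. (The composition
`C.comp Γ Δ` is `Δ ∘ Γ`.) -/
def RespectsCup (C : TheoryData.{0, 0, 0} 𝒱 ℚ) {X Y : 𝒱.Obj} (Z : C.A (X.prod Y)) : Prop :=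
  C.comp (smallDiag C X) Z = C.comp (tens C Z Z) (smallDiag C Y)

/-- The correspondences `Z` from `X` to `Y` and `Z'` from `Y` to `X`, of degree zero, are inverse to
each other. -/
structure IsChowInverse (C : TheoryData.{0, 0, 0} 𝒱 ℚ) {X Y : 𝒱.Obj} (Z : C.A (X.prod Y))
    (Z' : C.A (Y.prod X)) : Prop where
  deg : C.Deg X.dim Z
  deg' : C.Deg Y.dim Z'
  left : C.comp Z Z' = dg C X
  right : C.comp Z' Z = dg C Y

/-- There is an isomorphism of Chow motives `(h(X), ∪) ≃ (h(Y), ∪)` respecting the cup-product: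
classes `[Z]` in `CH^(dim X)(X × Y)` and `[Z']` in `CH^(dim Y)(Y × X)`, inverse to each other,
which respect the cup-product. -/
def MultiplicativeIso (C : TheoryData.{0, 0, 0} 𝒱 ℚ) (X Y : 𝒱.Obj) : Prop :=
  ∃ (Z : C.A (X.prod Y)) (Z' : C.A (Y.prod X)), IsChowInverse C Z Z' ∧ RespectsCup C Z

/-- The hyper-Kähler variety `X` of dimension `2n` over `ℂ`: the known theorems on the cohomology
`H^*(X, ℂ)` which are collected in the structure `Coh` (with `V = H²(X, ℂ)`, the
Beauville-Bogomolov-Fujiki form, the representation of the Looijenga-Lunts-Verbitsky Lie algebra,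
the class of a symplectic form, an ample class), for the cohomology theory `H`. The cycle classes
are rational and, by the theorem of Lefschetz, the rational classes of type `(1,1)` are classes of
divisors. -/
structure HyperKahler (H : WeilTheoryData.{0, 0, 0} C ℂ) (n : ℕ) (X : 𝒱.Obj) (V : Type)
    [AddCommGroup V] [Module ℂ V] extends Coh n (H.A X) V where
  dim_eq : X.dim = 2 * n
  grade_iff : ∀ (k : ℕ) (x : H.A X), x ∈ grade b d k ↔ H.Deg k x
  int_eq : ∀ x : H.A X, int x = H.tr X x
  cl_rat : ∀ z : C.A X, IsRat b (H.cl z)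
  lefschetz : ∀ x : V, toCoh.NS x → ∃ D : C.A X, C.Deg 1 D ∧ H.cl D = i x

/-- An equivalence of the derived categories of the hyper-Kähler varieties `X` and `Y`: the Mukai
vectors `v = ch(E) √td(X × Y)` and `w` of the kernels of the equivalence and of its inverse, as
classes of mixed degrees in the Chow groups with rational coefficients, are inverse to each other
for the composition of correspondences (Mukai, Orlov). The isomorphism `Φ = [v]_*` of the
cohomology preserves the rational classes, commutes with the Hodge operators (which act on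
`H^(p,q)` as `p - q`), conjugates the contractions with polyvector fields to such contractions
(Calaque, Rossi, Van den Bergh) and is an isometry for the Mukai pairings (Caldararu). -/
structure DerivedEquivalence {H : WeilTheoryData.{0, 0, 0} C ℂ} {n : ℕ} {X Y : 𝒱.Obj}
    {V U : Type} [AddCommGroup V] [Module ℂ V] [AddCommGroup U] [Module ℂ U]
    (hX : HyperKahler H n X V) (hY : HyperKahler H n Y U) where
  /-- the Mukai vector of the kernel of the equivalence -/
  v : C.A (X.prod Y)
  /-- the Mukai vector of the kernel of the inverse -/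
  w : C.A (Y.prod X)
  left : C.comp v w = dg C X
  right : C.comp w v = dg C Y
  rat : ∀ x, IsRat hX.b x ↔ IsRat hY.b (H.act (H.cl v) x)
  hodge : ∀ x, H.act (H.cl v) (hX.eta x) = hY.eta (H.act (H.cl v) x)
  poly : ∀ y, ∃ y', ∀ x, H.act (H.cl v) (hX.poly y x) = hY.poly y' (H.act (H.cl v) x)
  isometry : ∀ x y, hY.mukai (H.act (H.cl v) x) (H.act (H.cl v) y) = hX.mukai x y

end Run7.h158
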