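import Pool.Agent.Run7.h158.Filt

/-!
# The filtration of the Chow groups by the powers of the homologically trivial cycles
-/

open CategoryTheory AlgebraicGeometry

namespace Run7.h158

open Pool.Agent.H914 Pool.Agent.H914.VarClass Pool.Agent.H914.VarClass.Obj Pool.Agent.W492.BB
  Pool.Agent.W550.Corr Pool.Agent.TH133 Pool.Agent.TH829.Prime Pool.Agent.TH829.Kim
  Pool.Agent.Q8.HK Pool.Agent.N174.OV Pool.Agent.Y107

set_option linter.unusedSectionVars false

variable {𝒱 : VarClass ℂ} {C : TheoryData.{0, 0, 0} 𝒱 ℚ}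

/-- `HomPow H m X i x`: the class `x` in `CH^i(X)` is obtained from cycle classes by means of
products, pull-backs, push-forwards and linear combinations in such a way that every summand
involves at least `m` factors which are homologically trivial. -/
inductive HomPow (H : WeilTheoryData.{0, 0, 0} C ℂ) : ℕ → (X : 𝒱.Obj) → ℕ → C.A X → Prop
  | all (X : 𝒱.Obj) (i : ℕ) (x : C.A X) (hx : C.Deg i x) : HomPow H 0 X i x
  | hom (X : 𝒱.Obj) (i : ℕ) (x : C.A X) (hx : C.Deg i x) (h : H.cl x = 0) : HomPow H 1 X i x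
  | mul (X : 𝒱.Obj) (i j m n : ℕ) (x y : C.A X) (hx : HomPow H m X i x) (hy : HomPow H n X j y) :
      HomPow H (m + n) X (i + j) (C.mul x y)
  | pull (X Y : 𝒱.Obj) (f : X ⟶ Y) (i m : ℕ) (y : C.A Y) (hy : HomPow H m Y i y) :
      HomPow H m X i (C.up f y)
  | push (X Y : 𝒱.Obj) (f : X ⟶ Y) (i j m : ℕ) (x : C.A X) (h : i + Y.dim = j + X.dim)
      (hx : HomPow H m X i x) : HomPow H m Y j (C.down f x)
  | zero (X : 𝒱.Obj) (i m : ℕ) : HomPow H m X i 0
  | add (X : 𝒱.Obj) (i m : ℕ) (x y : C.A X) (hx : HomPow H m X i x) (hy : HomPow H m X i y) :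
      HomPow H m X i (x + y)
  | smul (X : 𝒱.Obj) (i m : ℕ) (q : ℚ) (x : C.A X) (hx : HomPow H m X i x) :
      HomPow H m X i (q • x)
  | anti (X : 𝒱.Obj) (i m : ℕ) (x : C.A X) (hx : HomPow H (m + 1) X i x) : HomPow H m X i x

variable [hC : IsChowProj C] {H : WeilTheoryData.{0, 0, 0} C ℂ} [hH : IsWeilProj H]
  {X Y Z W : 𝒱.Obj}

include hC

omit hH in
theorem HomPow.deg {m : ℕ} {X : 𝒱.Obj} {i : ℕ} {x : C.A X} (h : HomPow H m X i x) :
    C.Deg i x := by
  induction h with
  | all X i x hx => exact hx
  | hom X i x hx _ => exact hx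
  | mul X i j m n x y _ _ h1 h2 =>
    have := C.mul_mem h1 h2
    rwa [← Nat.cast_add] at this
  | pull X Y f i m y _ h1 => exact C.pull_mem f h1
  | push X Y f i j m x h _ h1 =>
    have h2 := C.push_mem f h1
    rwa [show (i : ℤ) + 1 * ((Y.dim : ℤ) - X.dim) = (j : ℤ) by
      have : ((i + Y.dim : ℕ) : ℤ) = ((j + X.dim : ℕ) : ℤ) := by rw [h]
      push_cast at this
      linarith] at h2
  | zero X i m => exact Submodule.zero_mem _
  | add X i m x y _ _ h1 h2 => exact Submodule.add_mem _ h1 h2
  | smul X i m q x _ h1 => exact Submodule.smul_mem _ _ h1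
  | anti X i m x _ h1 => exact h1

include hH

theorem HomPow.cl_eq_zero {m : ℕ} {X : 𝒱.Obj} {i : ℕ} {x : C.A X} (h : HomPow H m X i x) :
    1 ≤ m → H.cl x = 0 := by
  induction h with
  | all X i x hx => intro h; omega
  | hom X i x hx h0 => exact fun _ => h0
  | mul X i j m n x y _ _ h1 h2 =>
    intro h
    rcases Nat.eq_zero_or_pos m with hm | hm
    · have : H.cl y = 0 := h2 (by omega)
      change H.cl (x * y) = 0
      rw [map_mul, this, mul_zero]
    · have : H.cl x = 0 := h1 hm
      change H.cl (x * y) = 0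
      rw [map_mul, this, zero_mul]
  | pull X Y f i m y _ h1 =>
    intro h
    change H.cl (C.pull f y) = 0
    rw [H.cl_pull, h1 h, map_zero]
  | push X Y f i j m x _ _ h1 =>
    intro h
    change H.cl (C.push f x) = 0
    rw [H.cl_push, h1 h, map_zero]
  | zero X i m => exact fun _ => map_zero _
  | add X i m x y _ _ h1 h2 =>
    intro h
    rw [map_add, h1 h, h2 h, add_zero]
  | smul X i m q x _ h1 =>
    intro h
    rw [cl_smul, h1 h, smul_zero]
  | anti X i m x _ h1 => exact fun h => h1 (by omega)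

omit hH in
/-- The filtration by the powers of the homologically trivial cycles. -/
def homPowers (H : WeilTheoryData.{0, 0, 0} C ℂ) : Filtration C where
  F X i m :=
    { carrier := {x | HomPow H m X i x}
      add_mem' := fun {x y} hx hy => HomPow.add X i m x y hx hy
      zero_mem' := HomPow.zero X i m
      smul_mem' := fun q x hx => HomPow.smul X i m q x hx }
  le_gr _ _ _ _ hx := HomPow.deg hx
  anti X i m x hx := HomPow.anti X i m x hx

/-- The filtration by the powers of the homologically trivial cycles is compatible. No conjecture is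
needed. -/
theorem isCompatible_homPowers : IsCompatible H (homPowers H) where
  zero X i x := ⟨fun h => HomPow.deg h, fun h => HomPow.all X i x h⟩
  one X i x := ⟨fun h => ⟨HomPow.deg h, HomPow.cl_eq_zero h le_rfl⟩,
    fun h => HomPow.hom X i x h.1 h.2⟩
  multiplicative :=
    { mul := fun hx hy => HomPow.mul _ _ _ _ _ _ _ hx hy
      pull := fun f _ _ _ hy => HomPow.pull _ _ f _ _ _ hy
      push := fun f _ _ _ _ h hx => HomPow.push _ _ f _ _ _ _ h hx }

omit hH in
/-- It is the smallest compatible filtration. -/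
theorem homPowers_le {F : Filtration C} (hF : IsCompatible H F) {m : ℕ} {X : 𝒱.Obj} {i : ℕ}
    {x : C.A X} (hx : HomPow H m X i x) : F.Mem i m x := by
  induction hx with
  | all X i x hx => exact (hF.zero _ _ _).2 hx
  | hom X i x hx h => exact (hF.one _ _ _).2 ⟨hx, h⟩
  | mul X i j m n x y _ _ h1 h2 => exact hF.multiplicative.mul h1 h2
  | pull X Y f i m y _ h1 => exact hF.multiplicative.pull f h1
  | push X Y f i j m x h _ h1 => exact hF.multiplicative.push f h h1
  | zero X i m => exact Submodule.zero_mem _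
  | add X i m x y _ _ h1 h2 => exact Submodule.add_mem _ h1 h2
  | smul X i m q x _ h1 => exact Submodule.smul_mem _ _ h1
  | anti X i m x _ h1 => exact F.anti X i m h1

end Run7.h158
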