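import Pool.Agent.Run7.h158.Sub
import Pool.Agent.Run7.h158.HomPow

/-!
# Graded subspaces of the Chow rings without numerically trivial classes
-/

open CategoryTheory AlgebraicGeometry

namespace Run7.h158

open Pool.Agent.H914 Pool.Agent.H914.VarClass Pool.Agent.H914.VarClass.Obj Pool.Agent.W492.BB
  Pool.Agent.W550.Corr Pool.Agent.TH133 Pool.Agent.TH829.Prime Pool.Agent.TH829.Kim
  Pool.Agent.Q8.HK Pool.Agent.N174.OV Pool.Agent.Y107 Pool.Agent.N174.KN

set_option linter.unusedSectionVars false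

variable {𝒱 : VarClass ℂ} {C : TheoryData.{0, 0, 0} 𝒱 ℚ}

/-- The subspace `R` of the Chow ring of `X` is graded, and its only numerically trivial element is
zero. -/
structure IsFaithful (C : TheoryData.{0, 0, 0} 𝒱 ℚ) {X : 𝒱.Obj} (R : Submodule ℚ (C.A X)) :
    Prop where
  graded : R ≤ ⨆ i, R ⊓ C.gr X i
  faithful : ∀ x ∈ R, NumTrivial C x → x = 0

/-- The subspaces `R` and `R'` of the Chow rings of `X` and `Y` have corresponding classes under the
isomorphism `G` of the cohomology: `G (cl R) = cl R'`. -/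
structure Matches (H : WeilTheoryData.{0, 0, 0} C ℂ) {X Y : 𝒱.Obj} (G : H.A X ≃ₐ[ℂ] H.A Y)
    (R : Submodule ℚ (C.A X)) (R' : Submodule ℚ (C.A Y)) : Prop where
  fwd : ∀ x ∈ R, ∃ y ∈ R', H.cl y = G (H.cl x)
  bwd : ∀ y ∈ R', ∃ x ∈ R, H.cl y = G (H.cl x)

/-- The correspondences `Z` and `Z'` map the subspaces `R` and `R'` of the Chow rings of `X` and `Y`
to each other, are inverse to each other there, and respect the products which stay in these
subspaces. -/
structure RestrictsTo (C : TheoryData.{0, 0, 0} 𝒱 ℚ) {X Y : 𝒱.Obj} (Z : C.A (X.prod Y))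
    (Z' : C.A (Y.prod X)) (R : Submodule ℚ (C.A X)) (R' : Submodule ℚ (C.A Y)) : Prop where
  fwd : ∀ x ∈ R, C.act Z x ∈ R'
  bwd : ∀ y ∈ R', C.act Z' y ∈ R
  left : ∀ x ∈ R, C.act Z' (C.act Z x) = x
  right : ∀ y ∈ R', C.act Z (C.act Z' y) = y
  mul : ∀ x ∈ R, ∀ y ∈ R, C.mul x y ∈ R → C.mul (C.act Z x) (C.act Z y) ∈ R' →
    C.act Z (C.mul x y) = C.mul (C.act Z x) (C.act Z y)

variable [hC : IsChowProj C] {H : WeilTheoryData.{0, 0, 0} C ℂ} [hH : IsWeilProj H]
  {X Y Z W : 𝒱.Obj}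

include hC

omit hC in
/-- Components of the elements of a graded subspace. -/
lemma cmp_mem_of_graded [hC : IsChowProj C] {R : Submodule ℚ (C.A X)}
    (hR : R ≤ ⨆ i, R ⊓ C.gr X i) {a : C.A X} (ha : a ∈ R) (r : ℤ) :
    cmp (C.isInternal X) r a ∈ R := by
  refine Submodule.iSup_induction (fun i => R ⊓ C.gr X i)
    (motive := fun a => cmp (C.isInternal X) r a ∈ R) (hR ha) ?_ ?_ ?_
  · rintro i a ⟨h1, h2⟩
    by_cases h : i = r
    · subst h
      rwa [cmp_of_mem _ h2]
    · rw [cmp_of_ne _ h2 h]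
      exact Submodule.zero_mem _
  · rw [map_zero]
    exact Submodule.zero_mem _
  · intro a b h1 h2
    rw [map_add]
    exact Submodule.add_mem _ h1 h2

include hH

omit hC in
lemma eq_of_cl [hC : IsChowProj C] {R : Submodule ℚ (C.A X)} (hR : IsFaithful C R) {x y : C.A X}
    (hx : x ∈ R) (hy : y ∈ R) (h : H.cl x = H.cl y) : x = y := by
  rw [← sub_eq_zero]
  refine hR.faithful _ (Submodule.sub_mem _ hx hy) (numTrivial_of_hom (H := H) ?_)
  rw [map_sub, h, sub_self]

/-- The class of a homogeneous component. -/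
lemma cl_cmp {x : C.A X} {e : ℕ} {a : H.A X} (ha : a ∈ H.gr X (2 * e)) (h : H.cl x = a) :
    H.cl (cmp (C.isInternal X) e x) = a := by
  have h1 : ∀ x : C.A X, H.cl (cmp (C.isInternal X) (e : ℤ) x) =
      cpK (H.isInternal X) (2 * (e : ℤ)) (H.cl x) := by
    intro x
    refine hom_ind X (p := fun x => H.cl (cmp (C.isInternal X) (e : ℤ) x) =
      cpK (H.isInternal X) (2 * (e : ℤ)) (H.cl x)) ?_ ?_ x
    · intro i b hb
      by_cases hi : i = e
      · subst hi
        rw [cmp_of_mem _ hb, cpK_of_mem _ (H.cl_mem hb)]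
      · rw [cmp_of_ne _ hb hi, map_zero, cpK_of_ne _ (H.cl_mem hb) (by omega)]
    · intro a b h1 h2
      rw [map_add, map_add, map_add, map_add, h1, h2]
  rw [h1, h, cpK_of_mem _ ha]

section HK

variable {n : ℕ} {V U : Type} [AddCommGroup V] [Module ℂ V] [AddCommGroup U] [Module ℂ U]
  {hX : HyperKahler H n X V} {hY : HyperKahler H n Y U}

/-- Subspaces without homologically trivial classes are finite-dimensional. -/
lemma fg_of_faithful (hX : HyperKahler H n X V) {R : Submodule ℚ (C.A X)} (hR : IsFaithful C R) :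
    R.FG := by
  have hc : ∀ (z : C.A X) (j : Fin hX.m), ∃ r : ℚ, hX.b.repr (H.cl z) j = (r : ℂ) :=
    fun z j => hX.cl_rat z j
  choose f hf using hc
  let F : C.A X →ₗ[ℚ] (Fin hX.m → ℚ) :=
    { toFun := f
      map_add' := fun a b => by
        funext j
        have h1 : ((f (a + b) j : ℚ) : ℂ) = ((f a j + f b j : ℚ) : ℂ) := by
          rw [← hf, map_add, map_add, Finsupp.add_apply, hf, hf]
          push_cast
          rfl
        exact_mod_cast h1
      map_smul' := fun q a => by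
        funext j
        have h1 : ((f (q • a) j : ℚ) : ℂ) = ((q * f a j : ℚ) : ℂ) := by
          rw [← hf, cl_smul, map_smul, Finsupp.smul_apply, hf, smul_eq_mul]
          push_cast
          rfl
        exact_mod_cast h1 }
  have hinj : Function.Injective (F ∘ₗ R.subtype) := by
    rw [← LinearMap.ker_eq_bot, LinearMap.ker_eq_bot']
    intro x hx
    have h1 : H.cl (x : C.A X) = 0 := by
      rw [← hX.b.repr.map_eq_zero_iff]
      refine Finsupp.ext fun j => ?_
      rw [hf, Finsupp.zero_apply]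
      have h2 : f (x : C.A X) j = 0 := congrFun hx j
      rw [h2, Rat.cast_zero]
    have h2 := hR.faithful x x.2 (numTrivial_of_hom (H := H) h1)
    exact Subtype.ext h2
  have := Module.Finite.of_injective (F ∘ₗ R.subtype) hinj
  exact Module.Finite.iff_fg.1 this

/-- Corresponding finite families. -/
lemma exists_families (hX : HyperKahler H n X V) {G : H.A X ≃ₐ[ℂ] H.A Y}
    (hG : ∀ (k : ℕ) (x : H.A X), H.Deg k x ↔ H.Deg k (G x))
    {R : Submodule ℚ (C.A X)} {R' : Submodule ℚ (C.A Y)} (hR : IsFaithful C R)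
    (hR' : IsFaithful C R') (hm : Matches H G R R') :
    ∃ (m : ℕ) (e : Fin m → ℕ) (x : Fin m → C.A X) (y : Fin m → C.A Y),
      (∀ i, x i ∈ R) ∧ (∀ i, y i ∈ R') ∧ (∀ i, x i ∈ C.gr X (e i)) ∧ (∀ i, y i ∈ C.gr Y (e i)) ∧
      (∀ i, H.cl (y i) = G (H.cl (x i))) ∧ R = Submodule.span ℚ (Set.range x) := by
  have h1 : Submodule.span ℚ {a : C.A X | a ∈ R ∧ ∃ e : ℕ, a ∈ C.gr X e} = R := by
    apply le_antisymm
    · rw [Submodule.span_le]
      exact fun a ha => ha.1
    · intro a ha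
      refine Submodule.iSup_induction (fun i => R ⊓ C.gr X i)
        (motive := fun a => a ∈ Submodule.span ℚ {a : C.A X | a ∈ R ∧ ∃ e : ℕ, a ∈ C.gr X e})
        (hR.graded ha) ?_ ?_ ?_
      · rintro i a ⟨h1, h2⟩
        by_cases hi : i < 0
        · rw [C.gr_neg X i hi] at h2
          rw [(Submodule.mem_bot _).1 h2]
          exact Submodule.zero_mem _
        · obtain ⟨k, rfl⟩ := Int.eq_ofNat_of_zero_le (not_lt.1 hi)
          exact Submodule.subset_span ⟨h1, k, h2⟩
      · exact Submodule.zero_mem _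
      · intro a b h1 h2
        exact Submodule.add_mem _ h1 h2
  have h2 : (Submodule.span ℚ {a : C.A X | a ∈ R ∧ ∃ e : ℕ, a ∈ C.gr X e}).FG := by
    rw [h1]
    exact fg_of_faithful hX hR
  obtain ⟨t, ht, hspan⟩ := (Submodule.fg_span_iff_fg_span_finset_subset _).1 h2
  have h3 : ∀ i : Fin t.card, ((t.equivFin.symm i : t) : C.A X) ∈ R ∧
      ∃ e : ℕ, ((t.equivFin.symm i : t) : C.A X) ∈ C.gr X e := fun i => ht (t.equivFin.symm i).2
  choose hx1 e hx2 using h3
  have h4 : ∀ i : Fin t.card, ∃ y ∈ R', y ∈ C.gr Y (e i) ∧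
      H.cl y = G (H.cl ((t.equivFin.symm i : t) : C.A X)) := by
    intro i
    obtain ⟨y, hy, hcl⟩ := hm.fwd _ (hx1 i)
    have h5 : G (H.cl ((t.equivFin.symm i : t) : C.A X)) ∈ H.gr Y (2 * (e i : ℤ)) := by
      have h6 : H.Deg ((2 * e i : ℕ) : ℤ) (H.cl ((t.equivFin.symm i : t) : C.A X)) := by
        have := H.cl_mem (hx2 i)
        rwa [show (2 * (e i : ℤ)) = ((2 * e i : ℕ) : ℤ) by push_cast; ring] at this
      have h7 := (hG (2 * e i) _).1 h6
      rwa [show ((2 * e i : ℕ) : ℤ) = (2 * (e i : ℤ)) by push_cast; ring] at h7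
    exact ⟨cmp (C.isInternal Y) (e i) y, cmp_mem_of_graded hR'.graded hy _, cmp_mem _ _ _,
      cl_cmp h5 hcl⟩
  choose y hy1 hy2 hy3 using h4
  refine ⟨t.card, e, fun i => (t.equivFin.symm i : t), y, hx1, hy1, hx2, hy2, hy3, ?_⟩
  rw [← h1, hspan]
  congr 1
  ext a
  constructor
  · intro ha
    refine ⟨t.equivFin ⟨a, ha⟩, ?_⟩
    change ((t.equivFin.symm (t.equivFin ⟨a, ha⟩) : t) : C.A X) = a
    rw [Equiv.symm_apply_apply]
  · rintro ⟨i, rfl⟩
    exact (t.equivFin.symm i).2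

end HK

end Run7.h158
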