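import Pool.Agent.Run7.h158.Hom

/-!
# Correspondences and filtrations of the Chow groups
-/

open CategoryTheory AlgebraicGeometry

namespace Run7.h158

open Pool.Agent.H914 Pool.Agent.H914.VarClass Pool.Agent.H914.VarClass.Obj Pool.Agent.W492.BB
  Pool.Agent.W550.Corr Pool.Agent.TH133 Pool.Agent.TH829.Prime Pool.Agent.TH829.Kim
  Pool.Agent.Q8.HK Pool.Agent.N174.OV Pool.Agent.Y107

set_option linter.unusedSectionVars false

variable {𝒱 : VarClass ℂ} {C : TheoryData.{0, 0, 0} 𝒱 ℚ}

/-- The filtration `F` of the Chow groups has the properties 1 (without the last one,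
`F^(i+1) CH^i = 0`), 3 and 4 of a Bloch-Beilinson filtration: `F^0 CH^i(X) = CH^i(X)`,
`F^1 CH^i(X)` is the group of homologically trivial cycles, `F^m · F^n ⊆ F^(m+n)`, and pull-backs
and push-forwards respect `F`. -/
structure IsCompatible (H : WeilTheoryData.{0, 0, 0} C ℂ) (F : Filtration C) : Prop where
  zero : ∀ (X : 𝒱.Obj) (i : ℕ) (x : C.A X), F.Mem i 0 x ↔ C.Deg i x
  one : ∀ (X : 𝒱.Obj) (i : ℕ) (x : C.A X), F.Mem i 1 x ↔ C.Deg i x ∧ H.cl x = 0
  multiplicative : IsMultiplicative F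

/-- The subspace `F^n CH^*(X)` of the Chow ring `CH^*(X)`. -/
def total (F : Filtration C) (n : ℕ) (X : 𝒱.Obj) : Submodule ℚ (C.A X) := ⨆ i, F.F X i n

/-- The correspondence `Γ` induces, for all `T`, maps
`Gr_F^m CH^i(T × X) → Gr_F^m CH^i(T × Y)`, `[x] ↦ [(id_T × Γ)_* x]`, which together are a unital
homomorphism of bigraded rings. (Here `(id_T × Γ)_* x` is the composition `C.comp x Γ` of `Γ` and
the correspondence `x` from `T` to `X`.) -/
structure InducesGrHom (F : Filtration C) {X Y : 𝒱.Obj} (Γ : C.A (X.prod Y)) : Prop where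
  map : ∀ (T : 𝒱.Obj) (i m : ℕ) (x : C.A (T.prod X)), F.Mem i m x → F.Mem i m (C.comp x Γ)
  one : ∀ T : 𝒱.Obj, C.comp (1 : C.A (T.prod X)) Γ = 1
  mul : ∀ (T : 𝒱.Obj) (i j m n : ℕ) (x y : C.A (T.prod X)), F.Mem i m x → F.Mem j n y →
    F.Mem (i + j) (m + n + 1) (C.comp (C.mul x y) Γ - C.mul (C.comp x Γ) (C.comp y Γ))

/-- The correspondence `Γ'` is inverse to `Γ` from the left modulo the `k`-th step of the filtration:
`(id_T × Γ')_* (id_T × Γ)_* x = x` modulo `F^(m+k)` for `x` in `F^m CH^i(T × X)`. -/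
def IsGrInverse (F : Filtration C) (k : ℕ) {X Y : 𝒱.Obj} (Γ : C.A (X.prod Y))
    (Γ' : C.A (Y.prod X)) : Prop :=
  ∀ (T : 𝒱.Obj) (i m : ℕ) (x : C.A (T.prod X)), F.Mem i m x →
    F.Mem i (m + k) (C.comp (C.comp x Γ) Γ' - x)

/-- The correspondence `s` of mixed degrees maps `F^m CH^*(T × X)` to `F^m CH^*(T × Y)` and induces
the same maps as `Γ` on the associated graded rings. -/
structure SameGr (F : Filtration C) {X Y : 𝒱.Obj} (s Γ : C.A (X.prod Y)) : Prop where
  map : ∀ (T : 𝒱.Obj) (m : ℕ), ∀ x ∈ total F m (T.prod X), C.comp x s ∈ total F m (T.prod Y)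
  same : ∀ (T : 𝒱.Obj) (m : ℕ), ∀ x ∈ total F m (T.prod X),
    C.comp x s - C.comp x Γ ∈ total F (m + 1) (T.prod Y)

variable [hC : IsChowProj C] {X Y Z W : 𝒱.Obj}

section filt

variable {F : Filtration C}

include hC

lemma mem_congr {i j m : ℕ} {x : C.A X} (h : F.Mem i m x) (hij : i = j) : F.Mem j m x := by
  subst hij
  exact h

lemma fil_comp (hF : IsMultiplicative F) {i j l m n : ℕ} {a : C.A (X.prod Y)}
    {b : C.A (Y.prod Z)} (ha : F.Mem i m a) (hb : F.Mem j n b) (h : i + j = l + Y.dim) :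
    F.Mem l (m + n) (C.comp a b) := by
  have h1 := hF.mul (hF.pull (t23 X Y Z) hb) (hF.pull (fst (X.prod Y) Z) ha)
  have h2 := hF.push (j := l) (t13 X Y Z) (by rw [dim_prod, dim_prod, dim_prod]; omega) h1
  rw [add_comm m n]
  exact h2

lemma fil_tens (hF : IsMultiplicative F) {i j m n : ℕ} {a : C.A (X.prod Y)}
    {b : C.A (Z.prod W)} (ha : F.Mem i m a) (hb : F.Mem j n b) :
    F.Mem (i + j) (m + n) (tens C a b) :=
  hF.mul (hF.pull _ ha) (hF.pull _ hb)

lemma graph_mem (f : X ⟶ Y) : C.graph f ∈ C.gr (X.prod Y) Y.dim := by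
  have h := C.push_mem (Obj.lift (𝟙 X) f) (C.one_mem X)
  have e1 : (0 : ℤ) + 1 * (((X.prod Y).dim : ℤ) - (X.dim : ℤ)) = Y.dim := by
    rw [dim_prod]; push_cast; ring
  rwa [e1] at h

lemma fil_map_zero (i m : ℕ) : F.Mem i m (0 : C.A X) := Submodule.zero_mem _

lemma fil_anti {i m n : ℕ} (h : m ≤ n) {x : C.A X} (hx : F.Mem i n x) : F.Mem i m x := by
  induction n, h using Nat.le_induction with
  | base => exact hx
  | succ n _ ih => exact ih (F.anti X i n hx)

end filt

variable {H : WeilTheoryData.{0, 0, 0} C ℂ} [hH : IsWeilProj H] {F : Filtration C}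

include hC hH

/-- A homologically trivial homogeneous class of integral codimension. -/
lemma mem_one_of (hF : IsCompatible H F) {i : ℤ} {x : C.A X} (hx : x ∈ C.gr X i)
    (h : H.cl x = 0) : x = 0 ∨ ∃ k : ℕ, (k : ℤ) = i ∧ F.Mem k 1 x := by
  by_cases hi : i < 0
  · left
    rw [C.gr_neg X i hi] at hx
    exact (Submodule.mem_bot _).1 hx
  · right
    obtain ⟨k, rfl⟩ := Int.eq_ofNat_of_zero_le (not_lt.1 hi)
    exact ⟨k, rfl, (hF.one X k x).2 ⟨hx, h⟩⟩

lemma mem_zero_of (hF : IsCompatible H F) {i : ℤ} {x : C.A X} (hx : x ∈ C.gr X i) :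
    x = 0 ∨ ∃ k : ℕ, (k : ℤ) = i ∧ F.Mem k 0 x := by
  by_cases hi : i < 0
  · left
    rw [C.gr_neg X i hi] at hx
    exact (Submodule.mem_bot _).1 hx
  · right
    obtain ⟨k, rfl⟩ := Int.eq_ofNat_of_zero_le (not_lt.1 hi)
    exact ⟨k, rfl, (hF.zero X k x).2 hx⟩

/-- Composition with a homologically trivial correspondence of degree `r`. -/
lemma comp_hom_total (hF : IsCompatible H F) {r : ℤ} {T : 𝒱.Obj} {i m : ℕ} {x : C.A (T.prod X)}
    (hx : F.Mem i m x) {γ : C.A (X.prod Y)} (hγ : γ ∈ C.gr (X.prod Y) ((X.dim : ℤ) + r))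
    (h : H.cl γ = 0) : C.comp x γ ∈ total F (m + 1) (T.prod Y) := by
  rcases mem_one_of hF hγ h with h1 | ⟨k, hk, h1⟩
  · rw [h1, comp_zero]
    exact Submodule.zero_mem _
  · by_cases hneg : (i : ℤ) + r < 0
    · have h2 : C.comp x γ ∈ C.gr (T.prod Y) ((i : ℤ) + r) := by
        have h3 : x ∈ C.gr (T.prod X) ((T.dim : ℤ) + (i - T.dim)) := by
          rw [add_sub_cancel]
          exact F.le_gr _ _ _ hx
        have h4 := comp_mem C h3 hγ
        rwa [show (T.dim : ℤ) + ((i : ℤ) - T.dim + r) = i + r by ring] at h4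
      rw [C.gr_neg _ _ hneg] at h2
      rw [(Submodule.mem_bot _).1 h2]
      exact Submodule.zero_mem _
    · obtain ⟨l, hl⟩ := Int.eq_ofNat_of_zero_le (not_lt.1 hneg)
      have h2 := fil_comp hF.multiplicative (l := l) hx h1 (by omega)
      exact (le_iSup (fun i => F.F (T.prod Y) i (m + 1)) l) h2

lemma comp_total (hF : IsCompatible H F) {r : ℤ} {T : 𝒱.Obj} {i m : ℕ} {x : C.A (T.prod X)}
    (hx : F.Mem i m x) {γ : C.A (X.prod Y)} (hγ : γ ∈ C.gr (X.prod Y) ((X.dim : ℤ) + r)) :
    C.comp x γ ∈ total F m (T.prod Y) := by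
  rcases mem_zero_of hF hγ with h1 | ⟨k, hk, h1⟩
  · rw [h1, comp_zero]
    exact Submodule.zero_mem _
  · by_cases hneg : (i : ℤ) + r < 0
    · have h2 : C.comp x γ ∈ C.gr (T.prod Y) ((i : ℤ) + r) := by
        have h3 : x ∈ C.gr (T.prod X) ((T.dim : ℤ) + (i - T.dim)) := by
          rw [add_sub_cancel]
          exact F.le_gr _ _ _ hx
        have h4 := comp_mem C h3 hγ
        rwa [show (T.dim : ℤ) + ((i : ℤ) - T.dim + r) = i + r by ring] at h4
      rw [C.gr_neg _ _ hneg] at h2
      rw [(Submodule.mem_bot _).1 h2]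
      exact Submodule.zero_mem _
    · obtain ⟨l, hl⟩ := Int.eq_ofNat_of_zero_le (not_lt.1 hneg)
      have h2 := fil_comp hF.multiplicative (l := l) hx h1 (by omega)
      exact (le_iSup (fun i => F.F (T.prod Y) i m) l) h2

section lift

variable {G : H.A X ≃ₐ[ℂ] H.A Y} {c : ℚ} {s : C.A (X.prod Y)} {s' : C.A (Y.prod X)}

omit hH in
/-- The component of degree zero of a composition. -/
lemma vr_comp (a : C.A (X.prod Y)) (b : C.A (Y.prod Z)) {T T' : Finset ℤ}
    (hT : a = ∑ r ∈ T, vr X Y r a) (hT' : b = ∑ r ∈ T', vr Y Z r b) :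
    vr X Z 0 (C.comp a b) = ∑ r ∈ T, if -r ∈ T' then C.comp (vr X Y r a) (vr Y Z (-r) b) else 0 := by
  conv_lhs => rw [hT, hT']
  rw [sum_comp, map_sum]
  refine Finset.sum_congr rfl fun r _ => ?_
  rw [comp_sum, map_sum]
  have h1 : ∀ r' ∈ T', vr X Z 0 (C.comp (vr X Y r a) (vr Y Z r' b)) =
      if r' = -r then C.comp (vr X Y r a) (vr Y Z (-r) b) else 0 := by
    intro r' _
    have h2 := comp_mem C (vr_mem r a) (vr_mem r' b)
    split_ifs with h
    · subst h
      rw [add_neg_cancel] at h2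
      exact vr_of_mem h2
    · exact vr_of_ne h2 (by omega)
  rw [Finset.sum_congr rfl h1, Finset.sum_ite_eq' T' (-r)]

lemma Lift.comp_zero_sub (h : Lift H G c s s') (hF : IsCompatible H F) :
    F.Mem X.dim 2 (C.comp (vr X Y 0 s) (vr Y X 0 s') - dg C X) := by
  obtain ⟨T, hT⟩ := exists_sum_vr s
  obtain ⟨T', hT'⟩ := exists_sum_vr s'
  have hT1 := hT (insert 0 T) (Finset.subset_insert _ _)
  have hT2 := hT' (insert 0 T') (Finset.subset_insert _ _)
  have h1 := vr_comp s s' hT1 hT2
  have h2 : vr X X 0 (dg C X) = dg C X := by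
    refine vr_of_mem ?_
    rw [add_zero]
    exact dg_mem C X
  rw [h.left, h2, ← Finset.add_sum_erase _ _ (Finset.mem_insert_self 0 T), neg_zero,
    if_pos (Finset.mem_insert_self 0 T')] at h1
  rw [h1, sub_add_cancel_left]
  refine Submodule.neg_mem _ (Submodule.sum_mem _ fun r hr => ?_)
  have hr0 := (Finset.mem_erase.1 hr).1
  split_ifs with h3
  · rcases mem_one_of hF (vr_mem r s) (h.cl_vr_ne hr0) with h4 | ⟨k, hk, h4⟩
    · rw [h4, zero_comp]
      exact Submodule.zero_mem _
    · rcases mem_one_of hF (vr_mem (-r) s') (h.symm.cl_vr_ne (neg_ne_zero.2 hr0)) with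
        h5 | ⟨k', hk', h5⟩
      · rw [h5, comp_zero]
        exact Submodule.zero_mem _
      · exact fil_comp hF.multiplicative h4 h5 (by omega)
  · exact Submodule.zero_mem _

omit hH in
/-- The action of a correspondence on external products. -/
lemma ext_comp' (Γ : C.A (X.prod Y)) {T : 𝒱.Obj} (a : C.A T) (x : C.A X) :
    C.comp (C.ext a x) Γ = C.ext a (C.act Γ x) := by
  rw [comp_eq_extR, C.extR_ext]
  intro c
  exact ch_comm C _ _

/-- A correspondence of degree zero inducing a unital map on cohomology maps the fundamental class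
to the fundamental class. -/
lemma act_one_of {Z : C.A (X.prod Y)} (hZ : Z ∈ C.gr (X.prod Y) X.dim)
    (h1 : H.act (H.cl Z) 1 = 1) : C.act Z 1 = 1 := by
  have h2 := act_mem' C (e := 0) (by rw [add_zero]; exact hZ) (C.one_mem X)
  rw [add_zero] at h2
  obtain ⟨q, hq⟩ := hC.gr_zero Y _ h2
  have h3 := cl_act H Z (1 : C.A X)
  rw [map_one, h1, hq, cl_smul, map_one] at h3
  have h4 : ((q - 1 : ℚ) : ℂ) • (1 : H.A Y) = 0 := by
    push_cast
    rw [sub_smul, h3, one_smul, sub_self]
  have h5 : q = 1 := by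
    by_contra hne
    have h6 : ((q - 1 : ℚ) : ℂ) ≠ 0 := by
      have := sub_ne_zero.2 hne
      exact_mod_cast this
    rcases smul_eq_zero.1 h4 with h7 | h7
    · exact h6 h7
    · exact hH.one_ne_zero _ h7
  rw [hq, h5, one_smul]

/-- The unit is preserved. -/
lemma Induces.comp_one {Z : C.A (X.prod Y)} (hZ : Induces H G Z) (T : 𝒱.Obj) :
    C.comp (1 : C.A (T.prod X)) Z = 1 := by
  have e0 : (1 : C.A (T.prod X)) = C.ext 1 1 := by
    rw [TheoryData.ext, map_one, map_one, one_mul]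
  rw [e0, ext_comp', act_one_of hZ.deg (by rw [hZ.act, map_one]), TheoryData.ext, map_one, map_one,
    one_mul]

/-- A correspondence inducing a graded isomorphism of algebras induces homomorphisms of bigraded
rings. -/
lemma Induces.inducesGrHom {Z : C.A (X.prod Y)} (hZ : Induces H G Z) (hF : IsCompatible H F) :
    InducesGrHom F Z where
  map T i m x hx := by
    have h1 : F.Mem X.dim 0 Z := (hF.zero _ _ _).2 hZ.deg
    exact fil_comp hF.multiplicative hx h1 rfl
  one := hZ.comp_one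
  mul T i j m n x y hx hy := by
    have h0 := mul_defect Z x y
    have hW : F.Mem (2 * X.dim) 1
        (C.comp (smallDiag C X) Z - C.comp (tens C Z Z) (smallDiag C Y)) := by
      refine (hF.one _ _ _).2 ⟨?_, hZ.respectsCupHom⟩
      have hZ0 : Z ∈ C.gr (X.prod Y) ((X.dim : ℤ) + 0) := by
        rw [add_zero]
        exact hZ.deg
      have e1 : smallDiag C X ∈ C.gr ((X.prod X).prod X) (((X.prod X).dim : ℤ) + 0) := by
        have := smallDiag_mem (C := C) X
        rwa [show (2 * (X.dim : ℤ)) = ((X.prod X).dim : ℤ) + 0 by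
          rw [dim_prod]; push_cast; ring] at this
      have e2 : smallDiag C Y ∈ C.gr ((Y.prod Y).prod Y) (((Y.prod Y).dim : ℤ) + 0) := by
        have := smallDiag_mem (C := C) Y
        rwa [show (2 * (Y.dim : ℤ)) = ((Y.prod Y).dim : ℤ) + 0 by
          rw [dim_prod]; push_cast; ring] at this
      have e3 : tens C Z Z ∈ C.gr ((X.prod X).prod (Y.prod Y)) (((X.prod X).dim : ℤ) + 0) := by
        have := tens_mem C hZ.deg hZ.deg
        rwa [show (X.dim : ℤ) + X.dim = ((X.prod X).dim : ℤ) + 0 by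
          rw [dim_prod]; push_cast; ring] at this
      have h1 := comp_mem C e1 hZ0
      have h2 := comp_mem C e3 e2
      have e4 : ((X.prod X).dim : ℤ) + (0 + 0) = ((2 * X.dim : ℕ) : ℤ) := by
        rw [dim_prod]; push_cast; ring
      rw [e4] at h1 h2
      exact Submodule.sub_mem _ h1 h2
    have h1 := fil_comp hF.multiplicative (l := i + j) (fil_tens hF.multiplicative hx hy) hW
      (by rw [dim_prod]; omega)
    have h2 : F.Mem (2 * T.dim) 0 (C.graph (diag T)) := by
      refine (hF.zero _ _ _).2 ?_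
      have := graph_mem (C := C) (diag T)
      rwa [show ((T.prod T).dim : ℤ) = ((2 * T.dim : ℕ) : ℤ) by
        rw [dim_prod]; push_cast; ring] at this
    have h3 := fil_comp hF.multiplicative (l := i + j) h2 h1 (by rw [dim_prod]; omega)
    rw [← h0] at h3
    rwa [zero_add] at h3

lemma Lift.isGrInverse (h : Lift H G c s s') (hF : IsCompatible H F) :
    IsGrInverse F 2 (vr X Y 0 s) (vr Y X 0 s') := by
  intro T i m x hx
  have h1 := h.comp_zero_sub hF
  have h2 := fil_comp hF.multiplicative (l := i) hx h1 rfl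
  rwa [comp_sub, comp_dg, ← comp_assoc] at h2

lemma Lift.sameGr (h : Lift H G c s s') (hF : IsCompatible H F) :
    SameGr F s (vr X Y 0 s) where
  map T m x hx := by
    obtain ⟨S, hS⟩ := exists_sum_vr s
    have hS1 := hS S le_rfl
    refine Submodule.iSup_induction (fun i => F.F (T.prod X) i m)
      (motive := fun x => C.comp x s ∈ total F m (T.prod Y)) hx ?_ ?_ ?_
    · intro i x hx
      have h1 : C.comp x s = ∑ r ∈ S, C.comp x (vr X Y r s) := by
        conv_lhs => rw [hS1]
        rw [comp_sum]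
      rw [h1]
      exact Submodule.sum_mem _ fun r _ => comp_total hF hx (vr_mem r s)
    · rw [zero_comp]
      exact Submodule.zero_mem _
    · intro x y h1 h2
      rw [add_comp]
      exact Submodule.add_mem _ h1 h2
  same T m x hx := by
    obtain ⟨S, hS⟩ := exists_sum_vr s
    have hS1 := hS (insert 0 S) (Finset.subset_insert _ _)
    refine Submodule.iSup_induction (fun i => F.F (T.prod X) i m)
      (motive := fun x => C.comp x s - C.comp x (vr X Y 0 s) ∈ total F (m + 1) (T.prod Y)) hx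
      ?_ ?_ ?_
    · intro i x hx
      have h1 : C.comp x s - C.comp x (vr X Y 0 s) =
          ∑ r ∈ (insert 0 S).erase 0, C.comp x (vr X Y r s) := by
        conv_lhs => rw [hS1]
        rw [comp_sum, ← Finset.add_sum_erase _ _ (Finset.mem_insert_self 0 S), ← hS1,
          add_sub_cancel_left]
      rw [h1]
      exact Submodule.sum_mem _ fun r hr => comp_hom_total hF hx (vr_mem r s)
        (h.cl_vr_ne (Finset.mem_erase.1 hr).1)
    · rw [zero_comp, zero_comp, sub_self]
      exact Submodule.zero_mem _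
    · intro x y h1 h2
      rw [add_comp, add_comp, add_sub_add_comm]
      exact Submodule.add_mem _ h1 h2

end lift

end Run7.h158
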