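import Pool.Agent.Run7.h158.Core
import Pool.Agent.Run7.h158.Calc

/-!
# The component of degree zero
-/

open CategoryTheory AlgebraicGeometry

namespace Run7.h158

open Pool.Agent.H914 Pool.Agent.H914.VarClass Pool.Agent.H914.VarClass.Obj Pool.Agent.W492.BB
  Pool.Agent.W550.Corr Pool.Agent.TH133 Pool.Agent.TH829.Prime Pool.Agent.TH829.Kim
  Pool.Agent.Q8.HK Pool.Agent.N174.OV Pool.Agent.Y107

set_option linter.unusedSectionVars false

variable {𝒱 : VarClass ℂ} {C : TheoryData.{0, 0, 0} 𝒱 ℚ} [hC : IsChowProj C]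
  {H : WeilTheoryData.{0, 0, 0} C ℂ} [hH : IsWeilProj H] {X Y Z W : 𝒱.Obj}

include hC hH

lemma actH_cograph (f : X ⟶ Y) (b : H.A Y) : H.act (H.cl (C.cograph f)) b = H.pull f b := by
  have : H.cl (C.cograph f) = H.cograph f := by
    rw [TheoryData.cograph, TheoryData.cograph, H.cl_push, map_one]
  rw [this, H.act_cograph]

lemma actH_smallDiag (a b : H.A X) : H.act (H.cl (smallDiag C X)) (H.ext a b) = a * b := by
  rw [smallDiag_eq, actH_cograph, TheoryData.ext, map_mul, ← H.pull_comp, ← H.pull_comp]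
  have e1 : diag X ≫ fst X X = 𝟙 X := lift_fst _ _
  have e2 : diag X ≫ snd X X = 𝟙 X := lift_snd _ _
  rw [e1, e2, H.pull_id, H.pull_id]

/-- The correspondence `Z` respects the cup-product modulo homological equivalence. -/
def RespectsCupHom (H : WeilTheoryData.{0, 0, 0} C ℂ) {X Y : 𝒱.Obj} (Z : C.A (X.prod Y)) : Prop :=
  H.cl (C.comp (smallDiag C X) Z - C.comp (tens C Z Z) (smallDiag C Y)) = 0

/-- Correspondences whose action on the cohomology is multiplicative. -/
lemma respectsCupHom_of_mul {Z : C.A (X.prod Y)} {G : H.A X →ₗ[ℂ] H.A Y}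
    (hZ : ∀ a, H.act (H.cl Z) a = G a) (hG : ∀ a b, G (a * b) = G a * G b) :
    RespectsCupHom H Z := by
  apply hom_zero_of_act H
  have h1 : H.actL (H.cl (C.comp (smallDiag C X) Z - C.comp (tens C Z Z) (smallDiag C Y))) =
      (0 : H.A (X.prod X) →ₗ[ℂ] H.A Y) := by
    apply ext_of_ext
    intro a b
    rw [TheoryData.actL_apply, map_sub, TheoryData.act_sub, actH_comp, actH_comp, actH_smallDiag,
      actH_tens_ext, actH_smallDiag, hZ, hZ, hZ, hG, sub_self, LinearMap.zero_apply]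
  exact fun a => LinearMap.congr_fun h1 a

/-- Conversely. -/
lemma mul_of_respectsCupHom {Z : C.A (X.prod Y)} (h : RespectsCupHom H Z) (a b : H.A X) :
    H.act (H.cl Z) (a * b) = H.act (H.cl Z) a * H.act (H.cl Z) b := by
  have h1 : H.act (H.cl (C.comp (smallDiag C X) Z - C.comp (tens C Z Z) (smallDiag C Y)))
      (H.ext a b) = 0 := by
    rw [RespectsCupHom] at h
    rw [h, TheoryData.act_zero]
  rw [map_sub, TheoryData.act_sub, actH_comp, actH_comp, actH_smallDiag, actH_tens_ext,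
    actH_smallDiag, sub_eq_zero] at h1
  exact h1

/-- The correspondence `Z` of degree zero induces `G`. -/
structure Induces (H : WeilTheoryData.{0, 0, 0} C ℂ) {X Y : 𝒱.Obj} (G : H.A X ≃ₐ[ℂ] H.A Y)
    (Z : C.A (X.prod Y)) : Prop where
  deg : C.Deg X.dim Z
  act : ∀ a, H.act (H.cl Z) a = G a

lemma act_tp_of_induces {Z : C.A (X.prod Y)} {G : H.A X ≃ₐ[ℂ] H.A Y} (hZ : Induces H G Z) {d : ℂ}
    (hd : ∀ x, H.tr Y (G x) = d * H.tr X x) (y : H.A Y) :
    H.act (H.cl (tp C Z)) y = d • G.symm y := by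
  rw [← sub_eq_zero]
  apply H.nondeg
  intro b
  rw [sub_mul, map_sub, tr_act' H, hZ.act, smul_mul_assoc, map_smul, smul_eq_mul, sub_eq_zero]
  have h1 : y * G b = G (G.symm y * b) := by rw [map_mul, AlgEquiv.apply_symm_apply]
  rw [h1, hd]

section HK

variable {n : ℕ} {V U : Type} [AddCommGroup V] [Module ℂ V] [AddCommGroup U] [Module ℂ U]
  {hX : HyperKahler H n X V} {hY : HyperKahler H n Y U}

lemma deg_int {G : H.A X ≃ₐ[ℂ] H.A Y} (hG : ∀ (k : ℕ) (x : H.A X), H.Deg k x ↔ H.Deg k (G x))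
    (i : ℤ) {a : H.A X} (ha : a ∈ H.gr X i) : G a ∈ H.gr Y i := by
  by_cases ha0 : a = 0
  · subst ha0
    rw [map_zero]
    exact Submodule.zero_mem _
  obtain ⟨k, rfl⟩ := Int.eq_ofNat_of_zero_le (nonneg_of_mem H ha ha0)
  exact (hG k a).1 ha

/-- What is obtained from a derived equivalence: a graded isomorphism `G` of the cohomology
algebras, mutually inverse classes `s`, `s'` of mixed degrees, and their components of degree
zero. -/
structure Lift (H : WeilTheoryData.{0, 0, 0} C ℂ) {X Y : 𝒱.Obj} (G : H.A X ≃ₐ[ℂ] H.A Y) (c : ℚ)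
    (s : C.A (X.prod Y)) (s' : C.A (Y.prod X)) : Prop where
  ne : c ≠ 0
  left : C.comp s s' = dg C X
  right : C.comp s' s = dg C Y
  act : ∀ x, H.act (H.cl s) x = G x
  deg : ∀ (k : ℕ) (x : H.A X), H.Deg k x ↔ H.Deg k (G x)
  tr : ∀ x, H.tr Y (G x) = ((c ^ 2 : ℚ) : ℂ) * H.tr X x

lemma exists_lift (D : DerivedEquivalence hX hY) :
    ∃ (G : H.A X ≃ₐ[ℂ] H.A Y) (c : ℚ) (s : C.A (X.prod Y)) (s' : C.A (Y.prod X)),
      Lift H G c s s' ∧ (∀ x, IsRat hX.b x ↔ IsRat hY.b (G x)) ∧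
      ∀ x, G (hX.eta x) = hY.eta (G x) := by
  obtain ⟨G, c, s, s', h1, h2, h3, h4, h5, h6, h7, h8⟩ := core D
  exact ⟨G, c, s, s', ⟨h1, h2, h3, h4, h5, h8⟩, h6, h7⟩

variable {G : H.A X ≃ₐ[ℂ] H.A Y} {c : ℚ} {s : C.A (X.prod Y)} {s' : C.A (Y.prod X)}

lemma Lift.act' (h : Lift H G c s s') (y : H.A Y) : H.act (H.cl s') y = G.symm y := by
  have h1 : y = H.act (H.cl s) (G.symm y) := by rw [h.act, AlgEquiv.apply_symm_apply]
  conv_lhs => rw [h1]
  rw [← actH_comp, h.left, actH_dg]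

lemma Lift.deg' (h : Lift H G c s s') (k : ℕ) (y : H.A Y) : H.Deg k y ↔ H.Deg k (G.symm y) := by
  rw [h.deg k (G.symm y), AlgEquiv.apply_symm_apply]

lemma Lift.symm (h : Lift H G c s s') : Lift H G.symm c⁻¹ s' s where
  ne := inv_ne_zero h.ne
  left := h.right
  right := h.left
  act := h.act'
  deg := h.deg'
  tr y := by
    have h1 := h.tr (G.symm y)
    rw [AlgEquiv.apply_symm_apply] at h1
    have h2 : ((c ^ 2 : ℚ) : ℂ) ≠ 0 := by
      have := pow_ne_zero 2 h.ne
      exact_mod_cast this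
    rw [h1]
    push_cast at h2 ⊢
    rw [← mul_assoc, inv_pow, inv_mul_cancel₀ h2, one_mul]

lemma Lift.act_vr (h : Lift H G c s s') (r : ℤ) (a : H.A X) :
    H.act (H.cl (vr X Y r s)) a = if r = 0 then G a else 0 := by
  have h1 := Run7.h158.act_vr (H := H) (γ := s) (f := G.toLinearMap) (e := 0) h.act
    (fun i a ha => by
      rw [mul_zero, add_zero]
      exact deg_int h.deg i ha) r a
  exact h1

/-- The component of degree zero. -/
lemma Lift.induces (h : Lift H G c s s') : Induces H G (vr X Y 0 s) where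
  deg := by
    have := vr_mem (C := C) (X := X) (Y := Y) 0 s
    rwa [add_zero] at this
  act a := by rw [h.act_vr, if_pos rfl]

lemma Lift.cl_vr_ne (h : Lift H G c s s') {r : ℤ} (hr : r ≠ 0) : H.cl (vr X Y r s) = 0 := by
  apply hom_zero_of_act H
  intro a
  rw [h.act_vr, if_neg hr]

lemma Lift.cl_vr (h : Lift H G c s s') : H.cl (vr X Y 0 s) = H.cl s := by
  apply cl_eq_of_act
  intro a
  rw [h.induces.act, h.act]

lemma Induces.respectsCupHom {Z : C.A (X.prod Y)} (hZ : Induces H G Z) : RespectsCupHom H Z :=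
  respectsCupHom_of_mul (G := G.toLinearMap) hZ.act fun a b => map_mul G a b

lemma Induces.comp_hom {Z : C.A (X.prod Y)} {Z' : C.A (Y.prod X)} (hZ : Induces H G Z)
    (hZ' : Induces H G.symm Z') : H.cl (C.comp Z Z') = H.cl (dg C X) := by
  apply cl_eq_of_act
  intro a
  rw [actH_comp, hZ.act, hZ'.act, AlgEquiv.symm_apply_apply, actH_dg]

end HK

end Run7.h158
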