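import Pool.Agent.Run7.h158.Kim

/-!
# Prescribing the values of a correspondence on cycles
-/

open CategoryTheory AlgebraicGeometry

namespace Run7.h158

open Pool.Agent.H914 Pool.Agent.H914.VarClass Pool.Agent.H914.VarClass.Obj Pool.Agent.W492.BB
  Pool.Agent.W550.Corr Pool.Agent.TH133 Pool.Agent.TH829.Prime Pool.Agent.TH829.Kim
  Pool.Agent.Q8.HK Pool.Agent.N174.OV Pool.Agent.Y107 Pool.Agent.N174.KN

set_option linter.unusedSectionVars false

variable {𝒱 : VarClass ℂ} {C : TheoryData.{0, 0, 0} 𝒱 ℚ}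

/-- The cycles `x i` on `X` are linearly independent modulo numerical equivalence: if
`∑ q_i x_i` has degree zero with every cycle, then all `q_i` are zero. -/
def NumIndependent (C : TheoryData.{0, 0, 0} 𝒱 ℚ) {X : 𝒱.Obj} {m : ℕ} (x : Fin m → C.A X) :
    Prop :=
  ∀ q : Fin m → ℚ, (∀ z : C.A X, HasDegree C ((∑ i, q i • x i) * z) 0) → q = 0

variable [hC : IsChowProj C] {H : WeilTheoryData.{0, 0, 0} C ℂ} [hH : IsWeilProj H]
  {X Y Z W : 𝒱.Obj}

include hC hH

/-- The degree of a zero-cycle as a linear map (zero in the other codimensions). -/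
noncomputable def degL (H : WeilTheoryData.{0, 0, 0} C ℂ) [hH : IsWeilProj H] (X : 𝒱.Obj) :
    C.A X →ₗ[ℚ] ℚ where
  toFun x := (exists_deg x).choose
  map_add' a b := by
    apply hasDegree_uniq (one_ne H X) (exists_deg (a + b)).choose_spec
    exact HasDegree.add (exists_deg a).choose_spec (exists_deg b).choose_spec
  map_smul' r a := by
    apply hasDegree_uniq (one_ne H X) (exists_deg (r • a)).choose_spec
    exact HasDegree.smul r (exists_deg a).choose_spec

lemma degL_spec (x : C.A X) : HasDegree C x (degL H X x) := (exists_deg x).choose_spec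

lemma degL_eq {x : C.A X} {q : ℚ} (h : HasDegree C x q) : degL H X x = q :=
  hasDegree_uniq (one_ne H X) (degL_spec x) h

lemma degL_hom {x : C.A X} (h : H.cl x = 0) : degL H X x = 0 := degL_eq (hasDegree_of_cl H h)

lemma degL_hom_left {x : C.A X} (h : H.cl x = 0) (y : C.A X) : degL H X (x * y) = 0 :=
  degL_hom (by rw [map_mul, h, zero_mul])

lemma degL_hom_right {y : C.A X} (h : H.cl y = 0) (x : C.A X) : degL H X (x * y) = 0 :=
  degL_hom (by rw [map_mul, h, mul_zero])

lemma degL_of_ne {i : ℤ} {x : C.A X} (hx : x ∈ C.gr X i) (hi : i ≠ X.dim) : degL H X x = 0 :=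
  degL_eq (hasDegree_of_ne hx hi)

lemma degL_comm (x y : C.A X) : degL H X (x * y) = degL H X (y * x) := by
  rw [ch_comm C]

/-- The transpose is the adjoint for the intersection numbers. -/
lemma degL_act (Γ : C.A (X.prod Y)) (x : C.A X) (y : C.A Y) :
    degL H Y (C.act Γ x * y) = degL H X (x * C.act (tp C Γ) y) := by
  have h0 := degL_spec (H := H) (Γ * C.pull (fst X Y) x * C.pull (snd X Y) y)
  have h1 := hasDegree_push (snd X Y) h0
  have h2 := hasDegree_push (fst X Y) h0
  rw [C.proj_right] at h1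
  have e1 : Γ * C.pull (fst X Y) x * C.pull (snd X Y) y =
      C.pull (fst X Y) x * (Γ * C.pull (snd X Y) y) := by
    rw [ch_comm C Γ, mul_assoc]
  rw [e1, C.proj_left, ← act_tp] at h2
  rw [degL_eq (H := H) h2, ← e1]
  exact degL_eq h1

lemma act_ext_deg (a x : C.A X) (b : C.A Y) :
    C.act (C.ext a b) x = degL H X (a * x) • b := act_ext' (degL_spec (a * x))

lemma comp_ext_deg (a : C.A X) (b b' : C.A Y) (c : C.A Z) :
    C.comp (C.ext a b) (C.ext b' c) = degL H Y (b * b') • C.ext a c :=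
  comp_ext_ext (degL_spec (b * b'))

/-- Dual families. -/
lemma exists_dual {m : ℕ} {y : Fin m → C.A Y} (hy : NumIndependent C y) :
    ∃ η : Fin m → C.A Y, ∀ i j, degL H Y (y i * η j) = if i = j then 1 else 0 := by
  classical
  let L : C.A Y →ₗ[ℚ] (Fin m → ℚ) :=
    LinearMap.pi fun i => degL H Y ∘ₗ LinearMap.mulLeft ℚ (y i)
  have hL : ∀ z i, L z i = degL H Y (y i * z) := fun _ _ => rfl
  have htop : LinearMap.range L = ⊤ := by
    by_contra hne
    obtain ⟨f, hf0, hf⟩ := Submodule.exists_le_ker_of_lt_top _ (lt_top_iff_ne_top.2 hne)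
    have h1 : (fun i => f (Pi.single i 1)) = 0 := by
      apply hy
      intro z
      have h2 : f (L z) = 0 := LinearMap.mem_ker.1 (hf (LinearMap.mem_range_self L z))
      have h3 : L z = ∑ i, degL H Y (y i * z) • (Pi.single i (1 : ℚ) : Fin m → ℚ) := by
        funext j
        rw [Finset.sum_apply, Finset.sum_eq_single j]
        · rw [Pi.smul_apply, Pi.single_eq_same, smul_eq_mul, mul_one, hL]
        · intro i _ hi
          rw [Pi.smul_apply, Pi.single_eq_of_ne hi.symm, smul_zero]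
        · intro h
          exact absurd (Finset.mem_univ j) h
      rw [h3, map_sum] at h2
      have h4 : degL H Y ((∑ i, f (Pi.single i 1) • y i) * z) = 0 := by
        rw [Finset.sum_mul, map_sum, ← h2]
        refine Finset.sum_congr rfl fun i _ => ?_
        rw [smul_mul_assoc, map_smul, map_smul, smul_eq_mul, smul_eq_mul, mul_comm]
      have h5 := degL_spec (H := H) ((∑ i, f (Pi.single i 1) • y i) * z)
      rwa [h4] at h5
    apply hf0
    refine LinearMap.pi_ext fun i a => ?_
    have h2 : (Pi.single i a : Fin m → ℚ) = a • Pi.single i 1 := by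
      rw [← Pi.single_smul, smul_eq_mul, mul_one]
    rw [h2, map_smul, LinearMap.zero_apply]
    have h3 := congrFun h1 i
    rw [h3]
    exact smul_zero a
  choose η hη using fun j : Fin m => LinearMap.range_eq_top.1 htop (Pi.single j 1)
  refine ⟨η, fun i j => ?_⟩
  rw [← hL, hη, Pi.single_apply]

lemma degL_cmp {e : ℤ} {y : C.A Y} (hy : y ∈ C.gr Y e) (z : C.A Y) :
    degL H Y (y * cmp (C.isInternal Y) (Y.dim - e) z) = degL H Y (y * z) := by
  refine hom_ind Y (p := fun z => degL H Y (y * cmp (C.isInternal Y) (Y.dim - e) z) =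
    degL H Y (y * z)) ?_ ?_ z
  · intro r a ha
    by_cases hr : r = Y.dim - e
    · subst hr
      rw [cmp_of_mem _ ha]
    · rw [cmp_of_ne _ ha hr, mul_zero, map_zero, degL_of_ne (C.mul_mem hy ha) (by omega)]
  · intro a b h1 h2
    rw [map_add, mul_add, mul_add, map_add, map_add, h1, h2]

/-- Homogeneous dual families. -/
lemma exists_dual_hom {m : ℕ} {e : Fin m → ℕ} {y : Fin m → C.A Y}
    (he : ∀ i, y i ∈ C.gr Y (e i)) (hy : NumIndependent C y) :
    ∃ η : Fin m → C.A Y, (∀ i, η i ∈ C.gr Y ((Y.dim : ℤ) - e i)) ∧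
      ∀ i j, degL H Y (y i * η j) = if i = j then 1 else 0 := by
  obtain ⟨η, hη⟩ := exists_dual (H := H) hy
  refine ⟨fun j => cmp (C.isInternal Y) ((Y.dim : ℤ) - e j) (η j), fun i => cmp_mem _ _ _,
    fun i j => ?_⟩
  by_cases hij : (e i : ℤ) = e j
  · have h1 := degL_cmp (H := H) (he i) (η j)
    rw [hij] at h1
    exact h1.trans (hη i j)
  · have h1 : i ≠ j := by
      rintro rfl
      exact hij rfl
    rw [if_neg h1]
    exact degL_of_ne (C.mul_mem (he i) (cmp_mem _ _ _)) (by omega)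

/-- Images of independent families under similitudes are independent. -/
lemma NumIndependent.act {m : ℕ} {x : Fin m → C.A X} (hx : NumIndependent C x)
    {Z : C.A (X.prod Y)} {d : ℚ} (hd : d ≠ 0) (hZ : C.comp Z (tp C Z) = d • dg C X) :
    NumIndependent C (fun i => C.act Z (x i)) := by
  intro q hq
  apply hx
  intro z
  have h1 : ∑ i, q i • C.act Z (x i) = C.act Z (∑ i, q i • x i) := by
    rw [act_map_sum]
    exact Finset.sum_congr rfl fun i _ => (act_map_smul C Z _ _).symm
  have h2 := degL_eq (H := H) (hq (C.act Z z))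
  rw [h1, degL_act, ← C.act_comp, hZ] at h2
  have h3 : C.act (d • dg C X) z = d • z := by
    have h4 : C.act (d • dg C X) z = d • C.act (dg C X) z :=
      LinearMap.map_smul₂ (actB C) d (dg C X) z
    rw [h4, act_dg]
  rw [h3, mul_smul_comm, map_smul, smul_eq_mul] at h2
  have h4 := (mul_eq_zero.1 h2).resolve_left hd
  have h5 := degL_spec (H := H) ((∑ i, q i • x i) * z)
  rwa [h4] at h5

/-- The correction: for a family `y'` of cycles which is independent modulo numerical equivalence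
and a homologically equivalent family `y` there is an orthogonal self-correspondence, homologically
equivalent to the diagonal, which maps `y'` to `y`. -/
lemma exists_correction {m : ℕ} {e : Fin m → ℕ} {y' y : Fin m → C.A Y}
    (he' : ∀ i, y' i ∈ C.gr Y (e i)) (he : ∀ i, y i ∈ C.gr Y (e i))
    (hcl : ∀ i, H.cl (y' i) = H.cl (y i)) (hy : NumIndependent C y') :
    ∃ u : C.A (Y.prod Y), u ∈ C.gr (Y.prod Y) Y.dim ∧ H.cl u = H.cl (dg C Y) ∧
      C.comp u (tp C u) = dg C Y ∧ C.comp (tp C u) u = dg C Y ∧ ∀ i, C.act u (y' i) = y i := by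
  classical
  obtain ⟨η, hη1, hη2⟩ := exists_dual_hom (H := H) he' hy
  set ν : Fin m → C.A Y := fun i => y i - y' i with hν
  have hν0 : ∀ i, H.cl (ν i) = 0 := fun i => by rw [hν]; simp only [map_sub, hcl, sub_self]
  have hνm : ∀ i, ν i ∈ C.gr Y (e i) := fun i => Submodule.sub_mem _ (he i) (he' i)
  set N : C.A (Y.prod Y) := ∑ i, C.ext (η i) (ν i) with hN
  set M : C.A (Y.prod Y) := ∑ i, C.ext (ν i) (η i) with hM
  set Q : C.A (Y.prod Y) := ∑ i, ∑ j, degL H Y (η i * η j) • C.ext (ν i) (ν j) with hQ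
  have tN : tp C N = M := by
    rw [hN, tp_sum]
    exact Finset.sum_congr rfl fun i _ => tp_ext _ _
  have tM : tp C M = N := by
    rw [hM, tp_sum]
    exact Finset.sum_congr rfl fun i _ => tp_ext _ _
  have tQ : tp C Q = Q := by
    rw [hQ, tp_sum, Finset.sum_comm]
    refine Finset.sum_congr rfl fun i _ => ?_
    rw [tp_sum]
    refine Finset.sum_congr rfl fun j _ => ?_
    rw [tp_smul, tp_ext, degL_comm]
  have hEE : ∀ (a b c d : Fin m → C.A Y), (∀ i j, degL H Y (b i * c j) = 0) →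
      C.comp (∑ i, C.ext (a i) (b i)) (∑ j, C.ext (c j) (d j)) = 0 := by
    intro a b c d h
    rw [sum_comp]
    refine Finset.sum_eq_zero fun i _ => ?_
    rw [comp_sum]
    refine Finset.sum_eq_zero fun j _ => ?_
    rw [comp_ext_deg (H := H), h, zero_smul]
  have NN : C.comp N N = 0 := hEE _ _ _ _ fun i j => degL_hom_left (hν0 i) _
  have NM : C.comp N M = 0 := hEE _ _ _ _ fun i j => degL_hom_left (hν0 i) _
  have MM : C.comp M M = 0 := hEE _ _ _ _ fun i j => degL_hom_right (hν0 j) _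
  have MN : C.comp M N = Q := by
    rw [hM, hN, sum_comp]
    refine Finset.sum_congr rfl fun i _ => ?_
    rw [comp_sum]
    refine Finset.sum_congr rfl fun j _ => ?_
    rw [comp_ext_deg (H := H)]
  have NQ : C.comp N Q = 0 := by rw [← MN, ← comp_assoc, NM, zero_comp]
  have QM : C.comp Q M = 0 := by rw [← MN, comp_assoc, NM, comp_zero]
  have MQ : C.comp M Q = 0 := by rw [← MN, ← comp_assoc, MM, zero_comp]
  have QN : C.comp Q N = 0 := by rw [← MN, comp_assoc, NN, comp_zero]
  have QQ : C.comp Q Q = 0 := by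
    nth_rewrite 1 [← MN]
    rw [comp_assoc, NQ, comp_zero]
  have hNm : N ∈ C.gr (Y.prod Y) Y.dim := Submodule.sum_mem _ fun i _ => by
    have := ext_mem' (hη1 i) (hνm i)
    rwa [sub_add_cancel] at this
  have hMm : M ∈ C.gr (Y.prod Y) Y.dim := Submodule.sum_mem _ fun i _ => by
    have := ext_mem' (hνm i) (hη1 i)
    rwa [add_sub_cancel] at this
  have hQm : Q ∈ C.gr (Y.prod Y) Y.dim := by
    rw [← MN]
    exact comp_mem_zero hMm hNm
  have clN : H.cl N = 0 := by
    rw [hN, map_sum]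
    refine Finset.sum_eq_zero fun i _ => ?_
    rw [TheoryData.ext, map_mul, H.cl_pull, H.cl_pull, hν0, map_zero, mul_zero]
  have clM : H.cl M = 0 := by
    rw [hM, map_sum]
    refine Finset.sum_eq_zero fun i _ => ?_
    rw [TheoryData.ext, map_mul, H.cl_pull, H.cl_pull, hν0, map_zero, zero_mul]
  have clQ : H.cl Q = 0 := by rw [← MN, cl_comp, clM, zero_comp]
  set K : C.A (Y.prod Y) := N - M with hK
  have KK : C.comp K K = -Q := by
    rw [hK, sub_comp, comp_sub, comp_sub, NN, NM, MM, MN]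
    abel
  have KQ : C.comp K Q = 0 := by rw [hK, sub_comp, NQ, MQ, sub_self]
  have QK : C.comp Q K = 0 := by rw [hK, comp_sub, QN, QM, sub_self]
  have tK : tp C K = -K := by rw [hK, tp_sub, tN, tM, neg_sub]
  set u : C.A (Y.prod Y) := dg C Y + K - (2 : ℚ)⁻¹ • Q with hu
  have tu : tp C u = dg C Y - K - (2 : ℚ)⁻¹ • Q := by
    rw [hu, tp_sub, tp_add, tp_dg, tK, tp_smul, tQ, ← sub_eq_add_neg]
  refine ⟨u, ?_, ?_, ?_, ?_, ?_⟩
  · exact Submodule.sub_mem _ (Submodule.add_mem _ (dg_mem C Y) (Submodule.sub_mem _ hNm hMm))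
      (Submodule.smul_mem _ _ hQm)
  · rw [hu, map_sub, map_add, hK, map_sub, clN, clM, cl_smul, clQ, smul_zero, sub_zero, sub_zero,
      add_zero]
  · rw [tu, hu]
    simp only [sub_comp, add_comp, comp_sub, smul_comp', comp_smul', dg_comp, comp_dg, KK, KQ, QK,
      QQ, smul_zero]
    have e1 : (2 : ℚ)⁻¹ • Q + (2 : ℚ)⁻¹ • Q = Q := by
      rw [← add_smul]; norm_num
    have e2 : dg C Y + K - (2 : ℚ)⁻¹ • Q - (K + -Q - 0) - ((2 : ℚ)⁻¹ • Q + 0 - 0) =
        dg C Y - ((2 : ℚ)⁻¹ • Q + (2 : ℚ)⁻¹ • Q) + Q := by abel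
    rw [e2, e1, sub_add_cancel]
  · rw [tu, hu]
    simp only [sub_comp, comp_add, comp_sub, smul_comp', comp_smul', dg_comp, comp_dg, KK, KQ, QK,
      QQ, smul_zero]
    have e1 : (2 : ℚ)⁻¹ • Q + (2 : ℚ)⁻¹ • Q = Q := by
      rw [← add_smul]; norm_num
    have e2 : dg C Y - K - (2 : ℚ)⁻¹ • Q + (K - -Q - 0) - ((2 : ℚ)⁻¹ • Q - 0 - 0) =
        dg C Y - ((2 : ℚ)⁻¹ • Q + (2 : ℚ)⁻¹ • Q) + Q := by abel
    rw [e2, e1, sub_add_cancel]
  · intro i
    have a1 : C.act N (y' i) = ν i := by
      rw [hN, act_sum, Finset.sum_eq_single i]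
      · rw [act_ext_deg (H := H), degL_comm, hη2, if_pos rfl, one_smul]
      · intro j _ hj
        rw [act_ext_deg (H := H), degL_comm, hη2, if_neg hj.symm, zero_smul]
      · intro h
        exact absurd (Finset.mem_univ i) h
    have a2 : ∀ z, C.act M z = 0 := by
      intro z
      rw [hM, act_sum]
      refine Finset.sum_eq_zero fun j _ => ?_
      rw [act_ext_deg (H := H), degL_hom_left (hν0 j), zero_smul]
    have a3 : ∀ z, C.act Q z = 0 := by
      intro z
      rw [← MN, C.act_comp, a2, TheoryData.act_map_zero]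
    have a4 : C.act ((2 : ℚ)⁻¹ • Q) (y' i) = (2 : ℚ)⁻¹ • C.act Q (y' i) :=
      LinearMap.map_smul₂ (actB C) _ Q (y' i)
    rw [hu, hK, TheoryData.act_sub, TheoryData.act_add, TheoryData.act_sub, act_dg, a1, a2, a4, a3,
      smul_zero, sub_zero, sub_zero, hν]
    simp

end Run7.h158
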