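import Mathlib

/-!
# Square roots of unipotent elements
-/

namespace Run7.h158

open Polynomial

/-- Polynomial approximations of `(1 + X)^(-1/2)`. -/
lemma exists_sqrt_poly (k : ℕ) :
    ∃ q : ℚ[X], (X : ℚ[X]) ^ (k + 1) ∣ (1 + X * q) ^ 2 * (1 + X) - 1 := by
  induction k with
  | zero =>
    refine ⟨0, ⟨1, ?_⟩⟩
    ring
  | succ k ih =>
    obtain ⟨q, r, hr⟩ := ih
    set r0 : ℚ := r.coeff 0 with hr0
    obtain ⟨r1, hr1⟩ : (X : ℚ[X]) ∣ r - C r0 := by
      rw [X_dvd_iff]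
      simp [hr0]
    refine ⟨q - C (r0 / 2) * X ^ k, ⟨r1 - C r0 * (1 + q + X * q) +
      C (r0 ^ 2 / 4) * X ^ k * (1 + X), ?_⟩⟩
    have h1 : (C (r0 / 2) : ℚ[X]) * 2 = C r0 := by
      rw [← C_ofNat, ← C_mul]
      congr 1
      ring
    have h2 : (C (r0 / 2) : ℚ[X]) ^ 2 = C (r0 ^ 2 / 4) := by
      rw [← C_pow]
      congr 1
      ring
    have h3 : (1 + X * (q - C (r0 / 2) * X ^ k)) ^ 2 * (1 + X) - 1 =
        ((1 + X * q) ^ 2 * (1 + X) - 1) - (C (r0 / 2) * 2) * X ^ (k + 1) * (1 + X * q) * (1 + X) +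
          (C (r0 / 2)) ^ 2 * X ^ (k + 1) * X ^ (k + 1) * (1 + X) := by
      ring
    rw [h3, hr, h1, h2]
    have h4 : r = C r0 + X * r1 := by rw [← hr1]; ring
    conv_lhs => rw [h4]
    ring

/-- A unipotent element of a `ℚ`-algebra has an inverse square root which is a polynomial in it. -/
lemma exists_inv_sqrt {R : Type*} [Ring R] [Algebra ℚ R] {N : R} (hN : IsNilpotent N) :
    ∃ q : ℚ[X], (1 + N * aeval N q) * (1 + N) * (1 + N * aeval N q) = 1 := by
  obtain ⟨k, hk⟩ := hN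
  obtain ⟨q, r, hr⟩ := exists_sqrt_poly k
  refine ⟨q, ?_⟩
  have h0 : N ^ (k + 1) = 0 := by rw [pow_succ, hk, zero_mul]
  have h1 := congrArg (aeval N) hr
  rw [map_mul, map_pow (aeval N) X, aeval_X, h0, zero_mul, map_sub, map_mul, map_pow,
    map_add, map_mul, map_one, aeval_X, map_add, map_one, aeval_X, sub_eq_zero] at h1
  have hcomm : Commute (1 + N) (1 + N * aeval N q) := by
    have h2 : Commute N (aeval N q) := by
      have := (Commute.all (X : ℚ[X]) q).map (aeval N)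
      rwa [aeval_X] at this
    exact (Commute.one_left _).add_left
      ((Commute.one_right N).add_right ((Commute.refl N).mul_right h2))
  rw [mul_assoc, hcomm.eq, ← mul_assoc, ← sq, h1]

end Run7.h158
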