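import Pool.Agent.Run7.h158.Hom
import Pool.Agent.Run7.h158.Sqrt

/-!
# Kimura-finite hyper-Kähler varieties: exact isometries of Chow motives
-/

open CategoryTheory AlgebraicGeometry

namespace Run7.h158

open Pool.Agent.H914 Pool.Agent.H914.VarClass Pool.Agent.H914.VarClass.Obj Pool.Agent.W492.BB
  Pool.Agent.W550.Corr Pool.Agent.TH133 Pool.Agent.TH829.Prime Pool.Agent.TH829.Kim
  Pool.Agent.Q8.HK Pool.Agent.N174.OV Pool.Agent.Y107 Pool.Agent.N174.KN

set_option linter.unusedSectionVars false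

variable {𝒱 : VarClass ℂ} {C : TheoryData.{0, 0, 0} 𝒱 ℚ} [hC : IsChowProj C]
  {H : WeilTheoryData.{0, 0, 0} C ℂ} [hH : IsWeilProj H] {X Y Z W : 𝒱.Obj}

/-- The homologically trivial self-correspondences (of all degrees) of `X` are nilpotent. -/
def HomNil (H : WeilTheoryData.{0, 0, 0} C ℂ) (X : 𝒱.Obj) : Prop :=
  ∀ z : C.A (X.prod X), H.cl z = 0 → IsNilpotent (toCor z)

section chow

include hC

lemma smul_comp' (a : ℚ) (Γ : C.A (X.prod Y)) (Δ : C.A (Y.prod Z)) :
    C.comp (a • Γ) Δ = a • C.comp Γ Δ := LinearMap.map_smul₂ (compL C) a Γ Δ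

lemma comp_smul' (a : ℚ) (Γ : C.A (X.prod Y)) (Δ : C.A (Y.prod Z)) :
    C.comp Γ (a • Δ) = a • C.comp Γ Δ := map_smul (compL C Γ) a Δ

/-- The powers of a conjugate. -/
lemma pow_conj {s : C.A (X.prod Y)} {s' : C.A (Y.prod X)} (h : C.comp s' s = dg C Y)
    (z : C.A (Y.prod Y)) (k : ℕ) :
    (toCor (C.comp (C.comp s z) s') ^ (k + 1) : Cor C X) =
      toCor (C.comp (C.comp s ((toCor z) ^ (k + 1) : Cor C Y)) s') := by
  induction k with
  | zero => rw [zero_add, pow_one, pow_one]; rfl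
  | succ k ih =>
    have e1 : ∀ a b : C.A (Y.prod Y), C.comp (C.comp (C.comp s a) s') (C.comp (C.comp s b) s') =
        C.comp (C.comp s (C.comp a b)) s' := by
      intro a b
      rw [comp_assoc C (C.comp s a) s', ← comp_assoc C s' (C.comp s b), ← comp_assoc C s' s, h,
        dg_comp, ← comp_assoc C (C.comp s a), comp_assoc C s a]
    rw [pow_succ _ (k + 1), ih, pow_succ (toCor z) (k + 1)]
    exact e1 z ((toCor z) ^ (k + 1) : Cor C Y)

end chow

include hC hH

omit hH in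
lemma HomNil.of_inverse {s : C.A (X.prod Y)} {s' : C.A (Y.prod X)} (h1 : C.comp s s' = dg C X)
    (h2 : C.comp s' s = dg C Y) (hH : IsWeilProj H) (h : HomNil H Y) : HomNil H X := by
  intro z hz
  have hz' : H.cl (C.comp (C.comp s' z) s) = 0 := by
    rw [cl_comp, cl_comp, hz, comp_zero, zero_comp]
  obtain ⟨k, hk⟩ := h _ hz'
  have hk1 : toCor (C.comp (C.comp s' z) s) ^ (k + 1) = 0 := by rw [pow_succ, hk, zero_mul]
  refine ⟨k + 1, ?_⟩
  have e1 : z = C.comp (C.comp s (C.comp (C.comp s' z) s)) s' := by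
    rw [comp_assoc C s' z, ← comp_assoc C s s', h1, dg_comp, comp_assoc C z, h1, comp_dg]
  have e2 := pow_conj h2 (C.comp (C.comp s' z) s) k
  rw [← e1, hk1] at e2
  rw [e2]
  have e3 : C.comp (C.comp s (0 : C.A (Y.prod Y))) s' = 0 := by rw [comp_zero, zero_comp]
  exact e3

lemma homNil_of_kimura (hK : IsKimuraFinite C (ratFam C) X) : HomNil H X :=
  fun _ hz => nil_of_kimura H hK hz

omit hH in
lemma tpCor_pow {N : C.A (X.prod X)} (hN : tp C N = N) (k : ℕ) :
    tp C ((toCor N) ^ k : Cor C X) = (toCor N ^ k : Cor C X) := by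
  induction k with
  | zero => exact tp_dg C X
  | succ k ih =>
    have e1 : ∀ a b : C.A (X.prod X), tp C a = a → tp C b = b → C.comp a b = C.comp b a →
        tp C (C.comp a b) = C.comp a b := by
      intro a b ha hb hab
      rw [tp_comp C (ch_comm C), ha, hb, hab]
    have e2 : (toCor N) ^ k * toCor N = toCor N * (toCor N) ^ k := (Commute.pow_self _ k).eq
    rw [pow_succ]
    exact e1 N (toCor N ^ k : Cor C X) hN ih e2

omit hH in
lemma tpCor_aeval {N : C.A (X.prod X)} (hN : tp C N = N) (q : Polynomial ℚ) :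
    tp C (Polynomial.aeval (toCor N) q : Cor C X) = (Polynomial.aeval (toCor N) q : Cor C X) := by
  induction q using Polynomial.induction_on' with
  | add p q hp hq =>
    rw [map_add]
    have h := tp_add C (Polynomial.aeval (toCor N) p : Cor C X)
      (Polynomial.aeval (toCor N) q : Cor C X)
    rw [hp, hq] at h
    exact h
  | monomial n a =>
    rw [Polynomial.aeval_monomial, ← Algebra.smul_def]
    have h := tp_smul C a ((toCor N) ^ n : Cor C X)
    rw [tpCor_pow hN] at h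
    exact h

section lift

variable {G : H.A X ≃ₐ[ℂ] H.A Y} {c : ℚ} {s : C.A (X.prod Y)} {s' : C.A (Y.prod X)}

omit hC hH in
/-- The correspondence `Z` of degree zero induces `G`, and `[Z^t] ∘ [Z] = d [Δ_X]`,
`[Z] ∘ [Z^t] = d [Δ_Y]`. -/
structure IsSimilitude (H : WeilTheoryData.{0, 0, 0} C ℂ) {X Y : 𝒱.Obj} (G : H.A X ≃ₐ[ℂ] H.A Y)
    (d : ℚ) (Z : C.A (X.prod Y)) : Prop where
  induces : Induces H G Z
  left : C.comp Z (tp C Z) = d • dg C X
  right : C.comp (tp C Z) Z = d • dg C Y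

omit hH in
lemma comp_mem_zero {Z : C.A (X.prod Y)} {Z' : C.A (Y.prod W)} (hZ : Z ∈ C.gr (X.prod Y) X.dim)
    (hZ' : Z' ∈ C.gr (Y.prod W) Y.dim) : C.comp Z Z' ∈ C.gr (X.prod W) X.dim := by
  have := comp_mem C (e := 0) (e' := 0) (by rwa [add_zero]) (by rwa [add_zero]) (Γ := Z) (Δ := Z')
  rwa [add_zero, add_zero] at this

/-- An endomorphism congruent to the identity has a self-dual square root. -/
lemma exists_sqrt_cor {P : C.A (X.prod X)} (hP : P ∈ C.gr (X.prod X) X.dim) (hPt : tp C P = P)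
    (hcl : H.cl P = H.cl (dg C X)) (hnil : HomNil H X) :
    ∃ U : C.A (X.prod X), U ∈ C.gr (X.prod X) X.dim ∧ tp C U = U ∧ H.cl U = H.cl (dg C X) ∧
      C.comp U (C.comp P U) = dg C X := by
  set N : C.A (X.prod X) := P - dg C X with hN
  have hNcl : H.cl N = 0 := by rw [hN, map_sub, hcl, sub_self]
  have hNt : tp C N = N := by rw [hN, tp_sub, hPt, tp_dg]
  obtain ⟨q, hq⟩ := exists_inv_sqrt (hnil N hNcl)
  set U : Cor C X := 1 + toCor N * Polynomial.aeval (toCor N) q with hU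
  have hP' : (1 + toCor N : Cor C X) = toCor P := by
    change dg C X + N = P
    rw [hN, add_sub_cancel]
  rw [hP'] at hq
  refine ⟨U, ?_, ?_, ?_, ?_⟩
  · have h1 : toCor N ∈ cor0 C X := Submodule.sub_mem (C.gr (X.prod X) X.dim) hP (dg_mem C X)
    have h2 : Polynomial.aeval (toCor N) q ∈ cor0 C X := by
      have h3 : Algebra.adjoin ℚ {toCor N} ≤ cor0 C X :=
        Algebra.adjoin_le (Set.singleton_subset_iff.2 h1)
      exact h3 (Polynomial.aeval_mem_adjoin_singleton ℚ (toCor N))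
    exact (cor0 C X).add_mem (cor0 C X).one_mem ((cor0 C X).mul_mem h1 h2)
  · have h1 : U = Polynomial.aeval (toCor N) (1 + Polynomial.X * q) := by
      rw [map_add, map_one, map_mul, Polynomial.aeval_X]
    rw [h1]
    exact tpCor_aeval hNt _
  · have h1 : ∀ a : C.A (X.prod X), H.cl (dg C X + C.comp a N) = H.cl (dg C X) := by
      intro a
      rw [map_add, cl_comp, hNcl, comp_zero, add_zero]
    exact h1 (Polynomial.aeval (toCor N) q : Cor C X)
  · have h1 : ∀ a : C.A (X.prod X), toCor a * toCor P * toCor a = 1 →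
        C.comp a (C.comp P a) = dg C X := fun a h => h
    exact h1 U hq

/-- **Exact similitudes.** -/
theorem Lift.exists_similitude (h : Lift H G c s s') (hdim : X.dim = Y.dim)
    (hnil : HomNil H X) : ∃ Z, IsSimilitude H G (c ^ 2) Z := by
  set Z0 := vr X Y 0 s with hZ0
  have hZ : Induces H G Z0 := h.induces
  have hc2 : (c ^ 2) ≠ 0 := pow_ne_zero 2 h.ne
  have hc2' : ((c ^ 2 : ℚ) : ℂ) ≠ 0 := by exact_mod_cast hc2
  have htZ : tp C Z0 ∈ C.gr (Y.prod X) Y.dim := by
    rw [← hdim]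
    exact tp_mem C hZ.deg
  set P : C.A (X.prod X) := (c ^ 2)⁻¹ • C.comp Z0 (tp C Z0) with hP
  have hPm : P ∈ C.gr (X.prod X) X.dim := Submodule.smul_mem _ _ (comp_mem_zero hZ.deg htZ)
  have hPt : tp C P = P := by
    rw [hP, tp_smul, tp_comp C (ch_comm C), tp_tp]
  have hPcl : H.cl P = H.cl (dg C X) := by
    apply cl_eq_of_act
    intro a
    rw [hP, actH_smul, actH_comp, hZ.act, act_tp_of_induces hZ h.tr, AlgEquiv.symm_apply_apply,
      smul_smul, actH_dg]
    push_cast at hc2' ⊢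
    rw [inv_mul_cancel₀ hc2', one_smul]
  obtain ⟨U, hU1, hU2, hU3, hU4⟩ := exists_sqrt_cor hPm hPt hPcl hnil
  set Z1 := C.comp U Z0 with hZ1
  have hZ1m : Z1 ∈ C.gr (X.prod Y) X.dim := comp_mem_zero hU1 hZ.deg
  have hI : Induces H G Z1 := by
    refine ⟨hZ1m, fun a => ?_⟩
    rw [hZ1, actH_comp, hU3, actH_dg, hZ.act]
  have hleft : C.comp Z1 (tp C Z1) = (c ^ 2) • dg C X := by
    have e1 : C.comp Z0 (tp C Z0) = (c ^ 2) • P := by
      rw [hP, smul_smul, mul_inv_cancel₀ hc2, one_smul]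
    rw [hZ1, tp_comp C (ch_comm C), hU2, comp_assoc, ← comp_assoc C Z0, e1, smul_comp',
      comp_smul', hU4]
  refine ⟨Z1, hI, hleft, ?_⟩
  have htZ1 : tp C Z1 ∈ C.gr (Y.prod X) Y.dim := by
    rw [← hdim]
    exact tp_mem C hZ1m
  have h1 : C.comp Z1 ((c ^ 2)⁻¹ • tp C Z1) = dg C X := by
    rw [comp_smul', hleft, smul_smul, inv_mul_cancel₀ hc2, one_smul]
  have h2 : H.cl (C.comp ((c ^ 2)⁻¹ • tp C Z1) Z1) = H.cl (dg C Y) := by
    apply cl_eq_of_act
    intro a
    rw [actH_comp, actH_smul, act_tp_of_induces hI h.tr, smul_smul, hI.act, map_smul,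
      AlgEquiv.apply_symm_apply, actH_dg]
    push_cast at hc2' ⊢
    rw [inv_mul_cancel₀ hc2', one_smul]
  obtain ⟨a', -, h3, -, h5⟩ := iso_of_nil H (v := s) (w := s') (v₀ := Z1)
    (w₀ := (c ^ 2)⁻¹ • tp C Z1) hZ1m (Submodule.smul_mem _ _ htZ1) h.right
    (by rw [h1]) h2 (fun z hz => hnil z hz)
  rw [h1, dg_comp] at h3
  rw [h3, comp_dg, smul_comp'] at h5
  have h6 := congrArg (fun z => (c ^ 2) • z) h5
  simp only [smul_smul] at h6
  rw [mul_inv_cancel₀ hc2, one_smul] at h6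
  exact h6

end lift

end Run7.h158
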