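import Pool.Agent.Run7.h158.Faith

/-!
# Correspondences restricting to isomorphisms of given subspaces of the Chow rings
-/

open CategoryTheory AlgebraicGeometry

namespace Run7.h158

open Pool.Agent.H914 Pool.Agent.H914.VarClass Pool.Agent.H914.VarClass.Obj Pool.Agent.W492.BB
  Pool.Agent.W550.Corr Pool.Agent.TH133 Pool.Agent.TH829.Prime Pool.Agent.TH829.Kim
  Pool.Agent.Q8.HK Pool.Agent.N174.OV Pool.Agent.Y107 Pool.Agent.N174.KN

set_option linter.unusedSectionVars false

variable {𝒱 : VarClass ℂ} {C : TheoryData.{0, 0, 0} 𝒱 ℚ}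

/-- The correspondences `Z` and `Z'` (of degree zero) are inverse to each other modulo the `k`-th
step of the filtration `F`; they and the classes `s` and `s'` of mixed degrees induce the same
homomorphisms of bigraded rings between `Gr_F CH^*(T × X)` and `Gr_F CH^*(T × Y)` for all `T`. -/
structure IsGrIso (F : Filtration C) (k : ℕ) {X Y : 𝒱.Obj} (Z s : C.A (X.prod Y))
    (Z' s' : C.A (Y.prod X)) : Prop where
  hom : InducesGrHom F Z
  hom' : InducesGrHom F Z'
  left : IsGrInverse F k Z Z'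
  right : IsGrInverse F k Z' Z
  same : SameGr F s Z
  same' : SameGr F s' Z'

variable [hC : IsChowProj C] {H : WeilTheoryData.{0, 0, 0} C ℂ} [hH : IsWeilProj H]
  {X Y Z W : 𝒱.Obj}

include hC

lemma vr_comp_right (s : C.A (X.prod Y)) {u : C.A (Y.prod W)} (hu : u ∈ C.gr (Y.prod W) Y.dim)
    (r : ℤ) : vr X W r (C.comp s u) = C.comp (vr X Y r s) u := by
  refine cor_ind (p := fun s => vr X W r (C.comp s u) = C.comp (vr X Y r s) u) ?_ ?_ s
  · intro r' a ha
    have h1 : C.comp a u ∈ C.gr (X.prod W) ((X.dim : ℤ) + r') := by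
      have := comp_mem C (e := r') (e' := 0) ha (by rwa [add_zero])
      rwa [add_zero] at this
    by_cases h : r' = r
    · subst h
      rw [vr_of_mem ha, vr_of_mem h1]
    · rw [vr_of_ne ha h, vr_of_ne h1 h, zero_comp]
  · intro a b h1 h2
    rw [add_comp, map_add, map_add, add_comp, h1, h2]

lemma fil_act {F : Filtration C} (hF : IsMultiplicative F) {e m : ℕ} {Γ : C.A (X.prod Y)}
    {x : C.A X} (hΓ : F.Mem X.dim m Γ) (hx : F.Mem e 0 x) : F.Mem e m (C.act Γ x) := by
  have h1 := hF.mul hΓ (hF.pull (fst X Y) hx)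
  have h2 := hF.push (j := e) (snd X Y) (by rw [dim_prod]; omega) h1
  rwa [add_zero] at h2

include hH

variable {G : H.A X ≃ₐ[ℂ] H.A Y} {c : ℚ} {s : C.A (X.prod Y)} {s' : C.A (Y.prod X)}

/-- Numerical triviality is detected after applying a similitude. -/
lemma numTrivial_transfer {Z0 : C.A (X.prod Y)} (hZ : Induces H G Z0) {d : ℚ} (hd : d ≠ 0)
    (htr : ∀ x, H.tr Y (G x) = (d : ℂ) * H.tr X x) {x : C.A X}
    (hx : NumTrivial C (C.act Z0 x)) : NumTrivial C x := by
  rw [numTrivial_iff (H := H)] at hx ⊢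
  intro w
  have h1 := hx (C.act Z0 w)
  rw [degL_act, ← C.act_comp] at h1
  have h2 : H.cl (C.act (C.comp Z0 (tp C Z0)) w - d • w) = 0 := by
    rw [map_sub, cl_act H, actH_comp, hZ.act, act_tp_of_induces hZ htr, AlgEquiv.symm_apply_apply,
      cl_smul, sub_self]
  have h3 := degL_hom_right (H := H) h2 x
  rw [mul_sub, map_sub, h1, mul_smul_comm, map_smul, smul_eq_mul, zero_sub, neg_eq_zero] at h3
  exact (mul_eq_zero.1 h3).resolve_left hd

section HK

variable {n : ℕ} {V U : Type} [AddCommGroup V] [Module ℂ V] [AddCommGroup U] [Module ℂ U]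
  {hX : HyperKahler H n X V} {hY : HyperKahler H n Y U}
  {R : Submodule ℚ (C.A X)} {R' : Submodule ℚ (C.A Y)}

lemma restrictsTo_of {Z1 : C.A (X.prod Y)} {Z1' : C.A (Y.prod X)} (hZ : Induces H G Z1)
    (hR' : IsFaithful C R') (hm : Matches H G R R') {m : ℕ}
    {x : Fin m → C.A X} (hspan : R = Submodule.span ℚ (Set.range x))
    (h1 : ∀ i, C.act Z1 (x i) ∈ R') (h2 : ∀ i, C.act Z1' (C.act Z1 (x i)) = x i) :
    RestrictsTo C Z1 Z1' R R' := by
  have hto : ∀ a ∈ R, C.act Z1 a ∈ R' := by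
    intro a ha
    rw [hspan] at ha
    induction ha using Submodule.span_induction with
    | mem a ha =>
      obtain ⟨i, rfl⟩ := ha
      exact h1 i
    | zero =>
      rw [TheoryData.act_map_zero]
      exact Submodule.zero_mem _
    | add a b _ _ ha hb =>
      rw [act_map_add C Z1]
      exact Submodule.add_mem _ ha hb
    | smul q a _ ha =>
      rw [act_map_smul C Z1]
      exact Submodule.smul_mem _ _ ha
  have hleft : ∀ a ∈ R, C.act Z1' (C.act Z1 a) = a := by
    intro a ha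
    rw [hspan] at ha
    induction ha using Submodule.span_induction with
    | mem a ha =>
      obtain ⟨i, rfl⟩ := ha
      exact h2 i
    | zero => rw [TheoryData.act_map_zero, TheoryData.act_map_zero]
    | add a b _ _ ha hb => rw [act_map_add C Z1, act_map_add C Z1', ha, hb]
    | smul q a _ ha => rw [act_map_smul C Z1, act_map_smul C Z1', ha]
  have hcl : ∀ a : C.A X, H.cl (C.act Z1 a) = G (H.cl a) := fun a => by
    rw [cl_act H, hZ.act]
  have hsurj : ∀ b ∈ R', ∃ a ∈ R, C.act Z1 a = b := by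
    intro b hb
    obtain ⟨a, ha, hab⟩ := hm.bwd b hb
    exact ⟨a, ha, eq_of_cl hR' (hto a ha) hb (by rw [hcl, hab])⟩
  refine ⟨hto, fun b hb => ?_, hleft, fun b hb => ?_, fun a ha b hb hab hab' => ?_⟩
  · obtain ⟨a, ha, rfl⟩ := hsurj b hb
    rw [hleft a ha]
    exact ha
  · obtain ⟨a, ha, rfl⟩ := hsurj b hb
    rw [hleft a ha]
  · refine eq_of_cl (H := H) hR' (hto _ hab) hab' ?_
    change H.cl (C.act Z1 (a * b)) = H.cl (C.act Z1 a * C.act Z1 b)
    rw [hcl, map_mul, map_mul, map_mul, hcl, hcl]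

/-- **The nilpotent case.** -/
theorem exists_similitude_restr (hX : HyperKahler H n X V) (hY : HyperKahler H n Y U)
    (h : Lift H G c s s') (hnil : HomNil H X) (hR : IsFaithful C R) (hR' : IsFaithful C R')
    (hm : Matches H G R R') :
    ∃ Z1 : C.A (X.prod Y), IsSimilitude H G (c ^ 2) Z1 ∧
      RestrictsTo C Z1 ((c ^ 2)⁻¹ • tp C Z1) R R' := by
  have hdim : X.dim = Y.dim := by rw [hX.dim_eq, hY.dim_eq]
  obtain ⟨Z0, hZ0⟩ := h.exists_similitude hdim hnil
  have hc2 : c ^ 2 ≠ 0 := pow_ne_zero 2 h.ne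
  obtain ⟨m, e, x, y, hx, hy, hxe, hye, hcl, hspan⟩ := exists_families hX h.deg hR hR' hm
  have hy'm : ∀ i, C.act Z0 (x i) ∈ C.gr Y (e i) := fun i => by
    have h2 := act_mem' C (e := 0) (by rw [add_zero]; exact hZ0.induces.deg) (hxe i)
    rwa [add_zero] at h2
  have hy'cl : ∀ i, H.cl (C.act Z0 (x i)) = H.cl (y i) := fun i => by
    rw [cl_act H, hZ0.induces.act, hcl]
  have hsum : ∀ q : Fin m → ℚ, ∑ i, q i • C.act Z0 (x i) = C.act Z0 (∑ i, q i • x i) := by
    intro q
    rw [act_map_sum]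
    exact Finset.sum_congr rfl fun i _ => (act_map_smul C Z0 _ _).symm
  have hxR : ∀ q : Fin m → ℚ, ∑ i, q i • x i ∈ R := fun q =>
    Submodule.sum_mem _ fun i _ => Submodule.smul_mem _ _ (hx i)
  have hyR : ∀ q : Fin m → ℚ, ∑ i, q i • y i ∈ R' := fun q =>
    Submodule.sum_mem _ fun i _ => Submodule.smul_mem _ _ (hy i)
  have hrel : ∀ q : Fin m → ℚ, NumTrivial C (∑ i, q i • C.act Z0 (x i)) →
      ∑ i, q i • x i = 0 := by
    intro q hq
    rw [hsum] at hq
    exact hR.faithful _ (hxR q) (numTrivial_transfer hZ0.induces hc2 h.tr hq)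
  obtain ⟨u, hu1, hu2, hu3, hu4, hu5⟩ := exists_correction_rel (H := H) hy'm hye hy'cl
    (fun q hq => by rw [hsum, hrel q hq, TheoryData.act_map_zero])
    (fun q hq => by
      have h1 := hrel q hq
      refine eq_of_cl (H := H) hR' (hyR q) (Submodule.zero_mem _) ?_
      have h2 : H.cl (∑ i, q i • y i) = H.cl (∑ i, q i • C.act Z0 (x i)) := by
        rw [map_sum, map_sum]
        refine Finset.sum_congr rfl fun i _ => ?_
        rw [cl_smul, cl_smul, hy'cl]
      rw [h2, hsum, h1, TheoryData.act_map_zero])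
  have hI : Induces H G (C.comp Z0 u) := ⟨comp_mem_zero hZ0.induces.deg hu1, fun a => by
    rw [actH_comp, hu2, actH_dg, hZ0.induces.act]⟩
  have hleft : C.comp (C.comp Z0 u) (tp C (C.comp Z0 u)) = (c ^ 2) • dg C X := by
    rw [tp_comp C (ch_comm C), comp_assoc, ← comp_assoc C u, hu3, dg_comp, hZ0.left]
  have hright : C.comp (tp C (C.comp Z0 u)) (C.comp Z0 u) = (c ^ 2) • dg C Y := by
    rw [tp_comp C (ch_comm C), comp_assoc, ← comp_assoc C (tp C Z0), hZ0.right, smul_comp', dg_comp,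
      comp_smul', hu4]
  have hxy : ∀ i, C.act (C.comp Z0 u) (x i) = y i := fun i => by rw [C.act_comp, hu5]
  refine ⟨C.comp Z0 u, ⟨hI, hleft, hright⟩, restrictsTo_of hI hR' hm hspan (fun i => ?_)
    fun i => ?_⟩
  · rw [hxy]
    exact hy i
  · rw [← C.act_comp, comp_smul', hleft, smul_smul, inv_mul_cancel₀ hc2, one_smul, act_dg]

end HK

end Run7.h158
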