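import Pool.Agent.Run7.h158.Interp

/-!
# Prescribing the values of a correspondence on graded subspaces of the Chow ring
-/

open CategoryTheory AlgebraicGeometry

namespace Run7.h158

open Pool.Agent.H914 Pool.Agent.H914.VarClass Pool.Agent.H914.VarClass.Obj Pool.Agent.W492.BB
  Pool.Agent.W550.Corr Pool.Agent.TH133 Pool.Agent.TH829.Prime Pool.Agent.TH829.Kim
  Pool.Agent.Q8.HK Pool.Agent.N174.OV Pool.Agent.Y107 Pool.Agent.N174.KN

set_option linter.unusedSectionVars false

variable {𝒱 : VarClass ℂ} {C : TheoryData.{0, 0, 0} 𝒱 ℚ}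

/-- The class `x` is numerically trivial: the product of `x` with every class has degree zero. -/
def NumTrivial (C : TheoryData.{0, 0, 0} 𝒱 ℚ) {X : 𝒱.Obj} (x : C.A X) : Prop :=
  ∀ z : C.A X, HasDegree C (x * z) 0

variable [hC : IsChowProj C] {H : WeilTheoryData.{0, 0, 0} C ℂ} [hH : IsWeilProj H]
  {X Y Z W : 𝒱.Obj}

include hC hH

lemma numTrivial_iff {x : C.A X} : NumTrivial C x ↔ ∀ z, degL H X (x * z) = 0 := by
  refine ⟨fun h z => degL_eq (h z), fun h z => ?_⟩
  have h1 := degL_spec (H := H) (x * z)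
  rwa [h z] at h1

lemma numTrivial_of_hom {x : C.A X} (h : H.cl x = 0) : NumTrivial C x :=
  (numTrivial_iff (H := H)).2 fun z => degL_hom_left h z

/-- Dual families in the presence of relations. -/
lemma exists_dual_rel {m : ℕ} {e : Fin m → ℕ} {y : Fin m → C.A Y}
    (he : ∀ i, y i ∈ C.gr Y (e i)) :
    ∃ η : Fin m → C.A Y, (∀ i, η i ∈ C.gr Y ((Y.dim : ℤ) - e i)) ∧
      ∀ (W : 𝒱.Obj) (ν : Fin m → C.A W), (∀ i, ν i ∈ C.gr W (e i)) →
        (∀ q : Fin m → ℚ, NumTrivial C (∑ i, q i • y i) → ∑ i, q i • ν i = 0) →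
        ∀ j, ∑ i, degL H Y (y j * η i) • ν i = ν j := by
  classical
  let L : C.A Y →ₗ[ℚ] (Fin m → ℚ) :=
    LinearMap.pi fun i => degL H Y ∘ₗ LinearMap.mulLeft ℚ (y i)
  have hL : ∀ z i, L z i = degL H Y (y i * z) := fun _ _ => rfl
  -- the relations
  let S : (Fin m → ℚ) →ₗ[ℚ] C.A Y := Fintype.linearCombination ℚ y
  have hS : ∀ q, S q = ∑ i, q i • y i := fun q => Fintype.linearCombination_apply ℚ y q
  let K : Submodule ℚ (Fin m → ℚ) :=
    { carrier := {q | ∀ z, degL H Y (S q * z) = 0}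
      add_mem' := fun {a b} ha hb z => by
        rw [map_add, add_mul, map_add, ha z, hb z, add_zero]
      zero_mem' := fun z => by rw [map_zero, zero_mul, map_zero]
      smul_mem' := fun c a ha z => by
        rw [map_smul, smul_mul_assoc, map_smul, ha z, smul_zero] }
  have hK : ∀ q, q ∈ K ↔ NumTrivial C (∑ i, q i • y i) := fun q => by
    rw [numTrivial_iff (H := H), ← hS]
    rfl
  obtain ⟨K', hKK⟩ := Submodule.exists_isCompl K
  -- the projection with kernel `K`
  let P : (Fin m → ℚ) →ₗ[ℚ] (Fin m → ℚ) := Submodule.projection K' K hKK.symm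
  have hP1 : ∀ q ∈ K, P q = 0 := by
    intro q hq
    exact (Submodule.projection_apply_eq_zero_iff hKK.symm).2 hq
  have hP2 : ∀ q, q - P q ∈ K := by
    intro q
    have h1 : P (q - P q) = 0 := by
      rw [map_sub, sub_eq_zero]
      exact (Submodule.projection_apply_left hKK.symm
        ⟨P q, Submodule.projection_apply_mem hKK.symm q⟩).symm
    exact (Submodule.projection_apply_eq_zero_iff hKK.symm).1 h1
  -- the columns of `P` are in the range of `L`
  have hrange : ∀ c : Fin m → ℚ, (∀ q ∈ K, ∑ j, q j * c j = 0) → c ∈ LinearMap.range L := by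
    intro c hc
    by_contra hne
    obtain ⟨f, hf0, hf⟩ := Submodule.exists_le_ker_of_notMem hne
    have h1 : (fun i => f (Pi.single i 1)) ∈ K := by
      intro z
      have h2 : f (L z) = 0 := LinearMap.mem_ker.1 (hf (LinearMap.mem_range_self L z))
      have h3 : L z = ∑ i, degL H Y (y i * z) • (Pi.single i (1 : ℚ) : Fin m → ℚ) := by
        funext j
        rw [Finset.sum_apply, Finset.sum_eq_single j]
        · rw [Pi.smul_apply, Pi.single_eq_same, smul_eq_mul, mul_one, hL]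
        · intro i _ hi
          rw [Pi.smul_apply, Pi.single_eq_of_ne hi.symm, smul_zero]
        · intro h
          exact absurd (Finset.mem_univ j) h
      rw [h3, map_sum] at h2
      rw [hS, Finset.sum_mul, map_sum, ← h2]
      refine Finset.sum_congr rfl fun i _ => ?_
      rw [smul_mul_assoc, map_smul, map_smul, smul_eq_mul, smul_eq_mul, mul_comm]
    have h2 := hc _ h1
    apply hf0
    have h3 : c = ∑ i, c i • (Pi.single i (1 : ℚ) : Fin m → ℚ) := by
      funext j
      rw [Finset.sum_apply, Finset.sum_eq_single j]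
      · rw [Pi.smul_apply, Pi.single_eq_same, smul_eq_mul, mul_one]
      · intro i _ hi
        rw [Pi.smul_apply, Pi.single_eq_of_ne hi.symm, smul_zero]
      · intro h
        exact absurd (Finset.mem_univ j) h
    rw [h3, map_sum, ← h2]
    refine Finset.sum_congr rfl fun i _ => ?_
    rw [map_smul, smul_eq_mul, mul_comm]
  have hcol : ∀ i, ∃ η : C.A Y, ∀ j, degL H Y (y j * η) = P (Pi.single j 1) i := by
    intro i
    obtain ⟨η, hη⟩ := hrange (fun j => P (Pi.single j 1) i) (by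
      intro q hq
      have h1 := congrFun (hP1 q hq) i
      have h2 : q = ∑ j, q j • (Pi.single j (1 : ℚ) : Fin m → ℚ) := by
        funext k
        rw [Finset.sum_apply, Finset.sum_eq_single k]
        · rw [Pi.smul_apply, Pi.single_eq_same, smul_eq_mul, mul_one]
        · intro i _ hi
          rw [Pi.smul_apply, Pi.single_eq_of_ne hi.symm, smul_zero]
        · intro h
          exact absurd (Finset.mem_univ k) h
      rw [h2, map_sum, Finset.sum_apply, Pi.zero_apply] at h1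
      rw [← h1]
      refine Finset.sum_congr rfl fun j _ => ?_
      rw [map_smul, Pi.smul_apply, smul_eq_mul])
    exact ⟨η, fun j => congrFun hη j⟩
  choose η hη using hcol
  refine ⟨fun j => cmp (C.isInternal Y) ((Y.dim : ℤ) - e j) (η j), fun i => cmp_mem _ _ _,
    fun W ν hν hrel j => ?_⟩
  -- the unhomogeneous version
  have h1 : ∑ i, degL H Y (y j * η i) • ν i = ν j := by
    have h2 : ∑ i, (Pi.single j (1 : ℚ) - P (Pi.single j 1) : Fin m → ℚ) i • ν i = 0 :=
      hrel _ ((hK _).1 (hP2 _))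
    have h3 : ∑ i, (Pi.single j (1 : ℚ) : Fin m → ℚ) i • ν i = ν j := by
      rw [Finset.sum_eq_single j]
      · rw [Pi.single_eq_same, one_smul]
      · intro i _ hi
        rw [Pi.single_eq_of_ne hi, zero_smul]
      · intro h
        exact absurd (Finset.mem_univ j) h
    simp only [Pi.sub_apply, sub_smul, Finset.sum_sub_distrib] at h2
    rw [h3, sub_eq_zero] at h2
    simp only [hη]
    exact h2.symm
  have h2 := congrArg (cmp (C.isInternal W) (e j)) h1
  rw [map_sum, cmp_of_mem _ (hν j)] at h2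
  rw [← h2]
  refine Finset.sum_congr rfl fun i _ => ?_
  rw [map_smul]
  by_cases hij : (e i : ℤ) = e j
  · have h3 := degL_cmp (H := H) (he j) (η i)
    rw [← hij] at h3 ⊢
    rw [h3, cmp_of_mem _ (hν i)]
  · rw [cmp_of_ne _ (hν i) hij, smul_zero, degL_of_ne (C.mul_mem (he j) (cmp_mem _ _ _)) (by omega),
      zero_smul]

/-- A unipotent correction. -/
lemma exists_unipotent_rel {m : ℕ} {e : Fin m → ℕ} {y' y : Fin m → C.A Y}
    (he' : ∀ i, y' i ∈ C.gr Y (e i)) (he : ∀ i, y i ∈ C.gr Y (e i))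
    (hcl : ∀ i, H.cl (y' i) = H.cl (y i))
    (hy' : ∀ q : Fin m → ℚ, NumTrivial C (∑ i, q i • y' i) → ∑ i, q i • y' i = 0)
    (hy : ∀ q : Fin m → ℚ, NumTrivial C (∑ i, q i • y' i) → ∑ i, q i • y i = 0) :
    ∃ N : C.A (Y.prod Y), N ∈ C.gr (Y.prod Y) Y.dim ∧ H.cl N = 0 ∧ C.comp N N = 0 ∧
      ∀ i, C.act N (y' i) = y i - y' i := by
  classical
  obtain ⟨η, hη1, hη2⟩ := exists_dual_rel (H := H) he'
  have hν0 : ∀ i, H.cl (y i - y' i) = 0 := fun i => by rw [map_sub, hcl, sub_self]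
  have hνm : ∀ i, y i - y' i ∈ C.gr Y (e i) := fun i => Submodule.sub_mem _ (he i) (he' i)
  have hrel : ∀ q : Fin m → ℚ, NumTrivial C (∑ i, q i • y' i) →
      ∑ i, q i • (y i - y' i) = 0 := fun q hq => by
    simp only [smul_sub, Finset.sum_sub_distrib]
    rw [hy q hq, hy' q hq, sub_zero]
  refine ⟨∑ i, C.ext (η i) (y i - y' i), ?_, ?_, ?_, fun i => ?_⟩
  · refine Submodule.sum_mem _ fun i _ => ?_
    have := ext_mem' (hη1 i) (hνm i)
    rwa [sub_add_cancel] at this
  · rw [map_sum]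
    refine Finset.sum_eq_zero fun i _ => ?_
    rw [TheoryData.ext, map_mul, H.cl_pull, H.cl_pull, hν0, map_zero, mul_zero]
  · rw [sum_comp]
    refine Finset.sum_eq_zero fun i _ => ?_
    rw [comp_sum]
    refine Finset.sum_eq_zero fun j _ => ?_
    rw [comp_ext_deg (H := H), degL_hom_left (hν0 i), zero_smul]
  · rw [act_sum, ← hη2 Y (fun i => y i - y' i) hνm hrel i]
    refine Finset.sum_congr rfl fun j _ => ?_
    rw [act_ext_deg (H := H), degL_comm]

/-- The orthogonal correction in the presence of relations. -/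
lemma exists_correction_rel {m : ℕ} {e : Fin m → ℕ} {y' y : Fin m → C.A Y}
    (he' : ∀ i, y' i ∈ C.gr Y (e i)) (he : ∀ i, y i ∈ C.gr Y (e i))
    (hcl : ∀ i, H.cl (y' i) = H.cl (y i))
    (hy' : ∀ q : Fin m → ℚ, NumTrivial C (∑ i, q i • y' i) → ∑ i, q i • y' i = 0)
    (hy : ∀ q : Fin m → ℚ, NumTrivial C (∑ i, q i • y' i) → ∑ i, q i • y i = 0) :
    ∃ u : C.A (Y.prod Y), u ∈ C.gr (Y.prod Y) Y.dim ∧ H.cl u = H.cl (dg C Y) ∧
      C.comp u (tp C u) = dg C Y ∧ C.comp (tp C u) u = dg C Y ∧ ∀ i, C.act u (y' i) = y i := by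
  classical
  obtain ⟨η, hη1, hη2⟩ := exists_dual_rel (H := H) he'
  set ν : Fin m → C.A Y := fun i => y i - y' i with hν
  have hν0 : ∀ i, H.cl (ν i) = 0 := fun i => by rw [hν]; simp only [map_sub, hcl, sub_self]
  have hνm : ∀ i, ν i ∈ C.gr Y (e i) := fun i => Submodule.sub_mem _ (he i) (he' i)
  have hrel : ∀ q : Fin m → ℚ, NumTrivial C (∑ i, q i • y' i) → ∑ i, q i • ν i = 0 :=
    fun q hq => by
      simp only [hν, smul_sub, Finset.sum_sub_distrib]
      rw [hy q hq, hy' q hq, sub_zero]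
  set N : C.A (Y.prod Y) := ∑ i, C.ext (η i) (ν i) with hN
  set M : C.A (Y.prod Y) := ∑ i, C.ext (ν i) (η i) with hM
  set Q : C.A (Y.prod Y) := ∑ i, ∑ j, degL H Y (η i * η j) • C.ext (ν i) (ν j) with hQ
  have tN : tp C N = M := by
    rw [hN, tp_sum]
    exact Finset.sum_congr rfl fun i _ => tp_ext _ _
  have tM : tp C M = N := by
    rw [hM, tp_sum]
    exact Finset.sum_congr rfl fun i _ => tp_ext _ _
  have tQ : tp C Q = Q := by
    rw [hQ, tp_sum, Finset.sum_comm]
    refine Finset.sum_congr rfl fun i _ => ?_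
    rw [tp_sum]
    refine Finset.sum_congr rfl fun j _ => ?_
    rw [tp_smul, tp_ext, degL_comm]
  have hEE : ∀ (a b c d : Fin m → C.A Y), (∀ i j, degL H Y (b i * c j) = 0) →
      C.comp (∑ i, C.ext (a i) (b i)) (∑ j, C.ext (c j) (d j)) = 0 := by
    intro a b c d h
    rw [sum_comp]
    refine Finset.sum_eq_zero fun i _ => ?_
    rw [comp_sum]
    refine Finset.sum_eq_zero fun j _ => ?_
    rw [comp_ext_deg (H := H), h, zero_smul]
  have NN : C.comp N N = 0 := hEE _ _ _ _ fun i j => degL_hom_left (hν0 i) _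
  have NM : C.comp N M = 0 := hEE _ _ _ _ fun i j => degL_hom_left (hν0 i) _
  have MM : C.comp M M = 0 := hEE _ _ _ _ fun i j => degL_hom_right (hν0 j) _
  have MN : C.comp M N = Q := by
    rw [hM, hN, sum_comp]
    refine Finset.sum_congr rfl fun i _ => ?_
    rw [comp_sum]
    refine Finset.sum_congr rfl fun j _ => ?_
    rw [comp_ext_deg (H := H)]
  have NQ : C.comp N Q = 0 := by rw [← MN, ← comp_assoc, NM, zero_comp]
  have QM : C.comp Q M = 0 := by rw [← MN, comp_assoc, NM, comp_zero]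
  have MQ : C.comp M Q = 0 := by rw [← MN, ← comp_assoc, MM, zero_comp]
  have QN : C.comp Q N = 0 := by rw [← MN, comp_assoc, NN, comp_zero]
  have QQ : C.comp Q Q = 0 := by
    nth_rewrite 1 [← MN]
    rw [comp_assoc, NQ, comp_zero]
  have hNm : N ∈ C.gr (Y.prod Y) Y.dim := Submodule.sum_mem _ fun i _ => by
    have := ext_mem' (hη1 i) (hνm i)
    rwa [sub_add_cancel] at this
  have hMm : M ∈ C.gr (Y.prod Y) Y.dim := Submodule.sum_mem _ fun i _ => by
    have := ext_mem' (hνm i) (hη1 i)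
    rwa [add_sub_cancel] at this
  have hQm : Q ∈ C.gr (Y.prod Y) Y.dim := by
    rw [← MN]
    exact comp_mem_zero hMm hNm
  have clN : H.cl N = 0 := by
    rw [hN, map_sum]
    refine Finset.sum_eq_zero fun i _ => ?_
    rw [TheoryData.ext, map_mul, H.cl_pull, H.cl_pull, hν0, map_zero, mul_zero]
  have clM : H.cl M = 0 := by
    rw [hM, map_sum]
    refine Finset.sum_eq_zero fun i _ => ?_
    rw [TheoryData.ext, map_mul, H.cl_pull, H.cl_pull, hν0, map_zero, zero_mul]
  have clQ : H.cl Q = 0 := by rw [← MN, cl_comp, clM, zero_comp]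
  set K : C.A (Y.prod Y) := N - M with hK
  have KK : C.comp K K = -Q := by
    rw [hK, sub_comp, comp_sub, comp_sub, NN, NM, MM, MN]
    abel
  have KQ : C.comp K Q = 0 := by rw [hK, sub_comp, NQ, MQ, sub_self]
  have QK : C.comp Q K = 0 := by rw [hK, comp_sub, QN, QM, sub_self]
  have tK : tp C K = -K := by rw [hK, tp_sub, tN, tM, neg_sub]
  set u : C.A (Y.prod Y) := dg C Y + K - (2 : ℚ)⁻¹ • Q with hu
  have tu : tp C u = dg C Y - K - (2 : ℚ)⁻¹ • Q := by
    rw [hu, tp_sub, tp_add, tp_dg, tK, tp_smul, tQ, ← sub_eq_add_neg]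
  refine ⟨u, ?_, ?_, ?_, ?_, ?_⟩
  · exact Submodule.sub_mem _ (Submodule.add_mem _ (dg_mem C Y) (Submodule.sub_mem _ hNm hMm))
      (Submodule.smul_mem _ _ hQm)
  · rw [hu, map_sub, map_add, hK, map_sub, clN, clM, cl_smul, clQ, smul_zero, sub_zero, sub_zero,
      add_zero]
  · rw [tu, hu]
    simp only [sub_comp, add_comp, comp_sub, smul_comp', comp_smul', dg_comp, comp_dg, KK, KQ, QK,
      QQ, smul_zero]
    have e1 : (2 : ℚ)⁻¹ • Q + (2 : ℚ)⁻¹ • Q = Q := by
      rw [← add_smul]; norm_num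
    have e2 : dg C Y + K - (2 : ℚ)⁻¹ • Q - (K + -Q - 0) - ((2 : ℚ)⁻¹ • Q + 0 - 0) =
        dg C Y - ((2 : ℚ)⁻¹ • Q + (2 : ℚ)⁻¹ • Q) + Q := by abel
    rw [e2, e1, sub_add_cancel]
  · rw [tu, hu]
    simp only [sub_comp, comp_add, comp_sub, smul_comp', comp_smul', dg_comp, comp_dg, KK, KQ, QK,
      QQ, smul_zero]
    have e1 : (2 : ℚ)⁻¹ • Q + (2 : ℚ)⁻¹ • Q = Q := by
      rw [← add_smul]; norm_num
    have e2 : dg C Y - K - (2 : ℚ)⁻¹ • Q + (K - -Q - 0) - ((2 : ℚ)⁻¹ • Q - 0 - 0) =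
        dg C Y - ((2 : ℚ)⁻¹ • Q + (2 : ℚ)⁻¹ • Q) + Q := by abel
    rw [e2, e1, sub_add_cancel]
  · intro i
    have a1 : C.act N (y' i) = ν i := by
      rw [hN, act_sum, ← hη2 Y ν hνm hrel i]
      refine Finset.sum_congr rfl fun j _ => ?_
      rw [act_ext_deg (H := H), degL_comm]
    have a2 : ∀ z, C.act M z = 0 := by
      intro z
      rw [hM, act_sum]
      refine Finset.sum_eq_zero fun j _ => ?_
      rw [act_ext_deg (H := H), degL_hom_left (hν0 j), zero_smul]
    have a3 : ∀ z, C.act Q z = 0 := by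
      intro z
      rw [← MN, C.act_comp, a2, TheoryData.act_map_zero]
    have a4 : C.act ((2 : ℚ)⁻¹ • Q) (y' i) = (2 : ℚ)⁻¹ • C.act Q (y' i) :=
      LinearMap.map_smul₂ (actB C) _ Q (y' i)
    rw [hu, hK, TheoryData.act_sub, TheoryData.act_add, TheoryData.act_sub, act_dg, a1, a2, a4, a3,
      smul_zero, sub_zero, sub_zero, hν]
    simp

end Run7.h158
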