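import Pool.Agent.Run7.h158.Restr

/-!
# The unconditional statement
-/

open CategoryTheory AlgebraicGeometry

namespace Run7.h158

open Pool.Agent.H914 Pool.Agent.H914.VarClass Pool.Agent.H914.VarClass.Obj Pool.Agent.W492.BB
  Pool.Agent.W550.Corr Pool.Agent.TH133 Pool.Agent.TH829.Prime Pool.Agent.TH829.Kim
  Pool.Agent.Q8.HK Pool.Agent.N174.OV Pool.Agent.Y107 Pool.Agent.N174.KN

set_option linter.unusedSectionVars false

variable {𝒱 : VarClass ℂ} {C : TheoryData.{0, 0, 0} 𝒱 ℚ} [hC : IsChowProj C]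
  {H : WeilTheoryData.{0, 0, 0} C ℂ} [hH : IsWeilProj H] {X Y Z W : 𝒱.Obj}
  {G : H.A X ≃ₐ[ℂ] H.A Y} {c : ℚ} {s : C.A (X.prod Y)} {s' : C.A (Y.prod X)}

include hC

lemma fil_ext {F : Filtration C} (hF : IsMultiplicative F) {i j m n : ℕ} {a : C.A X} {b : C.A Y}
    (ha : F.Mem i m a) (hb : F.Mem j n b) : F.Mem (i + j) (m + n) (C.ext a b) :=
  hF.mul (hF.pull _ ha) (hF.pull _ hb)

include hH

/-- Composition with a unipotent correspondence of degree zero. -/
lemma Lift.comp_unipotent (h : Lift H G c s s') {N : C.A (Y.prod Y)} (hN : H.cl N = 0)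
    (hNN : C.comp N N = 0) :
    Lift H G c (C.comp s (dg C Y + N)) (C.comp (dg C Y - N) s') where
  ne := h.ne
  left := by
    have e1 : C.comp (dg C Y + N) (dg C Y - N) = dg C Y := by
      rw [add_comp, comp_sub, comp_sub, dg_comp, dg_comp, comp_dg, hNN]
      abel
    rw [comp_assoc, ← comp_assoc C (dg C Y + N), e1, dg_comp, h.left]
  right := by
    have e1 : C.comp (dg C Y - N) (dg C Y + N) = dg C Y := by
      rw [sub_comp, comp_add, comp_add, dg_comp, dg_comp, comp_dg, hNN]
      abel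
    rw [comp_assoc, ← comp_assoc C s', h.right, dg_comp, e1]
  act x := by
    rw [actH_comp, h.act, map_add, hN, add_zero, actH_dg]
  deg := h.deg
  tr := h.tr

section HK

variable {n : ℕ} {V U : Type} [AddCommGroup V] [Module ℂ V] [AddCommGroup U] [Module ℂ U]
  {hX : HyperKahler H n X V} {hY : HyperKahler H n Y U}
  {R : Submodule ℚ (C.A X)} {R' : Submodule ℚ (C.A Y)}

/-- **The unconditional case.** -/
theorem exists_grIso_restr (hX : HyperKahler H n X V) (h : Lift H G c s s')
    (hR : IsFaithful C R) (hR' : IsFaithful C R') (hm : Matches H G R R') :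
    ∃ (Z1 s1 : C.A (X.prod Y)) (Z1' s1' : C.A (Y.prod X)), Induces H G Z1 ∧
      Induces H G.symm Z1' ∧ C.comp s1 s1' = dg C X ∧ C.comp s1' s1 = dg C Y ∧
      RestrictsTo C Z1 Z1' R R' ∧ ∀ F : Filtration C, IsCompatible H F → IsGrIso F 2 Z1 s1 Z1' s1' := by
  classical
  have hc2 : c ^ 2 ≠ 0 := pow_ne_zero 2 h.ne
  obtain ⟨m, e, x, y, hx, hy, hxe, hye, hcl, hspan⟩ := exists_families hX h.deg hR hR' hm
  set Z0 := vr X Y 0 s with hZ0def
  have hZ0 : Induces H G Z0 := h.induces
  have hy'm : ∀ i, C.act Z0 (x i) ∈ C.gr Y (e i) := fun i => by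
    have h2 := act_mem' C (e := 0) (by rw [add_zero]; exact hZ0.deg) (hxe i)
    rwa [add_zero] at h2
  have hy'cl : ∀ i, H.cl (C.act Z0 (x i)) = H.cl (y i) := fun i => by
    rw [cl_act H, hZ0.act, hcl]
  have hsum : ∀ q : Fin m → ℚ, ∑ i, q i • C.act Z0 (x i) = C.act Z0 (∑ i, q i • x i) := by
    intro q
    rw [act_map_sum]
    exact Finset.sum_congr rfl fun i _ => (act_map_smul C Z0 _ _).symm
  have hxR : ∀ q : Fin m → ℚ, ∑ i, q i • x i ∈ R := fun q =>
    Submodule.sum_mem _ fun i _ => Submodule.smul_mem _ _ (hx i)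
  have hyR : ∀ q : Fin m → ℚ, ∑ i, q i • y i ∈ R' := fun q =>
    Submodule.sum_mem _ fun i _ => Submodule.smul_mem _ _ (hy i)
  have hclq : ∀ q : Fin m → ℚ, H.cl (∑ i, q i • y i) = G (H.cl (∑ i, q i • x i)) := by
    intro q
    rw [map_sum, map_sum, map_sum]
    refine Finset.sum_congr rfl fun i _ => ?_
    rw [cl_smul, cl_smul, hcl, map_smul]
  have hxy0 : ∀ q : Fin m → ℚ, ∑ i, q i • x i = 0 → ∑ i, q i • y i = 0 := by
    intro q h1
    refine eq_of_cl (H := H) hR' (hyR q) (Submodule.zero_mem _) ?_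
    rw [hclq, h1, map_zero, map_zero, map_zero]
  have hyx0 : ∀ q : Fin m → ℚ, ∑ i, q i • y i = 0 → ∑ i, q i • x i = 0 := by
    intro q h1
    refine eq_of_cl (H := H) hR (hxR q) (Submodule.zero_mem _) ?_
    have h2 := hclq q
    rw [h1, map_zero] at h2
    rw [map_zero]
    exact (map_eq_zero_iff G G.injective).1 h2.symm
  have hrel : ∀ q : Fin m → ℚ, NumTrivial C (∑ i, q i • C.act Z0 (x i)) →
      ∑ i, q i • x i = 0 := by
    intro q hq
    rw [hsum] at hq
    exact hR.faithful _ (hxR q) (numTrivial_transfer hZ0 hc2 h.tr hq)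
  obtain ⟨N, hN1, hN2, hN3, hN4⟩ := exists_unipotent_rel (H := H) hy'm hye hy'cl
    (fun q hq => by rw [hsum, hrel q hq, TheoryData.act_map_zero])
    (fun q hq => hxy0 q (hrel q hq))
  have h1 := h.comp_unipotent hN2 hN3
  set s1 := C.comp s (dg C Y + N) with hs1
  set s1' := C.comp (dg C Y - N) s' with hs1'
  have hu : dg C Y + N ∈ C.gr (Y.prod Y) Y.dim := Submodule.add_mem _ (dg_mem C Y) hN1
  have hZ1 : vr X Y 0 s1 = C.comp Z0 (dg C Y + N) := vr_comp_right s hu 0
  have hxy : ∀ i, C.act (vr X Y 0 s1) (x i) = y i := by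
    intro i
    rw [hZ1, C.act_comp, TheoryData.act_add, act_dg, hN4, add_sub_cancel]
  -- the correction of `Z'`
  set Z2 := vr Y X 0 s1' with hZ2
  have hI2 : Induces H G.symm Z2 := h1.symm.induces
  set f : Fin m → C.A X := fun i => x i - C.act Z2 (y i) with hf
  obtain ⟨θ, hθ1, hθ2⟩ := exists_dual_rel (H := H) hye
  have hfm : ∀ i, f i ∈ C.gr X (e i) := fun i => by
    refine Submodule.sub_mem _ (hxe i) ?_
    have h2 := act_mem' C (e := 0) (by rw [add_zero]; exact hI2.deg) (hye i)
    rwa [add_zero] at h2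
  have hf0 : ∀ i, H.cl (f i) = 0 := fun i => by
    simp only [hf]
    rw [map_sub, cl_act H, hI2.act, hcl, AlgEquiv.symm_apply_apply, sub_self]
  have hfrel : ∀ q : Fin m → ℚ, NumTrivial C (∑ i, q i • y i) → ∑ i, q i • f i = 0 := by
    intro q hq
    have h2 := hR'.faithful _ (hyR q) hq
    have h3 := hyx0 q h2
    have h4 : ∑ i, q i • f i = ∑ i, q i • x i - C.act Z2 (∑ i, q i • y i) := by
      rw [act_map_sum, ← Finset.sum_sub_distrib]
      refine Finset.sum_congr rfl fun i _ => ?_
      simp only [hf]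
      rw [act_map_smul C Z2, smul_sub]
    rw [h4, h2, h3, TheoryData.act_map_zero, sub_zero]
  set E : C.A (Y.prod X) := ∑ i, C.ext (θ i) (f i) with hE
  have hEm : E ∈ C.gr (Y.prod X) Y.dim := Submodule.sum_mem _ fun i _ => by
    have := ext_mem' (hθ1 i) (hfm i)
    rwa [sub_add_cancel] at this
  have hE0 : H.cl E = 0 := by
    rw [hE, map_sum]
    refine Finset.sum_eq_zero fun i _ => ?_
    rw [TheoryData.ext, map_mul, H.cl_pull, H.cl_pull, hf0, map_zero, mul_zero]
  have hEy : ∀ i, C.act E (y i) = f i := fun i => by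
    rw [hE, act_sum, ← hθ2 X f hfm hfrel i]
    refine Finset.sum_congr rfl fun j _ => ?_
    rw [act_ext_deg (H := H), degL_comm]
  have hI3 : Induces H G.symm (Z2 + E) := ⟨Submodule.add_mem _ hI2.deg hEm, fun a => by
    rw [map_add, hE0, add_zero, hI2.act]⟩
  -- `E` is in the second step of all filtrations
  have hE2 : ∀ F : Filtration C, IsCompatible H F → F.Mem Y.dim 2 E := by
    intro F hF
    refine Submodule.sum_mem _ fun i _ => ?_
    have h2 : F.Mem (e i) 2 (f i) := by
      have h3 := fil_act hF.multiplicative (h1.comp_zero_sub hF) ((hF.zero _ _ _).2 (hxe i))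
      have h4 : f i = - C.act (C.comp (vr X Y 0 s1) (vr Y X 0 s1') - dg C X) (x i) := by
        rw [TheoryData.act_sub, C.act_comp, act_dg, hxy]
        simp only [hf]
        abel
      rw [h4]
      exact Submodule.neg_mem _ h3
    by_cases hi : e i ≤ Y.dim
    · have h3 : F.Mem (Y.dim - e i) 0 (θ i) := by
        refine (hF.zero _ _ _).2 ?_
        have := hθ1 i
        rwa [show ((Y.dim : ℤ) - e i) = ((Y.dim - e i : ℕ) : ℤ) by omega] at this
      have h4 := fil_ext hF.multiplicative h3 h2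
      rwa [zero_add, Nat.sub_add_cancel hi] at h4
    · have h3 := hθ1 i
      rw [C.gr_neg Y _ (by omega)] at h3
      rw [(Submodule.mem_bot _).1 h3]
      have h4 : C.ext (0 : C.A Y) (f i) = 0 := by
        rw [TheoryData.ext, map_zero, zero_mul]
      rw [h4]
      exact Submodule.zero_mem _
  refine ⟨vr X Y 0 s1, s1, Z2 + E, s1', h1.induces, hI3, h1.left, h1.right,
    restrictsTo_of h1.induces hR' hm hspan (fun i => ?_) (fun i => ?_), fun F hF => ?_⟩
  · rw [hxy]
    exact hy i
  · rw [hxy, TheoryData.act_add, hEy]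
    simp only [hf]
    abel
  · have hEF := hE2 F hF
    have hcomp : ∀ {T : 𝒱.Obj} {i k : ℕ} {a : C.A (T.prod Y)}, F.Mem i k a →
        F.Mem i (k + 2) (C.comp a E) := fun ha => fil_comp hF.multiplicative ha hEF rfl
    refine ⟨h1.induces.inducesGrHom hF, hI3.inducesGrHom hF, ?_, ?_, h1.sameGr hF, ?_⟩
    · intro T i k a ha
      have h2 := h1.isGrInverse hF T i k a ha
      have h3 := hcomp ((h1.induces.inducesGrHom hF).map T i k a ha)
      have h4 := Submodule.add_mem _ h2 h3
      rwa [sub_add_eq_add_sub, ← comp_add] at h4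
    · intro T i k a ha
      have h2 := h1.symm.isGrInverse hF T i k a ha
      have h3 : F.Mem i (k + 2) (C.comp (C.comp a E) (vr X Y 0 s1)) :=
        (h1.induces.inducesGrHom hF).map T i (k + 2) _ (hcomp ha)
      have h4 := Submodule.add_mem _ h2 h3
      rwa [sub_add_eq_add_sub, ← add_comp, ← comp_add] at h4
    · have h2 := h1.symm.sameGr hF
      refine ⟨h2.map, fun T k a ha => ?_⟩
      have h3 := h2.same T k a ha
      have h4 : C.comp a E ∈ total F (k + 1) (T.prod X) := by
        refine Submodule.iSup_induction (fun i => F.F (T.prod Y) i k)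
          (motive := fun a => C.comp a E ∈ total F (k + 1) (T.prod X)) ha ?_ ?_ ?_
        · intro i a ha
          have h5 : F.Mem i (k + 1) (C.comp a E) := fil_anti (by omega) (hcomp ha)
          exact (le_iSup (fun i => F.F (T.prod X) i (k + 1)) i) h5
        · rw [zero_comp]
          exact Submodule.zero_mem _
        · intro a b h5 h6
          rw [add_comp]
          exact Submodule.add_mem _ h5 h6
      have h5 := Submodule.sub_mem _ h3 h4
      rwa [sub_sub, ← comp_add] at h5

end HK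

end Run7.h158
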